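import Pool.Agent.Helper63.LT.St

/-!
# Project LT, module LT-5: one addition

`AddStep`, with `c = 20`. If `P = 0` or `Q = 0` take `w = 1`. Otherwise
`P = (s₁ / b₁, t₁ / b₁)`, `Q = (s₂ / b₂, t₂ / b₂)` with algebraic integers bounded by `B`.
If the slope is `N / D` then `P + Q` has the denominator `D ^ 3 b₁ b₂`, and the same holds over
`κ`.
-/

set_option autoImplicit false

set_option linter.unusedSimpArgs false

open scoped NumberField

namespace Pool.Agent.Helper63.LT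

open WeierstrassCurve Pool.Agent.Helper10.SS

section hs
variable {L : Type} [Field L] {w v : L} {B C : ℝ}

private lemma hs_mono (h : Hs w B) (hBC : B ≤ C) : Hs w C := fun σ => (h σ).trans hBC

private lemma hs_mul (h : Hs w B) (h' : Hs v C) (hB : 0 ≤ B) : Hs (w * v) (B * C) := fun σ => by
  rw [map_mul, norm_mul]
  exact mul_le_mul (h σ) (h' σ) (norm_nonneg _) hB

private lemma hs_add (h : Hs w B) (h' : Hs v C) : Hs (w + v) (B + C) := fun σ => by
  rw [map_add]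
  exact (norm_add_le _ _).trans (add_le_add (h σ) (h' σ))

private lemma hs_neg (h : Hs w B) : Hs (-w) B := fun σ => by
  rw [map_neg, norm_neg]
  exact h σ

private lemma hs_sub (h : Hs w B) (h' : Hs v C) : Hs (w - v) (B + C) := by
  rw [sub_eq_add_neg]
  exact hs_add h (hs_neg h')

private lemma hs_pow (h : Hs w B) (n : ℕ) : Hs (w ^ n) (B ^ n) := fun σ => by
  rw [map_pow, norm_pow]
  exact pow_le_pow_left₀ (norm_nonneg _) (h σ) n

private lemma hs_nat (n : ℕ) : Hs (n : L) n := fun σ => by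
  rw [map_natCast]
  simp

end hs

section coe
variable {L : Type} [Field L]

private lemma cmul (a b : 𝓞 L) : ((a * b : 𝓞 L) : L) = (a : L) * (b : L) := map_mul _ _ _
private lemma cadd (a b : 𝓞 L) : ((a + b : 𝓞 L) : L) = (a : L) + (b : L) := map_add _ _ _
private lemma csub (a b : 𝓞 L) : ((a - b : 𝓞 L) : L) = (a : L) - (b : L) := map_sub _ _ _
private lemma cneg (a : 𝓞 L) : ((-a : 𝓞 L) : L) = -(a : L) := map_neg _ _
private lemma cpow (a : 𝓞 L) (n : ℕ) : ((a ^ n : 𝓞 L) : L) = (a : L) ^ n := map_pow _ _ _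
private lemma cone : ((1 : 𝓞 L) : L) = 1 := map_one _
private lemma czero : ((0 : 𝓞 L) : L) = 0 := map_zero _
private lemma ctwo : ((2 : 𝓞 L) : L) = ((2 : ℕ) : L) := by
  have := map_natCast (algebraMap (𝓞 L) L) 2
  exact_mod_cast this
private lemma cthree : ((3 : 𝓞 L) : L) = ((3 : ℕ) : L) := by
  have := map_natCast (algebraMap (𝓞 L) L) 3
  exact_mod_cast this

private lemma cinj {a b : 𝓞 L} (h : (a : L) = (b : L)) : a = b :=
  NumberField.RingOfIntegers.coe_injective h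

end coe

/-- The coordinates of the sum, with denominator. -/
private lemma comb {K : Type} [Field K] {N D b s t b' s' x y x' : K} (hD : D ≠ 0)
    (h1 : b * x = s) (h2 : b * y = t) (h3 : b' * x' = s') :
    (D ^ 3 * b * b') * ((N / D) ^ 2 - x - x') =
      D * (N ^ 2 * b * b' - D ^ 2 * (s * b' + s' * b)) ∧
    (D ^ 3 * b * b') * (-(N / D * ((N / D) ^ 2 - x - x' - x) + y)) =
      -(N * ((N ^ 2 * b * b' - D ^ 2 * (s * b' + s' * b)) - D ^ 2 * b' * s) + D ^ 3 * b' * t) := by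
  obtain ⟨m, hm⟩ : ∃ m, m = N / D := ⟨_, rfl⟩
  have hN : N = m * D := by rw [hm]; field_simp
  rw [← hm, ← h1, ← h2, ← h3, hN]
  constructor <;> ring

/-- The representation of the coordinates modulo `φ` does not matter. -/
private lemma rep {L κ : Type} [Field L] [Field κ] {φ : 𝓞 L →+* κ} {P : (EF (1 : L) 0).Point}
    {P' : (EF (1 : κ) 0).Point} (h : Rd φ P P') {x y : L} (hP : AtF P x y) {s t b : 𝓞 L}
    (hx : (b : L) * x = s) (hy : (b : L) * y = t) :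
    ∃ x' y' : κ, AtF P' x' y' ∧ φ b * x' = φ s ∧ φ b * y' = φ t := by
  rcases h with ⟨h0, -⟩ | ⟨x1, y1, x', y', h1, h2, s1, t1, b1, hb1, hs1, ht1, hs1', ht1'⟩
  · exact absurd h0 hP.ne_zero
  · obtain ⟨rfl, rfl⟩ := h1.unique hP
    refine ⟨x', y', h2, ?_, ?_⟩
    · have e : b * s1 = b1 * s := by
        apply cinj
        rw [cmul, cmul]
        rw [← hs1, ← hx]; ring
      have e' : φ b * φ s1 = φ b1 * φ s := by rw [← map_mul, e, map_mul]
      apply mul_left_cancel₀ hb1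
      rw [← e', ← hs1']; ring
    · have e : b * t1 = b1 * t := by
        apply cinj
        rw [cmul, cmul]
        rw [← ht1, ← hy]; ring
      have e' : φ b * φ t1 = φ b1 * φ t := by rw [← map_mul, e, map_mul]
      apply mul_left_cancel₀ hb1
      rw [← e', ← ht1']; ring

private lemma coe_ne {L : Type} [Field L] {b : 𝓞 L} (hb : b ≠ 0) : (b : L) ≠ 0 := by
  intro h
  apply hb
  apply cinj
  rw [czero]
  exact h

/-- The main computation. -/
private lemma core {L : Type} [Field L] [NumberField L] [DecidableEq L] {B : ℝ} (hB : 2 ≤ B)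
    {R : (EF (1 : L) 0).Point} {x₁ y₁ x₂ : L} {s₁ t₁ b₁ s₂ b₂ N D : 𝓞 L}
    (hb1 : b₁ ≠ 0) (hb2 : b₂ ≠ 0) (hD : D ≠ 0)
    (h1 : (b₁ : L) * x₁ = s₁) (h2 : (b₁ : L) * y₁ = t₁) (h3 : (b₂ : L) * x₂ = s₂)
    (Hb1 : Hs (b₁ : L) B) (Hs1 : Hs (s₁ : L) B) (Ht1 : Hs (t₁ : L) B)
    (Hb2 : Hs (b₂ : L) B) (Hs2 : Hs (s₂ : L) B)
    (HN : Hs (N : L) (4 * B ^ 2)) (HD : Hs (D : L) (4 * B ^ 2))
    (hR : AtF R (((N : L) / D) ^ 2 - x₁ - x₂)
      (-((N : L) / D * (((N : L) / D) ^ 2 - x₁ - x₂ - x₁) + y₁))) :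
    Bd R (B ^ 20) ∧
      ∀ (κ : Type) [Field κ] (φ : 𝓞 L →+* κ) (R' : (EF (1 : κ) 0).Point) (x₁' y₁' x₂' : κ),
        φ D ≠ 0 → φ b₁ ≠ 0 → φ b₂ ≠ 0 →
        φ b₁ * x₁' = φ s₁ → φ b₁ * y₁' = φ t₁ → φ b₂ * x₂' = φ s₂ →
        AtF R' ((φ N / φ D) ^ 2 - x₁' - x₂')
          (-(φ N / φ D * ((φ N / φ D) ^ 2 - x₁' - x₂' - x₁') + y₁')) →
        Rd φ R R' := by
  obtain ⟨c1, c2⟩ := comb (N := (N : L)) (coe_ne hD) h1 h2 h3
  have e1 : ((D ^ 3 * b₁ * b₂ : 𝓞 L) : L) * (((N : L) / D) ^ 2 - x₁ - x₂) =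
      ((D * (N ^ 2 * b₁ * b₂ - D ^ 2 * (s₁ * b₂ + s₂ * b₁)) : 𝓞 L) : L) := by
    simp only [cmul, cadd, csub, cneg, cpow]
    exact c1
  have e2 : ((D ^ 3 * b₁ * b₂ : 𝓞 L) : L) *
      (-((N : L) / D * (((N : L) / D) ^ 2 - x₁ - x₂ - x₁) + y₁)) =
      ((-(N * ((N ^ 2 * b₁ * b₂ - D ^ 2 * (s₁ * b₂ + s₂ * b₁)) - D ^ 2 * b₂ * s₁) +
        D ^ 3 * b₂ * t₁) : 𝓞 L) : L) := by
    simp only [cmul, cadd, csub, cneg, cpow]
    exact c2
  have hB0 : 0 ≤ B := by linarith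
  have hB2 : 0 ≤ 4 * B ^ 2 := by positivity
  have hbig : 4096 * B ^ 8 ≤ B ^ 20 := by
    have : (2 : ℝ) ^ 12 ≤ B ^ 12 := pow_le_pow_left₀ (by norm_num) hB 12
    calc 4096 * B ^ 8 = 2 ^ 12 * B ^ 8 := by norm_num
      _ ≤ B ^ 12 * B ^ 8 := mul_le_mul_of_nonneg_right this (by positivity)
      _ = B ^ 20 := by ring
  have hB8 : 0 ≤ B ^ 8 := by positivity
  refine ⟨Or.inr ⟨_, _, hR, _, _, _, ?_, e1, e2, ?_, ?_, ?_⟩, ?_⟩
  · exact mul_ne_zero (mul_ne_zero (pow_ne_zero _ hD) hb1) hb2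
  · simp only [cmul, cadd, csub, cneg, cpow]
    refine hs_mono (hs_mul (hs_mul (hs_pow HD 3) Hb1 (by positivity)) Hb2 (by positivity)) ?_
    calc (4 * B ^ 2) ^ 3 * B * B = 64 * B ^ 8 := by ring
      _ ≤ 4096 * B ^ 8 := by linarith
      _ ≤ _ := hbig
  · simp only [cmul, cadd, csub, cneg, cpow]
    refine hs_mono (hs_mul HD (hs_sub (hs_mul (hs_mul (hs_pow HN 2) Hb1 (by positivity)) Hb2
      (by positivity)) (hs_mul (hs_pow HD 2) (hs_add (hs_mul Hs1 Hb2 hB0) (hs_mul Hs2 Hb1 hB0))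
      (by positivity))) hB2) ?_
    calc 4 * B ^ 2 * ((4 * B ^ 2) ^ 2 * B * B + (4 * B ^ 2) ^ 2 * (B * B + B * B))
        = 192 * B ^ 8 := by ring
      _ ≤ 4096 * B ^ 8 := by linarith
      _ ≤ _ := hbig
  · simp only [cmul, cadd, csub, cneg, cpow]
    refine hs_mono (hs_neg (hs_add (hs_mul HN (hs_sub (hs_sub (hs_mul (hs_mul (hs_pow HN 2) Hb1
      (by positivity)) Hb2 (by positivity)) (hs_mul (hs_pow HD 2) (hs_add (hs_mul Hs1 Hb2 hB0)
      (hs_mul Hs2 Hb1 hB0)) (by positivity))) (hs_mul (hs_mul (hs_pow HD 2) Hb2 (by positivity))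
      Hs1 (by positivity))) hB2) (hs_mul (hs_mul (hs_pow HD 3) Hb2 (by positivity)) Ht1
      (by positivity)))) ?_
    calc 4 * B ^ 2 * ((4 * B ^ 2) ^ 2 * B * B + (4 * B ^ 2) ^ 2 * (B * B + B * B) +
          (4 * B ^ 2) ^ 2 * B * B) + (4 * B ^ 2) ^ 3 * B * B
        = 320 * B ^ 8 := by ring
      _ ≤ 4096 * B ^ 8 := by linarith
      _ ≤ _ := hbig
  · intro κ _ φ R' x₁' y₁' x₂' fD fb1 fb2 g1 g2 g3 hR'
    obtain ⟨d1, d2⟩ := comb (N := φ N) fD g1 g2 g3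
    refine Or.inr ⟨_, _, _, _, hR, hR', _, _, _, ?_, e1, e2, ?_, ?_⟩
    · rw [map_mul, map_mul, map_pow]
      exact mul_ne_zero (mul_ne_zero (pow_ne_zero _ fD) fb1) fb2
    · simp only [map_mul, map_pow, map_sub, map_add]
      exact d1
    · simp only [map_mul, map_pow, map_sub, map_add, map_neg]
      exact d2

private lemma bd_mono {L : Type} [Field L] {P : (EF (1 : L) 0).Point} {B C : ℝ} (h : Bd P B)
    (hBC : B ≤ C) : Bd P C := by
  rcases h with h | ⟨x, y, h, s, t, b, hb, h1, h2, h3, h4, h5⟩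
  · exact Or.inl h
  · exact Or.inr ⟨x, y, h, s, t, b, hb, h1, h2, hs_mono h3 hBC, hs_mono h4 hBC, hs_mono h5 hBC⟩

private lemma rd_zero {L κ : Type} [Field L] [Field κ] {φ : 𝓞 L →+* κ}
    {P' : (EF (1 : κ) 0).Point} (h : Rd φ 0 P') : P' = 0 := by
  rcases h with ⟨-, h⟩ | ⟨x, y, x', y', h, -⟩
  · exact h
  · exact absurd rfl h.ne_zero

theorem addStep : AddStep := by
  refine ⟨20, by norm_num, ?_⟩
  intro L _ _ _ B hB P Q hP hQ
  have hB0 : 0 ≤ B := by linarith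
  have hB1 : 1 ≤ B := by linarith
  have hBc : B ≤ B ^ 20 := le_self_pow₀ hB1 (by norm_num)
  have h1 : Hs ((1 : 𝓞 L) : L) (B ^ 20) := by
    intro σ
    rw [cone, map_one, norm_one]
    exact one_le_pow₀ hB1
  rcases hP with hP | ⟨x₁, y₁, hP, s₁, t₁, b₁, hb₁, hx₁, hy₁, Hb₁, Hs₁, Ht₁⟩
  · subst hP
    refine ⟨1, one_ne_zero, h1, ?_, ?_⟩
    · rw [zero_add]; exact bd_mono hQ hBc
    · intro κ _ _ φ P' Q' _ _ hP' hQ'
      rw [rd_zero hP', zero_add, zero_add]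
      exact hQ'
  rcases hQ with hQ | ⟨x₂, y₂, hQ, s₂, t₂, b₂, hb₂, hx₂, hy₂, Hb₂, Hs₂, Ht₂⟩
  · subst hQ
    refine ⟨1, one_ne_zero, h1, ?_, ?_⟩
    · rw [add_zero]
      exact bd_mono (Or.inr ⟨x₁, y₁, hP, s₁, t₁, b₁, hb₁, hx₁, hy₁, Hb₁, Hs₁, Ht₁⟩) hBc
    · intro κ _ _ φ P' Q' _ _ hP' hQ'
      rw [rd_zero hQ', add_zero, add_zero]
      exact hP'
  have hb₁' : (b₁ : L) ≠ 0 := coe_ne hb₁
  have hb₂' : (b₂ : L) ≠ 0 := coe_ne hb₂
  have hbig : 4 * B ^ 4 ≤ B ^ 20 := by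
    have : (2 : ℝ) ^ 16 ≤ B ^ 16 := pow_le_pow_left₀ (by norm_num) hB 16
    have h4 : 0 ≤ B ^ 4 := by positivity
    calc 4 * B ^ 4 ≤ 2 ^ 16 * B ^ 4 := by norm_num; linarith
      _ ≤ B ^ 16 * B ^ 4 := mul_le_mul_of_nonneg_right this h4
      _ = B ^ 20 := by ring
  by_cases hx : x₁ = x₂
  · subst hx
    by_cases hy : y₁ = -y₂
    · -- sum zero
      have hPQ : P + Q = 0 := by
        apply AtF.add_neg hP
        rw [hy, neg_neg]
        exact hQ
      rw [hPQ]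
      refine ⟨b₁ * b₂, mul_ne_zero hb₁ hb₂, ?_, Or.inl rfl, ?_⟩
      · rw [cmul]
        refine hs_mono (hs_mul Hb₁ Hb₂ hB0) ?_
        nlinarith [pow_le_pow_left₀ (by norm_num : (0 : ℝ) ≤ 2) hB 2, pow_nonneg hB0 4]
      · intro κ _ _ φ P' Q' _ hw hP' hQ'
        rw [map_mul] at hw
        obtain ⟨x₁', y₁', hP'', g1, g2⟩ := rep hP' hP hx₁ hy₁
        obtain ⟨x₂', y₂', hQ'', g3, g4⟩ := rep hQ' hQ hx₂ hy₂
        refine Or.inl ⟨rfl, ?_⟩
        have e : b₂ * s₁ = b₁ * s₂ := by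
          apply cinj
          rw [cmul, cmul]
          rw [← hx₁, ← hx₂]; ring
        have e' : φ b₂ * φ s₁ = φ b₁ * φ s₂ := by rw [← map_mul, e, map_mul]
        have f : b₂ * t₁ = -(b₁ * t₂) := by
          apply cinj
          rw [cneg, cmul, cmul]
          rw [← hy₁, ← hy₂, hy]; ring
        have f' : φ b₂ * φ t₁ = -(φ b₁ * φ t₂) := by rw [← map_mul, f, map_neg, map_mul]
        have hxx : x₁' = x₂' := by
          apply mul_left_cancel₀ hw
          linear_combination φ b₂ * g1 - φ b₁ * g3 + e'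
        have hyy : y₁' = -y₂' := by
          apply mul_left_cancel₀ hw
          linear_combination φ b₂ * g2 + φ b₁ * g4 + f'
        subst hxx
        apply AtF.add_neg hP''
        rw [hyy, neg_neg]
        exact hQ''
    · -- doubling
      have hyy : y₁ = y₂ := by
        have e1 := hP.eqn
        have e2 := hQ.eqn
        have e3 : (y₁ + y₂) * (y₁ - y₂) = 0 := by linear_combination e1 - e2
        rcases mul_eq_zero.mp e3 with h | h
        · exact absurd (by linear_combination h) hy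
        · linear_combination h
      subst hyy
      have hy0 : 2 * y₁ ≠ 0 := by
        intro h
        apply hy
        linear_combination h
      have ePQ : P = Q := hP.eq hQ
      subst ePQ
      have hy0' : y₁ ≠ 0 := by
        intro h
        apply hy0
        rw [h, mul_zero]
      have ht1 : t₁ ≠ 0 := by
        rintro rfl
        rw [czero] at hy₁
        rcases mul_eq_zero.mp hy₁ with h | h
        · exact hb₁' h
        · exact hy0' h
      have hD : (2 * t₁ * b₁ : 𝓞 L) ≠ 0 :=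
        mul_ne_zero (mul_ne_zero two_ne_zero ht1) hb₁
      have hslope : (3 * x₁ ^ 2 + 1) / (2 * y₁) =
          ((3 * s₁ ^ 2 + b₁ ^ 2 : 𝓞 L) : L) / ((2 * t₁ * b₁ : 𝓞 L) : L) := by
        rw [div_eq_div_iff hy0 (coe_ne hD)]
        simp only [cmul, cadd, csub, cneg, cpow, ctwo, cthree]
        push_cast
        rw [← hx₁, ← hy₁]
        ring
      have hR := hP.dbl hy0
      rw [hslope] at hR
      have c1 := core hB hb₁ hb₁ hD hx₁ hy₁ hx₁ Hb₁ Hs₁ Ht₁ Hb₁ Hs₁ (by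
        simp only [cmul, cadd, csub, cneg, cpow, ctwo, cthree]
        refine hs_mono (hs_add (hs_mul (hs_nat 3) (hs_pow Hs₁ 2) (by positivity))
          (hs_pow Hb₁ 2)) ?_
        push_cast
        linarith) (by
        simp only [cmul, cadd, csub, cneg, cpow, ctwo, cthree]
        refine hs_mono (hs_mul (hs_mul (hs_nat 2) Ht₁ (by positivity)) Hb₁
          (by positivity)) ?_
        push_cast
        nlinarith [mul_nonneg hB0 hB0]) hR
      refine ⟨t₁ * b₁, mul_ne_zero ht1 hb₁, ?_, c1.1, ?_⟩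
      · rw [cmul]
        refine hs_mono (hs_mul Ht₁ Hb₁ hB0) ?_
        nlinarith [pow_le_pow_left₀ (by norm_num : (0 : ℝ) ≤ 2) hB 2, pow_nonneg hB0 4]
      · intro κ _ _ φ P' Q' h2 hw hP' hQ'
        rw [map_mul] at hw
        obtain ⟨ft, fb⟩ := mul_ne_zero_iff.mp hw
        obtain ⟨x₁', y₁', hP'', g1, g2⟩ := rep hP' hP hx₁ hy₁
        obtain ⟨x₂', y₂', hQ'', g3, g4⟩ := rep hQ' hP hx₁ hy₁
        have hxx : x₁' = x₂' := mul_left_cancel₀ fb (g1.trans g3.symm)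
        have hyy : y₁' = y₂' := mul_left_cancel₀ fb (g2.trans g4.symm)
        subst hxx hyy
        have ePQ' : P' = Q' := hP''.eq hQ''
        subst ePQ'
        have hy0'' : y₁' ≠ 0 := by
          rintro rfl
          rw [mul_zero] at g2
          exact ft g2.symm
        have hy2 : 2 * y₁' ≠ 0 := mul_ne_zero h2 hy0''
        have fD : φ (2 * t₁ * b₁) ≠ 0 := by
          rw [map_mul, map_mul, map_ofNat]
          exact mul_ne_zero (mul_ne_zero h2 ft) fb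
        have hslope' : (3 * x₁' ^ 2 + 1) / (2 * y₁') =
            φ (3 * s₁ ^ 2 + b₁ ^ 2) / φ (2 * t₁ * b₁) := by
          rw [div_eq_div_iff hy2 fD]
          simp only [map_mul, map_add, map_pow, map_ofNat]
          rw [← g1, ← g2]
          ring
        have hR' := hP''.dbl hy2
        rw [hslope'] at hR'
        exact c1.2 κ φ _ x₁' y₁' x₁' fD fb fb g1 g2 g1 hR'
  · -- general case
    have hxs : x₁ - x₂ ≠ 0 := sub_ne_zero.mpr hx
    have eD : ((s₁ * b₂ - s₂ * b₁ : 𝓞 L) : L) = b₁ * b₂ * (x₁ - x₂) := by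
      rw [csub, cmul, cmul]
      rw [← hx₁, ← hx₂]; ring
    have eN : ((t₁ * b₂ - t₂ * b₁ : 𝓞 L) : L) = b₁ * b₂ * (y₁ - y₂) := by
      rw [csub, cmul, cmul]
      rw [← hy₁, ← hy₂]; ring
    have hD : (s₁ * b₂ - s₂ * b₁ : 𝓞 L) ≠ 0 := by
      intro h
      rw [h, czero] at eD
      exact mul_ne_zero (mul_ne_zero hb₁' hb₂') hxs eD.symm
    have hslope : (y₁ - y₂) / (x₁ - x₂) =
        ((t₁ * b₂ - t₂ * b₁ : 𝓞 L) : L) / ((s₁ * b₂ - s₂ * b₁ : 𝓞 L) : L) := by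
      rw [eD, eN, mul_div_mul_left _ _ (mul_ne_zero hb₁' hb₂')]
    have hR := hP.add hQ hx
    rw [hslope] at hR
    have HD : Hs ((s₁ * b₂ - s₂ * b₁ : 𝓞 L) : L) (2 * B ^ 2) := by
      rw [csub, cmul, cmul]
      refine hs_mono (hs_sub (hs_mul Hs₁ Hb₂ hB0) (hs_mul Hs₂ Hb₁ hB0)) ?_
      apply le_of_eq
      ring
    have HN : Hs ((t₁ * b₂ - t₂ * b₁ : 𝓞 L) : L) (2 * B ^ 2) := by
      rw [csub, cmul, cmul]
      refine hs_mono (hs_sub (hs_mul Ht₁ Hb₂ hB0) (hs_mul Ht₂ Hb₁ hB0)) ?_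
      apply le_of_eq
      ring
    have h24 : 2 * B ^ 2 ≤ 4 * B ^ 2 := by nlinarith [mul_nonneg hB0 hB0]
    have c1 := core hB hb₁ hb₂ hD hx₁ hy₁ hx₂ Hb₁ Hs₁ Ht₁ Hb₂ Hs₂ (hs_mono HN h24)
      (hs_mono HD h24) hR
    refine ⟨(s₁ * b₂ - s₂ * b₁) * b₁ * b₂, mul_ne_zero (mul_ne_zero hD hb₁) hb₂, ?_, c1.1, ?_⟩
    · rw [cmul, cmul]
      refine hs_mono (hs_mul (hs_mul HD Hb₁ (by positivity)) Hb₂ (by positivity)) ?_
      refine le_trans ?_ hbig
      have : 0 ≤ B ^ 4 := by positivity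
      nlinarith
    · intro κ _ _ φ P' Q' _ hw hP' hQ'
      rw [map_mul, map_mul] at hw
      obtain ⟨hw', fb2⟩ := mul_ne_zero_iff.mp hw
      obtain ⟨fD, fb1⟩ := mul_ne_zero_iff.mp hw'
      obtain ⟨x₁', y₁', hP'', g1, g2⟩ := rep hP' hP hx₁ hy₁
      obtain ⟨x₂', y₂', hQ'', g3, g4⟩ := rep hQ' hQ hx₂ hy₂
      have fD' : φ (s₁ * b₂ - s₂ * b₁) = φ b₁ * φ b₂ * (x₁' - x₂') := by
        simp only [map_mul, map_sub]
        rw [← g1, ← g3]; ring
      have fN' : φ (t₁ * b₂ - t₂ * b₁) = φ b₁ * φ b₂ * (y₁' - y₂') := by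
        simp only [map_mul, map_sub]
        rw [← g2, ← g4]; ring
      have hx' : x₁' ≠ x₂' := by
        rintro rfl
        apply fD
        rw [fD', sub_self, mul_zero]
      have hslope' : (y₁' - y₂') / (x₁' - x₂') =
          φ (t₁ * b₂ - t₂ * b₁) / φ (s₁ * b₂ - s₂ * b₁) := by
        rw [fD', fN', mul_div_mul_left _ _ (mul_ne_zero fb1 fb2)]
      have hR' := hP''.add hQ'' hx'
      rw [hslope'] at hR'
      exact c1.2 κ φ _ x₁' y₁' x₂' fD fb1 fb2 g1 g2 g3 hR'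

end Pool.Agent.Helper63.LT
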