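import Pool.Agent.Helper63.LT.St

/-!
# Project LT: admissible points, good points

Definitions used in the final statement.
-/

set_option autoImplicit false

namespace Pool.Agent.Helper63.LT

open WeierstrassCurve Pool.Agent.Helper10.SS

/-- No quotient of two of the integers is of the form `r ^ 4` or `-4 r ^ 4`. -/
def Inequivalent {ι : Type} (a : ι → ℤ) : Prop :=
  ∀ i j, i ≠ j → ∀ r : ℚ, (a i : ℚ) ≠ r ^ 4 * a j ∧ (a i : ℚ) ≠ -4 * r ^ 4 * a j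

/-- The point `P = (x, y)` of `y² = x³ + a x` has infinite order and none of `-a`, `x`, `a x` is
of the form `r ^ 2` or `-3 r ^ 2`. -/
def Admissible (a : ℤ) (P : (EF (a : ℚ) 0).Point) : Prop :=
  (∀ n : ℤ, n • P = 0 → n = 0) ∧ ∃ x y : ℚ, AtF P x y ∧ ∀ r : ℚ,
    ((-a : ℚ) ≠ r ^ 2 ∧ (-a : ℚ) ≠ -3 * r ^ 2) ∧ (x ≠ r ^ 2 ∧ x ≠ -3 * r ^ 2) ∧
      (a * x ≠ r ^ 2 ∧ a * x ≠ -3 * r ^ 2)

/-- For arbitrarily large `z` there are at least `c z / (log z) ^ 2` primes `p ≤ z` modulo which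
the point generates the group of points. -/
def Good (a : ℤ) (P : (EF (a : ℚ) 0).Point) : Prop :=
  ∃ c : ℝ, 0 < c ∧ ∀ z0 : ℝ, ∃ z : ℝ, z0 ≤ z ∧
    c * z / Real.log z ^ 2 ≤ ({p : ℕ | (p : ℝ) ≤ z ∧ Primitive a P p}.ncard : ℝ)

end Pool.Agent.Helper63.LT
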