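import Pool.Agent.Helper63.LT.St

/-!
# Project LT, module LT-6: linear combinations

`AddStep → Chain`. Let `c₁` be the constant of `AddStep` and `c = 4 c₁ ^ 2`.
(0) Lemmas: every `w : 𝓞 L` has `Hs w B` for some `B` (finitely many embeddings `L →+* ℂ`), every
point has `Bd P B` for some `B` (write the coordinates with a common denominator,
`IsLocalization.exist_integer_multiples_of_finset` or `IsFractionRing.div_surjective`), both are
monotone in `B`. `Rd φ P P' → Rd φ (-P) (-P')` (`AtF.neg`), `Rd φ 0 0`.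
(1) For every FIXED `ε : I → ℤ` there is `w ≠ 0` with `Rd φ (∑ ε i • Q i) (∑ ε i • Q' i)` whenever
`φ w ≠ 0`, `2 ≠ 0` and all `Rd φ (Q i) (Q' i)`: first for `m • Q i` with `m : ℕ` by induction, then
for integers by negation, then for finite sums by `Finset.induction_on`; each step multiplies the
`w` by the one of `AddStep`.
(2) So there is one bound `B₀ = exp A`, `A ≥ 1`, such that for each of the finitely many `ε` with
all `|ε i| ≤ 1` the point `∑ ε i • Q i` is `Bd B₀` and the `w` of (1) is `Hs B₀`.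
(3) Induction on `J` of the statement: for `|n i| ≤ 2 ^ J` there is `w` as in `Chain` with
`Hs w (exp (A c ^ J))` and moreover `Bd (∑ n i • Q i) (exp (A c ^ J))`. `J = 0` is (2). Step: write
`n = 2 m + ε`, `|m i| ≤ 2 ^ J`, `|ε i| ≤ 1` (`m = n / 2` rounded towards zero: `Int.tdiv`,
`Int.tmod`), `R = ∑ m i • Q i`, `∑ n i • Q i = (R + R) + ∑ ε i • Q i`. With `B = exp (A c ^ J)`:
`AddStep` for `R, R` gives `w₁`, `Hs (B ^ c₁)`, `Bd (R + R) (B ^ c₁)`; `AddStep` with the bound
`B ^ c₁` for `R + R` and `∑ ε i • Q i` gives `w₂` and `Bd (..) (B ^ (c₁ ^ 2))`. The product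
`w(m) w₁ w(ε) w₂` is at most `B B ^ c₁ B B ^ (c₁ ^ 2) ≤ B ^ (4 c₁ ^ 2) = exp (A c ^ (J + 1))`.
-/

set_option autoImplicit false

open scoped NumberField

namespace Pool.Agent.Helper63.LT

open WeierstrassCurve Pool.Agent.Helper10.SS

private lemma Hs.mono {L : Type} [Field L] {w : L} {B B' : ℝ} (h : Hs w B) (hB : B ≤ B') :
    Hs w B' := fun σ => (h σ).trans hB

private lemma Hs.mul {L : Type} [Field L] {w w' : L} {B B' : ℝ} (h : Hs w B) (h' : Hs w' B')
    (hB : 0 ≤ B) : Hs (w * w') (B * B') := by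
  intro σ
  rw [map_mul, norm_mul]
  exact mul_le_mul (h σ) (h' σ) (norm_nonneg _) hB

private lemma hs_ex {L : Type} [Field L] [NumberField L] (w : L) : ∃ B : ℝ, Hs w B := by
  refine ⟨∑ σ : L →+* ℂ, ‖σ w‖, fun σ => ?_⟩
  exact Finset.single_le_sum (f := fun σ : L →+* ℂ => ‖σ w‖) (fun _ _ => norm_nonneg _)
    (Finset.mem_univ σ)

private lemma Bd.mono {L : Type} [Field L] {P : (EF (1 : L) 0).Point} {B B' : ℝ} (h : Bd P B)
    (hB : B ≤ B') : Bd P B' := by
  rcases h with h | ⟨x, y, hP, s, t, b, hb, hx, hy, h1, h2, h3⟩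
  · exact Or.inl h
  · exact Or.inr ⟨x, y, hP, s, t, b, hb, hx, hy, h1.mono hB, h2.mono hB, h3.mono hB⟩

private lemma bd_ex {L : Type} [Field L] [NumberField L] (P : (EF (1 : L) 0).Point) :
    ∃ B : ℝ, Bd P B := by
  rcases zero_orF P with h | ⟨x, y, hP⟩
  · exact ⟨0, Or.inl h⟩
  · obtain ⟨s, b, hb, hx⟩ := IsFractionRing.div_surjective (A := 𝓞 L) x
    obtain ⟨t, d, hd, hy⟩ := IsFractionRing.div_surjective (A := 𝓞 L) y
    have hb0 : b ≠ 0 := nonZeroDivisors.ne_zero hb
    have hd0 : d ≠ 0 := nonZeroDivisors.ne_zero hd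
    have hbL : (b : L) ≠ 0 := by
      intro h; apply hb0; exact NumberField.RingOfIntegers.coe_eq_zero_iff.mp h
    have hdL : (d : L) ≠ 0 := by
      intro h; apply hd0; exact NumberField.RingOfIntegers.coe_eq_zero_iff.mp h
    obtain ⟨B1, h1⟩ := hs_ex (((b * d : 𝓞 L)) : L)
    obtain ⟨B2, h2⟩ := hs_ex (((s * d : 𝓞 L)) : L)
    obtain ⟨B3, h3⟩ := hs_ex (((t * b : 𝓞 L)) : L)
    refine ⟨max B1 (max B2 B3), Or.inr ⟨x, y, hP, s * d, t * b, b * d, mul_ne_zero hb0 hd0,
      ?_, ?_, h1.mono (le_max_left _ _), h2.mono ((le_max_left _ _).trans (le_max_right _ _)),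
      h3.mono ((le_max_right _ _).trans (le_max_right _ _))⟩⟩
    · have hx' : (s : L) / (b : L) = x := hx
      rw [← hx']
      push_cast
      field_simp
    · have hy' : (t : L) / (d : L) = y := hy
      rw [← hy']
      push_cast
      field_simp

private lemma Rd.zero {L κ : Type} [Field L] [Field κ] (φ : 𝓞 L →+* κ) :
    Rd φ (0 : (EF (1 : L) 0).Point) (0 : (EF (1 : κ) 0).Point) := Or.inl ⟨rfl, rfl⟩

private lemma Rd.neg {L κ : Type} [Field L] [Field κ] {φ : 𝓞 L →+* κ}
    {P : (EF (1 : L) 0).Point} {P' : (EF (1 : κ) 0).Point} (h : Rd φ P P') :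
    Rd φ (-P) (-P') := by
  rcases h with ⟨rfl, rfl⟩ | ⟨x, y, x', y', hP, hP', s, t, b, hb, hx, hy, hx', hy'⟩
  · exact Or.inl ⟨rfl, rfl⟩
  · refine Or.inr ⟨x, -y, x', -y', hP.neg, hP'.neg, s, -t, b, hb, hx, ?_, hx', ?_⟩
    · rw [mul_neg, hy]
      exact (map_neg (algebraMap (𝓞 L) L) t).symm
    · rw [map_neg, ← hy']; ring

/-- The set of the exponents for which the combination reduces away from one integer. -/
private def Gd {L : Type} [Field L] [DecidableEq L] {I : Type} [Fintype I]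
    (Q : I → (EF (1 : L) 0).Point) (w : 𝓞 L) (n : I → ℤ) : Prop :=
  ∀ (κ : Type) [Field κ] [DecidableEq κ] (φ : 𝓞 L →+* κ) (Q' : I → (EF (1 : κ) 0).Point),
    (2 : κ) ≠ 0 → φ w ≠ 0 → (∀ i, Rd φ (Q i) (Q' i)) →
    Rd φ (∑ i, n i • Q i) (∑ i, n i • Q' i)

private lemma gd_all (h : AddStep) {L : Type} [Field L] [NumberField L] [DecidableEq L]
    {I : Type} [Fintype I] (Q : I → (EF (1 : L) 0).Point) (n : I → ℤ) :
    ∃ w : 𝓞 L, w ≠ 0 ∧ Gd Q w n := by
  classical
  obtain ⟨c, hc, hstep⟩ := h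
  let S : AddSubgroup (I → ℤ) :=
    { carrier := {n | ∃ w : 𝓞 L, w ≠ 0 ∧ Gd Q w n}
      zero_mem' := by
        refine ⟨1, one_ne_zero, ?_⟩
        intro κ _ _ φ Q' h2 hw hQ
        have e1 : ∑ i, (0 : I → ℤ) i • Q i = 0 := by
          apply Finset.sum_eq_zero
          intro i _
          rw [Pi.zero_apply, zero_smul]
        have e2 : ∑ i, (0 : I → ℤ) i • Q' i = 0 := by
          apply Finset.sum_eq_zero
          intro i _
          rw [Pi.zero_apply, zero_smul]
        rw [e1, e2]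
        exact Rd.zero φ
      add_mem' := by
        rintro a b ⟨w, hw, ha⟩ ⟨v, hv, hb⟩
        obtain ⟨B1, h1⟩ := bd_ex (∑ i, a i • Q i)
        obtain ⟨B2, h2⟩ := bd_ex (∑ i, b i • Q i)
        obtain ⟨u, hu, -, -, hR⟩ := hstep L (max 2 (max B1 B2)) (le_max_left _ _) _ _
          (h1.mono ((le_max_left _ _).trans (le_max_right _ _)))
          (h2.mono ((le_max_right _ _).trans (le_max_right _ _)))
        refine ⟨w * v * u, mul_ne_zero (mul_ne_zero hw hv) hu, ?_⟩
        intro κ _ _ φ Q' h2 hφ hQ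
        rw [map_mul, map_mul] at hφ
        have e1 : ∑ i, (a + b) i • Q i = ∑ i, a i • Q i + ∑ i, b i • Q i := by
          rw [← Finset.sum_add_distrib]
          apply Finset.sum_congr rfl
          intro i _
          rw [Pi.add_apply, add_smul]
        have e2 : ∑ i, (a + b) i • Q' i = ∑ i, a i • Q' i + ∑ i, b i • Q' i := by
          rw [← Finset.sum_add_distrib]
          apply Finset.sum_congr rfl
          intro i _
          rw [Pi.add_apply, add_smul]
        rw [e1, e2]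
        exact hR κ φ _ _ h2 (right_ne_zero_of_mul hφ)
          (ha κ φ Q' h2 (left_ne_zero_of_mul (left_ne_zero_of_mul hφ)) hQ)
          (hb κ φ Q' h2 (right_ne_zero_of_mul (left_ne_zero_of_mul hφ)) hQ)
      neg_mem' := by
        rintro a ⟨w, hw, ha⟩
        refine ⟨w, hw, ?_⟩
        intro κ _ _ φ Q' h2 hφ hQ
        have e1 : ∑ i, (-a) i • Q i = -∑ i, a i • Q i := by
          rw [← Finset.sum_neg_distrib]
          apply Finset.sum_congr rfl
          intro i _
          rw [Pi.neg_apply, neg_smul]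
        have e2 : ∑ i, (-a) i • Q' i = -∑ i, a i • Q' i := by
          rw [← Finset.sum_neg_distrib]
          apply Finset.sum_congr rfl
          intro i _
          rw [Pi.neg_apply, neg_smul]
        rw [e1, e2]
        exact (ha κ φ Q' h2 hφ hQ).neg }
  have hs : ∀ i, Pi.single i (1 : ℤ) ∈ S := by
    intro i
    refine ⟨1, one_ne_zero, ?_⟩
    intro κ _ _ φ Q' h2 hφ hQ
    have e1 : ∑ j, (Pi.single i (1 : ℤ) : I → ℤ) j • Q j = Q i := by
      rw [Finset.sum_eq_single i]
      · rw [Pi.single_eq_same, one_smul]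
      · intro j _ hj
        rw [Pi.single_eq_of_ne hj, zero_smul]
      · intro hi
        exact absurd (Finset.mem_univ i) hi
    have e2 : ∑ j, (Pi.single i (1 : ℤ) : I → ℤ) j • Q' j = Q' i := by
      rw [Finset.sum_eq_single i]
      · rw [Pi.single_eq_same, one_smul]
      · intro j _ hj
        rw [Pi.single_eq_of_ne hj, zero_smul]
      · intro hi
        exact absurd (Finset.mem_univ i) hi
    rw [e1, e2]
    exact hQ i
  have hn : n = ∑ i, n i • (Pi.single i (1 : ℤ) : I → ℤ) := by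
    funext j
    rw [Finset.sum_apply, Finset.sum_eq_single j]
    · simp
    · intro i _ hi
      simp [Pi.single_eq_of_ne (Ne.symm hi)]
    · intro hi
      exact absurd (Finset.mem_univ j) hi
  have hm : n ∈ S := by
    rw [hn]
    exact sum_mem fun i _ => zsmul_mem (hs i) _
  exact hm

private lemma two_le_exp {x : ℝ} (hx : 1 ≤ x) : 2 ≤ Real.exp x := by
  have := Real.add_one_le_exp x
  linarith

theorem chain (h : AddStep) : Chain := by
  classical
  have h' := h
  obtain ⟨c₁, hc, hstep⟩ := h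
  have hc2 : 1 ≤ c₁ ^ 2 := Nat.one_le_pow _ _ hc
  refine ⟨4 * c₁ ^ 2, by omega, ?_⟩
  intro L _ _ _ I _ Q
  -- one bound for the finitely many small coefficient vectors
  have hex : ∀ e : I → ℤ, ∃ B : ℝ, ∃ w : 𝓞 L, w ≠ 0 ∧ Hs (w : L) B ∧
      Bd (∑ i, e i • Q i) B ∧ Gd Q w e := by
    intro e
    obtain ⟨w, hw, hG⟩ := gd_all h' Q e
    obtain ⟨B1, h1⟩ := hs_ex (w : L)
    obtain ⟨B2, h2⟩ := bd_ex (∑ i, e i • Q i)
    exact ⟨max B1 B2, w, hw, h1.mono (le_max_left _ _), h2.mono (le_max_right _ _), hG⟩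
  choose B hB using hex
  let T : Finset (I → ℤ) := Finset.Icc (fun _ => -1) (fun _ => 1)
  let A : ℝ := 1 + ∑ e ∈ T, |B e|
  have hA1 : 1 ≤ A := by
    have : 0 ≤ ∑ e ∈ T, |B e| := Finset.sum_nonneg fun _ _ => abs_nonneg _
    simp only [A]; linarith
  have hBA : ∀ e : I → ℤ, (∀ i, |e i| ≤ 1) → B e ≤ Real.exp A := by
    intro e he
    have heT : e ∈ T := by
      simp only [T, Finset.mem_Icc]
      exact ⟨fun i => (abs_le.mp (he i)).1, fun i => (abs_le.mp (he i)).2⟩
    have h1 : |B e| ≤ ∑ e ∈ T, |B e| :=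
      Finset.single_le_sum (f := fun e => |B e|) (fun _ _ => abs_nonneg _) heT
    have h2 := Real.add_one_le_exp A
    have h3 := le_abs_self (B e)
    simp only [A] at h2 ⊢
    linarith
  refine ⟨A, by linarith, ?_⟩
  have main : ∀ (J : ℕ) (n : I → ℤ), (∀ i, |n i| ≤ 2 ^ J) → ∃ w : 𝓞 L, w ≠ 0 ∧
      Hs (w : L) (Real.exp (A * ((4 * c₁ ^ 2 : ℕ) : ℝ) ^ J)) ∧
      Bd (∑ i, n i • Q i) (Real.exp (A * ((4 * c₁ ^ 2 : ℕ) : ℝ) ^ J)) ∧ Gd Q w n := by
    intro J
    induction J with
    | zero =>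
      intro n hn
      have hn' : ∀ i, |n i| ≤ 1 := fun i => by simpa using hn i
      obtain ⟨w, hw, h1, h2, h3⟩ := hB n
      rw [pow_zero, mul_one]
      exact ⟨w, hw, h1.mono (hBA n hn'), h2.mono (hBA n hn'), h3⟩
    | succ J ih =>
      intro n hn
      set C : ℝ := ((4 * c₁ ^ 2 : ℕ) : ℝ) with hC
      have hC4 : C = 4 * (c₁ : ℝ) ^ 2 := by rw [hC]; push_cast; ring
      have hC1 : 1 ≤ C := by
        rw [hC]
        exact_mod_cast (by omega : 1 ≤ 4 * c₁ ^ 2)
      have hCJ : 1 ≤ C ^ J := one_le_pow₀ hC1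
      have hAC : A ≤ A * C ^ J := by nlinarith
      have hb : ∀ i, |n i / 2| ≤ 2 ^ J ∧ |n i % 2| ≤ 1 := by
        intro i
        have h1 := hn i
        rw [pow_succ] at h1
        generalize (2 : ℤ) ^ J = M at h1 ⊢
        rw [abs_le] at h1
        constructor
        · rw [abs_le]; omega
        · rw [abs_le]; omega
      obtain ⟨w, hw, hH, hBd, hG⟩ := ih (fun i => n i / 2) fun i => (hb i).1
      obtain ⟨v, hv, hHv, hBv, hGv⟩ := hB (fun i => n i % 2)
      have hle := hBA (fun i => n i % 2) fun i => (hb i).2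
      set R := ∑ i, (n i / 2) • Q i with hR
      set E := ∑ i, (n i % 2) • Q i with hE
      set b : ℝ := Real.exp (A * C ^ J) with hbdef
      have hAb : Real.exp A ≤ b := Real.exp_le_exp.mpr hAC
      have hb2 : 2 ≤ b := two_le_exp (hA1.trans hAC)
      have hb1 : 1 ≤ b := by linarith
      have hbb : b ≤ b ^ c₁ := le_self_pow₀ hb1 (by omega)
      obtain ⟨w₁, hw₁, hH₁, hB₁, hR₁⟩ := hstep L b hb2 R R hBd hBd
      obtain ⟨w₂, hw₂, hH₂, hB₂, hR₂⟩ := hstep L (b ^ c₁) (hb2.trans hbb) (R + R) E hB₁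
        (hBv.mono (hle.trans (hAb.trans hbb)))
      have hsum : ∀ {K : Type} [Field K] [DecidableEq K] (q : I → (EF (1 : K) 0).Point),
          ∑ i, n i • q i = (∑ i, (n i / 2) • q i + ∑ i, (n i / 2) • q i) +
            ∑ i, (n i % 2) • q i := by
        intro K _ _ q
        rw [← Finset.sum_add_distrib, ← Finset.sum_add_distrib]
        apply Finset.sum_congr rfl
        intro i _
        rw [← add_smul, ← add_smul]
        congr 1
        omega
      have hexp : Real.exp (A * C ^ (J + 1)) = b ^ (4 * c₁ ^ 2) := by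
        rw [hbdef, ← Real.exp_nat_mul]
        congr 1
        rw [hC4]; push_cast; ring
      refine ⟨w * w₁ * v * w₂, mul_ne_zero (mul_ne_zero (mul_ne_zero hw hw₁) hv) hw₂,
        ?_, ?_, ?_⟩
      · rw [hexp]
        have hp : Hs ((w * w₁ * v * w₂ : 𝓞 L) : L) (b * b ^ c₁ * b * (b ^ c₁) ^ c₁) := by
          push_cast
          refine Hs.mul (Hs.mul (Hs.mul hH hH₁ (by linarith))
            (hHv.mono (hle.trans hAb)) (by positivity)) hH₂ (by positivity)
        refine hp.mono ?_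
        have e : b * b ^ c₁ * b * (b ^ c₁) ^ c₁ = b ^ (2 + c₁ + c₁ ^ 2) := by
          rw [← pow_mul, pow_add, pow_add]
          ring
        rw [e]
        apply pow_le_pow_right₀ hb1
        nlinarith
      · rw [hexp, hsum Q]
        refine hB₂.mono ?_
        rw [← pow_mul]
        apply pow_le_pow_right₀ hb1
        nlinarith
      · intro κ _ _ φ Q' h2 hφ hQ
        rw [map_mul, map_mul, map_mul] at hφ
        have f1 := left_ne_zero_of_mul hφ
        have f2 := left_ne_zero_of_mul f1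
        rw [hsum Q, hsum Q']
        have g1 := hG κ φ Q' h2 (left_ne_zero_of_mul f2) hQ
        have g2 := hR₁ κ φ _ _ h2 (right_ne_zero_of_mul f2) g1 g1
        exact hR₂ κ φ _ _ h2 (right_ne_zero_of_mul hφ) g2
          (hGv κ φ Q' h2 (right_ne_zero_of_mul f1) hQ)
  intro J n hn
  obtain ⟨w, hw, hH, -, hG⟩ := main J n hn
  exact ⟨w, hw, hH, fun κ _ _ φ Q' h2 hφ hQ => hG κ φ Q' h2 hφ hQ⟩

end Pool.Agent.Helper63.LT
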