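import Pool.Agent.Helper63.LT.St
import Pool.Agent.Helper18.BV.Assemble2

/-!
# Project LT, module LT-11a: one special prime
-/

set_option autoImplicit false

open Finset Filter Topology

namespace Pool.Agent.Helper63.LT

open WeierstrassCurve Pool.Agent.Helper10.SS Pool.Agent.Helper18.BV

/-- independence of subfamilies -/
lemma indep_sub {I : Type} [Fintype I] {a : I → ℤ} {P : ∀ i, (EF (a i : ℚ) 0).Point}
    (hP : ∀ i, P i ≠ 0) (h : Indep a P) (J : Finset I) :
    Indep (fun i : J => a i) (fun i : J => P i) := by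
  classical
  refine ⟨fun i j hij => h.1 i j hij, ?_⟩
  intro d S hS n hn hsum
  have hex : ∀ i : I, ∃ S0 : (EF (d : ℚ) 0).Point,
      (a i = d → ∃ x y, AtF (P i) x y ∧ AtF S0 x y) ∧ ∀ hi : i ∈ J, S0 = S ⟨i, hi⟩ := by
    intro i
    by_cases hi : i ∈ J
    · exact ⟨S ⟨i, hi⟩, fun hid => hS ⟨i, hi⟩ hid, fun _ => rfl⟩
    · by_cases hid : a i = d
      · subst hid
        obtain ⟨x, y, hxy⟩ := (zero_orF (P i)).resolve_left (hP i)
        exact ⟨P i, fun _ => ⟨x, y, hxy, hxy⟩, fun hi' => absurd hi' hi⟩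
      · exact ⟨0, fun h' => absurd h' hid, fun hi' => absurd hi' hi⟩
  choose S' hS'1 hS'2 using hex
  have h1 := h.2 d S' hS'1 (fun i => if hi : i ∈ J then n ⟨i, hi⟩ else 0) (by
    intro i hi
    by_cases hiJ : i ∈ J
    · simp only [hiJ, dif_pos] at hi
      exact hn ⟨i, hiJ⟩ hi
    · simp only [hiJ, dif_neg, not_false_eq_true, ne_eq, not_true_eq_false] at hi) (by
    rw [← hsum]
    calc ∑ i, (if hi : i ∈ J then n ⟨i, hi⟩ else 0) • S' i
        = ∑ i ∈ J, (if hi : i ∈ J then n ⟨i, hi⟩ else 0) • S' i := by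
          symm
          apply Finset.sum_subset (Finset.subset_univ J)
          intro i _ hi
          rw [dif_neg hi, zero_zsmul]
      _ = ∑ i : J, (if hi : (i : I) ∈ J then n ⟨i, hi⟩ else 0) • S' i :=
          (Finset.sum_coe_sort J (fun i => (if hi : i ∈ J then n ⟨i, hi⟩ else 0) • S' i)).symm
      _ = ∑ i : J, n i • S i := by
          apply Finset.sum_congr rfl
          intro i _
          rw [dif_pos i.2, hS'2 i i.2])
  intro i
  have := h1 i
  simp only [i.2, dif_pos] at this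
  exact this

/-- the reduction of a rational point -/
lemma exists_red {p : ℕ} [Fact p.Prime] (hp2 : p ≠ 2) (a : ℤ) (ha : ¬ IsSquare (-(a : ZMod p)))
    (P : (EF (a : ℚ) 0).Point) (X Y : ℚ) (h : AtF P X Y) (hX : ¬ p ∣ X.den) (hY : ¬ p ∣ Y.den) :
    ∃ P' : (EF (a : ZMod p) 0).Point, AtF P' (X : ZMod p) (Y : ZMod p) ∧ Reduces a p P P' := by
  have h2p : (2 : ZMod p) ≠ 0 := by
    apply Ring.two_ne_zero
    rw [ZMod.ringChar_zmod_n]
    exact hp2
  have ha0 : (a : ZMod p) ≠ 0 := by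
    intro h0
    apply ha
    rw [h0, neg_zero]
    exact IsSquare.zero
  have heq := h.eqn
  have hXd : ((X.den : ℕ) : ZMod p) ≠ 0 := by rwa [Ne, ZMod.natCast_eq_zero_iff]
  have hYd : ((Y.den : ℕ) : ZMod p) ≠ 0 := by rwa [Ne, ZMod.natCast_eq_zero_iff]
  have hXq : ((X.den : ℕ) : ℚ) ≠ 0 := by exact_mod_cast X.den_ne_zero
  have hYq : ((Y.den : ℕ) : ℚ) ≠ 0 := by exact_mod_cast Y.den_ne_zero
  have e1 : (Y.num : ℚ) ^ 2 * (X.den : ℚ) ^ 3 =
      (Y.den : ℚ) ^ 2 * ((X.num : ℚ) ^ 3 + a * X.num * (X.den : ℚ) ^ 2) := by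
    have hx := Rat.num_div_den X
    have hy := Rat.num_div_den Y
    rw [← hx, ← hy] at heq
    field_simp at heq
    linear_combination heq
  have e2 : (Y.num : ℤ) ^ 2 * (X.den : ℤ) ^ 3 =
      (Y.den : ℤ) ^ 2 * ((X.num : ℤ) ^ 3 + a * X.num * (X.den : ℤ) ^ 2) := by
    exact_mod_cast e1
  have e3 : (Y.num : ZMod p) ^ 2 * (X.den : ZMod p) ^ 3 =
      (Y.den : ZMod p) ^ 2 * ((X.num : ZMod p) ^ 3 + a * X.num * (X.den : ZMod p) ^ 2) := by
    exact_mod_cast congrArg (fun z : ℤ => (z : ZMod p)) e2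
  have e4 : ((Y : ℚ) : ZMod p) ^ 2 = (X : ZMod p) ^ 3 + a * (X : ZMod p) + 0 := by
    rw [Rat.cast_def X, Rat.cast_def Y]
    field_simp
    linear_combination e3
  have hns : (EF (a : ZMod p) 0).Nonsingular (X : ZMod p) (Y : ZMod p) := by
    apply nonsing_of _ _ e4
    by_contra hcon
    push Not at hcon
    obtain ⟨h5, h6⟩ := hcon
    have hy : ((Y : ℚ) : ZMod p) = 0 := (mul_eq_zero.mp h5).resolve_left h2p
    rw [hy] at e4
    have h7 : (X : ZMod p) * ((X : ZMod p) ^ 2 + a) = 0 := by linear_combination -e4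
    rcases mul_eq_zero.mp h7 with h8 | h8
    · rw [h8] at h6
      apply ha0
      linear_combination h6
    · apply ha
      exact ⟨(X : ZMod p), by linear_combination -h8⟩
  exact ⟨.some _ _ hns, ⟨hns, rfl⟩, Or.inr ⟨X, Y, h, Or.inr ⟨hX, ⟨hns, rfl⟩⟩⟩⟩

/-- the dichotomy for one special prime -/
theorem cover_one (hG : Grp) {I : Type} [Fintype I] (a : I → ℤ)
    (P : ∀ i, (EF (a i : ℚ) 0).Point) (X Y : I → ℚ) (hXY : ∀ i, AtF (P i) (X i) (Y i))
    {α x : ℝ} (hα : 0 < α) (hx : 2 < x) (k0 r0 : ℕ) (hk0 : 0 < k0) (hr0 : ⌊2 / α⌋₊ < r0)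
    (T : Finset I) {p : ℕ} (hp : p.Prime) (hpx : (p : ℝ) ≤ x) (h4 : p % 4 = 3)
    (hdX : ∀ i, ¬ p ∣ (X i).den) (hdY : ∀ i, ¬ p ∣ (Y i).den)
    (hT : ∀ i ∈ T, ¬ IsSquare ((-(a i) : ℤ) : ZMod p) ∧
      ¬ IsSquare (((X i).num * (X i).den : ℤ) : ZMod p))
    (hr : ∀ r : ℕ, r.Prime → r ∣ p + 1 → r = 2 ∨ x ^ α < (r : ℝ))
    (hsq : ∀ r : ℕ, r.Prime → r ∣ p + 1 → r = 2 ∨ ¬ r ^ 2 ∣ p + 1) :
    T.card ≤ {i : I | Primitive (a i) (P i) p}.ncard + r0 * k0 ∨
      ∃ J ⊆ T, J.card = k0 ∧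
        Small (fun i : J => a i) (fun i : J => P i) p (2 * x ^ (1 - α)) := by
  classical
  have hF : Fact p.Prime := ⟨hp⟩
  have hp2 : p ≠ 2 := by omega
  have hns : ∀ i ∈ T, ¬ IsSquare (-(a i : ZMod p)) := by
    intro i hi h
    apply (hT i hi).1
    push_cast
    exact h
  have hex : ∀ i ∈ T, ∃ P' : (EF (a i : ZMod p) 0).Point,
      AtF P' (X i : ZMod p) (Y i : ZMod p) ∧ Reduces (a i) p (P i) P' := fun i hi =>
    exists_red hp2 (a i) (hns i hi) (P i) (X i) (Y i) (hXY i) (hdX i) (hdY i)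
  have hXns : ∀ i ∈ T, ¬ IsSquare ((X i : ℚ) : ZMod p) := by
    intro i hi hs
    apply (hT i hi).2
    obtain ⟨s, hs⟩ := hs
    have hXd : (((X i).den : ℕ) : ZMod p) ≠ 0 := by
      rw [Ne, ZMod.natCast_eq_zero_iff]
      exact hdX i
    refine ⟨s * (X i).den, ?_⟩
    have h1 : ((X i : ℚ) : ZMod p) * (X i).den = (X i).num := by
      rw [Rat.cast_def (X i)]
      field_simp
    push_cast
    rw [← h1, hs]
    ring
  -- the indices in `T` which are not primitive
  set N : Finset I := T.filter (fun i => ¬ Primitive (a i) (P i) p) with hN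
  have hq : ∀ i ∈ N, ∃ q : ℕ, q.Prime ∧ q ≠ 2 ∧ q ∣ p + 1 ∧
      ∃ P' : (EF (a i : ZMod p) 0).Point, Reduces (a i) p (P i) P' ∧ ((p + 1) / q) • P' = 0 := by
    intro i hi
    obtain ⟨hiT, hiP⟩ := Finset.mem_filter.1 hi
    obtain ⟨P', hP'1, hP'2⟩ := hex i hiT
    have hgen : ¬ ∀ R, R ∈ AddSubgroup.zmultiples P' := by
      intro hgen
      apply hiP
      refine ⟨hF, ?_, P', hP'2, hgen⟩
      intro hdvd
      have h1 : ((2 * a i : ℤ) : ZMod p) = 0 := by
        rw [ZMod.intCast_zmod_eq_zero_iff_dvd]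
        exact hdvd
      push_cast at h1
      rcases mul_eq_zero.1 h1 with h2 | h2
      · apply Ring.two_ne_zero (R := ZMod p) _ h2
        rw [ZMod.ringChar_zmod_n]
        exact hp2
      · apply hns i hiT
        rw [h2, neg_zero]
        exact IsSquare.zero
    obtain ⟨q, hq1, hq2, hq3, hq4⟩ :=
      (hG p h4 hsq (a i : ZMod p) (hns i hiT)).2 P' _ _ hP'1 (hXns i hiT) hgen
    exact ⟨q, hq1, hq2, hq3, P', hP'2, hq4⟩
  by_cases hNc : N.card < r0 * k0
  · left
    have h1 : T.card ≤ (T.filter (fun i => Primitive (a i) (P i) p)).card + N.card := by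
      rw [hN, Finset.card_filter_add_card_filter_not]
    have h2 : (T.filter (fun i => Primitive (a i) (P i) p)).card ≤
        {i : I | Primitive (a i) (P i) p}.ncard := by
      rw [← Set.ncard_coe_finset]
      apply Set.ncard_le_ncard _ (Set.toFinite _)
      intro i hi
      exact (Finset.mem_filter.1 (Finset.mem_coe.1 hi)).2
    omega
  · right
    push Not at hNc
    -- the prime attached to an index
    have hq' : ∀ i : I, ∃ q : ℕ, i ∈ N → (q.Prime ∧ q ≠ 2 ∧ q ∣ p + 1 ∧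
      ∃ P' : (EF (a i : ZMod p) 0).Point, Reduces (a i) p (P i) P' ∧
        ((p + 1) / q) • P' = 0) := by
      intro i
      by_cases hi : i ∈ N
      · obtain ⟨q, h⟩ := hq i hi
        exact ⟨q, fun _ => h⟩
      · exact ⟨0, fun h => absurd h hi⟩
    choose qf hqf using hq'
    set R : Finset ℕ := N.image qf with hR
    have hx1 : 1 < x := by linarith
    have hx0 : 0 < x := by linarith
    have hRl : ∀ r ∈ R, r.Prime ∧ r ∣ p + 1 ∧ x ^ α < (r : ℝ) := by
      intro r hr'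
      obtain ⟨i, hi, rfl⟩ := Finset.mem_image.1 hr'
      obtain ⟨h1, h2, h3, -⟩ := hqf i hi
      exact ⟨h1, h3, (hr _ h1 h3).resolve_left h2⟩
    have hRcard : R.card ≤ ⌊2 / α⌋₊ := by
      have h1 := card_large (α := α / 2) (x := x ^ 2) (by linarith) (by nlinarith) (n := p + 1)
        (by omega) (by push_cast; nlinarith) R (by
          intro r hr'
          obtain ⟨h1, h2, h3⟩ := hRl r hr'
          refine ⟨h1, h2, ?_⟩
          have : (x ^ 2) ^ (α / 2) = x ^ α := by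
            rw [← Real.rpow_natCast, ← Real.rpow_mul hx0.le]
            congr 1
            push_cast
            ring
          rw [this]
          exact h3)
      have : 1 / (α / 2) = 2 / α := by field_simp
      rw [this] at h1
      exact h1
    have hNne : N.Nonempty := by
      rw [← Finset.card_pos]
      have : 0 < r0 * k0 := Nat.mul_pos (by omega) hk0
      omega
    obtain ⟨r, hrR, hcard⟩ := Finset.exists_le_card_fiber_of_mul_le_card_of_maps_to
      (s := N) (t := R) (f := qf) (n := k0)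
      (fun i hi => Finset.mem_image_of_mem qf hi) (hNne.image qf)
      ((Nat.mul_le_mul_right k0 (by omega)).trans hNc)
    obtain ⟨J, hJ, hJc⟩ := Finset.exists_subset_card_eq hcard
    have hJN : ∀ i ∈ J, i ∈ N ∧ qf i = r := fun i hi => Finset.mem_filter.1 (hJ hi)
    obtain ⟨hr1, hr2, hr3⟩ := hRl r hrR
    refine ⟨J, fun i hi => (Finset.mem_filter.1 (hJN i hi).1).1, hJc, hF, h4, hsq, ?_,
      (p + 1) / r, Nat.div_pos (Nat.le_of_dvd (by omega) hr2) hr1.pos, ?_, ?_⟩
    · intro i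
      exact hns i (Finset.mem_filter.1 (hJN i i.2).1).1
    · have h2 : 0 < x ^ α := Real.rpow_pos_of_pos hx0 _
      calc (((p + 1) / r : ℕ) : ℝ) ≤ ((p + 1 : ℕ) : ℝ) / r := Nat.cast_div_le
        _ ≤ (2 * x) / x ^ α := by
            apply div_le_div₀ (by linarith) _ h2 hr3.le
            push_cast
            linarith
        _ = 2 * x ^ (1 - α) := by
            rw [Real.rpow_sub hx0, Real.rpow_one]
            ring
    · intro i
      obtain ⟨-, -, -, P', h5, h6⟩ := hqf i (hJN i i.2).1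
      rw [(hJN i i.2).2] at h6
      exact ⟨P', h5, h6⟩

end Pool.Agent.Helper63.LT
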