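import Pool.Agent.Helper10.SSCurve

/-!
# Project LT (MP_9b1c99_nt): primitive points on the curves `y² = x³ + a x`

Definitions used in the final statement.
-/

set_option autoImplicit false

namespace Pool.Agent.Helper63.LT

open WeierstrassCurve Pool.Agent.Helper10.SS

/-- The point `P` of `y² = x³ + a x` over the rationals reduces to the point `Q` modulo the
prime `p`. -/
def Reduces (a : ℤ) (p : ℕ) [Fact p.Prime] (P : (EF (a : ℚ) 0).Point)
    (Q : (EF (a : ZMod p) 0).Point) : Prop :=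
  (P = 0 ∧ Q = 0) ∨ ∃ x y : ℚ, AtF P x y ∧
    ((p ∣ x.den ∧ Q = 0) ∨ (¬ p ∣ x.den ∧ AtF Q (x : ZMod p) (y : ZMod p)))

/-- `p` is a prime of good reduction of `y² = x³ + a x` and the reduction of the point `P`
modulo `p` generates the group of points over `ZMod p`. -/
def Primitive (a : ℤ) (P : (EF (a : ℚ) 0).Point) (p : ℕ) : Prop :=
  ∃ _ : Fact p.Prime, ¬ (p : ℤ) ∣ 2 * a ∧ ∃ Q : (EF (a : ZMod p) 0).Point,
    Reduces a p P Q ∧ ∀ R, R ∈ AddSubgroup.zmultiples Q

end Pool.Agent.Helper63.LT
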