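import Pool.Agent.Helper63.LT.Adm

/-!
# Project LT: the exceptional points have bounded total rank
-/

set_option autoImplicit false

namespace Pool.Agent.Helper63.LT

open WeierstrassCurve Pool.Agent.Helper10.SS

/-- The main theorem for admissible points, with the constant `C`. -/
def MainA (C : ℕ) : Prop :=
  ∀ (m : ℕ) (a : Fin m → ℤ) (k : Fin m → ℕ) (P : ∀ i, Fin (k i) → (EF (a i : ℚ) 0).Point),
    Inequivalent a → (∀ i, LinearIndependent ℤ (P i)) → (∀ i j, Admissible (a i) (P i j)) →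
    ∃ c : ℝ, 0 < c ∧ ∀ z0 : ℝ, ∃ z : ℝ, z0 ≤ z ∧
      c * z / Real.log z ^ 2 ≤ ({p : ℕ | p.Prime ∧ (p : ℝ) ≤ z ∧ ∑ i, k i ≤
        4 * {ij : Σ i, Fin (k i) | Primitive (a ij.1) (P ij.1 ij.2) p}.ncard + C}.ncard : ℝ)

lemma mainA (h : MainSt) : ∃ C, MainA C := by
  classical
  obtain ⟨C, hC⟩ := h
  refine ⟨C, ?_⟩
  intro m a k P hne hli hadm
  -- the indices with points
  set m' : ℕ := Fintype.card {i : Fin m // 0 < k i} with hm'
  let e : Fin m' ≃ {i : Fin m // 0 < k i} := (Fintype.equivFin _).symm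
  obtain ⟨c, hc, hmain⟩ := hC m' (fun i => a (e i).1) (fun i => k (e i).1)
    (fun i => P (e i).1) (by
      intro i j hij r
      refine hne _ _ ?_ r
      intro h0
      exact hij (e.injective (Subtype.ext h0))) (fun i => hli _) (by
      intro i r
      obtain ⟨-, x, y, -, hxy⟩ := hadm (e i).1 ⟨0, (e i).2⟩
      exact (hxy r).1) (by
      intro i j x y hA r
      obtain ⟨-, x', y', hA', hxy⟩ := hadm (e i).1 j
      obtain ⟨rfl, -⟩ := hA.unique hA'
      exact ⟨(hxy r).2.1.1, (hxy r).2.1.2, (hxy r).2.2.1, (hxy r).2.2.2⟩)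
  refine ⟨c, hc, fun z0 => ?_⟩
  obtain ⟨z, hz0, hz⟩ := hmain z0
  refine ⟨z, hz0, hz.trans ?_⟩
  have hsum : ∑ i, k i = ∑ i : Fin m', k (e i).1 := by
    rw [e.sum_comp (fun i : {i : Fin m // 0 < k i} => k i.1)]
    rw [← Finset.sum_subtype (Finset.univ.filter fun i => 0 < k i) (by simp) k]
    symm
    apply Finset.sum_subset (Finset.filter_subset _ _)
    intro i _ hi
    simpa using hi
  have hfin : {p : ℕ | p.Prime ∧ (p : ℝ) ≤ z ∧ ∑ i, k i ≤
        4 * {ij : Σ i, Fin (k i) | Primitive (a ij.1) (P ij.1 ij.2) p}.ncard + C}.Finite := by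
    apply (Set.finite_Iic (⌊z⌋₊)).subset
    rintro p ⟨-, hp, -⟩
    exact Nat.le_floor hp
  norm_cast
  apply Set.ncard_le_ncard _ hfin
  rintro p ⟨hp, hpz, hp2⟩
  refine ⟨hp, hpz, ?_⟩
  rw [hsum]
  refine hp2.trans ?_
  have hle : {ij : Σ i, Fin (k (e i).1) | Primitive (a (e ij.1).1) (P (e ij.1).1 ij.2) p}.ncard ≤
      {ij : Σ i, Fin (k i) | Primitive (a ij.1) (P ij.1 ij.2) p}.ncard := by
    apply Set.ncard_le_ncard_of_injOn
      (fun ij : (Σ i, Fin (k (e i).1)) => (⟨(e ij.1).1, ij.2⟩ : Σ i, Fin (k i)))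
    · rintro ⟨i, j⟩ hij
      exact hij
    · rintro ⟨i, j⟩ - ⟨i', j'⟩ - h0
      simp only [Sigma.mk.injEq] at h0
      obtain ⟨h1, h2⟩ := h0
      have h3 : i = i' := e.injective (Subtype.ext h1)
      subst h3
      simpa using h2
  omega

/-- Independent exceptional points on inequivalent curves: at most `C` of them in all. -/
lemma exceptional {C : ℕ} (h : MainA C) (m : ℕ) (a : Fin m → ℤ) (k : Fin m → ℕ)
    (P : ∀ i, Fin (k i) → (EF (a i : ℚ) 0).Point) (hne : Inequivalent a)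
    (hli : ∀ i, LinearIndependent ℤ (P i)) (hadm : ∀ i j, Admissible (a i) (P i j))
    (hbad : ∀ i j, ¬ Good (a i) (P i j)) : ∑ i, k i ≤ C := by
  classical
  by_contra hcon
  rw [not_le] at hcon
  obtain ⟨c, hc, hmain⟩ := h m a k P hne hli hadm
  set N : ℕ := Fintype.card (Σ i, Fin (k i)) with hN
  have hNk : N = ∑ i, k i := by
    rw [hN, Fintype.card_sigma]
    simp
  have hN0 : 0 < N := by omega
  have hz : ∀ ij : (Σ i, Fin (k i)), ∃ z0 : ℝ, ∀ z : ℝ, z0 ≤ z →
      ({p : ℕ | (p : ℝ) ≤ z ∧ Primitive (a ij.1) (P ij.1 ij.2) p}.ncard : ℝ) <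
        c / N * z / Real.log z ^ 2 := by
    rintro ⟨i, j⟩
    have := hbad i j
    unfold Good at this
    push Not at this
    exact this (c / N) (by positivity)
  choose z0 hz0 using hz
  obtain ⟨Z, hZ⟩ := (Set.finite_range z0).bddAbove
  obtain ⟨z, hzZ, hz1⟩ := hmain Z
  have hz2 : ∀ i, z0 i ≤ z := fun i => (hZ ⟨i, rfl⟩).trans hzZ
  have hsub : {p : ℕ | p.Prime ∧ (p : ℝ) ≤ z ∧ ∑ i, k i ≤
        4 * {ij : Σ i, Fin (k i) | Primitive (a ij.1) (P ij.1 ij.2) p}.ncard + C} ⊆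
      ⋃ ij ∈ (Finset.univ : Finset (Σ i, Fin (k i))),
        {p : ℕ | (p : ℝ) ≤ z ∧ Primitive (a ij.1) (P ij.1 ij.2) p} := by
    rintro p ⟨-, hpz, hp⟩
    have h1 : 0 < {ij : Σ i, Fin (k i) | Primitive (a ij.1) (P ij.1 ij.2) p}.ncard := by omega
    obtain ⟨ij, hij⟩ := Set.nonempty_of_ncard_ne_zero (Nat.pos_iff_ne_zero.mp h1)
    simp only [Set.mem_iUnion]
    exact ⟨ij, Finset.mem_univ _, hpz, hij⟩
  have hfin : ∀ ij : (Σ i, Fin (k i)),
      {p : ℕ | (p : ℝ) ≤ z ∧ Primitive (a ij.1) (P ij.1 ij.2) p}.Finite := by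
    intro ij
    apply (Set.finite_Iic (⌊z⌋₊)).subset
    rintro p ⟨hp, -⟩
    exact Nat.le_floor hp
  have hle : ({p : ℕ | p.Prime ∧ (p : ℝ) ≤ z ∧ ∑ i, k i ≤
        4 * {ij : Σ i, Fin (k i) | Primitive (a ij.1) (P ij.1 ij.2) p}.ncard + C}.ncard : ℝ) ≤
      ∑ ij : (Σ i, Fin (k i)),
        ({p : ℕ | (p : ℝ) ≤ z ∧ Primitive (a ij.1) (P ij.1 ij.2) p}.ncard : ℝ) := by
    have h1 := Set.ncard_le_ncard hsub (Set.Finite.biUnion (Finset.finite_toSet _)
      (fun i _ => hfin i))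
    have h2 := Finset.set_ncard_biUnion_le (Finset.univ : Finset (Σ i, Fin (k i)))
      (fun ij => {p : ℕ | (p : ℝ) ≤ z ∧ Primitive (a ij.1) (P ij.1 ij.2) p})
    exact_mod_cast h1.trans h2
  have hne' : (Finset.univ : Finset (Σ i, Fin (k i))).Nonempty := by
    rw [Finset.univ_nonempty_iff]
    exact Fintype.card_pos_iff.mp hN0
  have hlt : ∑ ij : (Σ i, Fin (k i)),
      ({p : ℕ | (p : ℝ) ≤ z ∧ Primitive (a ij.1) (P ij.1 ij.2) p}.ncard : ℝ) <
      ∑ _ij : (Σ i, Fin (k i)), c / N * z / Real.log z ^ 2 := by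
    apply Finset.sum_lt_sum_of_nonempty hne'
    intro i _
    exact hz0 i z (hz2 i)
  rw [Finset.sum_const, Finset.card_univ, ← hN, nsmul_eq_mul] at hlt
  have heq : (N : ℝ) * (c / N * z / Real.log z ^ 2) = c * z / Real.log z ^ 2 := by
    have : (N : ℝ) ≠ 0 := by exact_mod_cast hN0.ne'
    field_simp
  rw [heq] at hlt
  exact absurd (hz1.trans hle) (not_le.mpr hlt)

/-- A point of infinite order is independent. -/
lemma indep_one {a : ℤ} (P : (EF (a : ℚ) 0).Point) (h : ∀ n : ℤ, n • P = 0 → n = 0) :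
    LinearIndependent ℤ (fun _ : Fin 1 => P) := by
  rw [Fintype.linearIndependent_iff]
  intro g hg j
  rw [Fin.sum_univ_one] at hg
  rw [Subsingleton.elim j 0]
  exact h _ hg

/-- At most `C` of a set of pairwise inequivalent curves have an exceptional point. -/
lemma curves {C : ℕ} (h : MainA C) (A : Set ℤ) (hA : Inequivalent (fun a : A => (a : ℤ))) :
    {a ∈ A | ∃ P, Admissible a P ∧ ¬ Good a P}.encard ≤ C := by
  classical
  by_contra hcon
  rw [not_le] at hcon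
  set S : Set ℤ := {a ∈ A | ∃ P, Admissible a P ∧ ¬ Good a P} with hS
  have hcon' : ((C + 1 : ℕ) : ℕ∞) ≤ S.encard := by
    have := Order.add_one_le_of_lt hcon
    exact_mod_cast this
  obtain ⟨t, hts, htc⟩ := Set.exists_subset_encard_eq hcon'
  have htf : t.Finite := Set.finite_of_encard_eq_coe htc
  have hcard : htf.toFinset.card = C + 1 := by
    rw [Set.Finite.encard_eq_coe_toFinset_card htf] at htc
    exact_mod_cast htc
  set e := htf.toFinset.equivFinOfCardEq hcard with he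
  set f : Fin (C + 1) → ℤ := fun i => ((e.symm i : htf.toFinset) : ℤ) with hf
  have hfinj : Function.Injective f := by
    intro i j hij
    exact e.symm.injective (Subtype.ext hij)
  have hfS : ∀ i, f i ∈ S := by
    intro i
    apply hts
    exact htf.mem_toFinset.mp (e.symm i).2
  choose hfA P hP1 hP2 using hfS
  have := exceptional h (C + 1) f (fun _ => 1) (fun i _ => P i)
    (by
      intro i j hij r
      exact hA ⟨f i, hfA i⟩ ⟨f j, hfA j⟩ (fun h0 => hij (hfinj (congrArg (fun b : A => (b : ℤ)) h0))) r)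
    (fun i => indep_one _ (hP1 i).1) (fun i _ => hP1 i) (fun i _ => hP2 i)
  simp at this

end Pool.Agent.Helper63.LT
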