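import Pool.Agent.Helper63.LT.St

/-!
# Project LT, module LT-13: the family `(-1, n)` on `y² = x³ - (n² + 1) x`

`MainSt → Family`, with the same `C`. If the set has more than `C` elements choose a subset with
`m = C + 1` elements `n_1, .., n_m` (as `Fin m → ℕ`, injective), `a i = -(n_i² + 1)`, `k i = 1`,
`P i _ = pt n_i`.
(1) Not equivalent: `-(n² + 1) = r⁴ · (-(m² + 1))`, `r = s / t` in lowest terms: `t⁴ (n² + 1) =
s⁴ (m² + 1)`, so `s⁴ ∣ n² + 1`, `t⁴ ∣ m² + 1`; as no fourth power of a prime divides them `|s| = t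
= 1`, `n = m`. `-(n² + 1) = -4 r⁴ · (-(m² + 1))` is impossible: negative and positive.
(2) `n² + 1 ≠ -3 r²` by sign, and `n² + 1 = r²` is impossible for `n ≥ 1` (`r` would be an integer
between `n` and `n + 1`); `x = -1 ≠ r²`, `-1 ≠ -3 r²` (`r² = 1/3`), `a x = n² + 1` again.
(3) `pt n` has infinite order (so it is linearly independent over `ℤ`): `x(2 P) = ((n² + 2) /
(2 n))²` has 2-adic valuation `≤ -2` (for `n` odd the numerator is odd; for `n` even `n² + 2` is `2`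
mod `4` and `4 ∣ 2 n`); and if `v₂(x(R)) ≤ -2` for a point `R` then `v₂(x(2 R)) < v₂(x(R))`:
`x(2 R) = (x² - a)² / (4 (x³ + a x))`, valuation `4 v - (2 + 3 v) = v - 2` (`a` is an integer). So
all `2^j P`, `j ≥ 1`, have different x-coordinates (and are not `0`), hence `P` has infinite order.
(4) `MainSt` gives `c > 0`; each `n_i` is exceptional: for the constant `c / m` there is `z_i` such
that for `z ≥ z_i` the number of `p ≤ z` with `Primitive` is `< (c / m) z / log² z`. For `z` as in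
`MainSt`, `z ≥ max z_i`, `z ≥ 2`: every `p` in the set of `MainSt` has `m ≤ 4 (number of i with
Primitive) + C`, `m = C + 1`, so some `i` is primitive; the set is contained in the union, so its
cardinality is `< c z / log² z`, contradiction.
-/

set_option autoImplicit false

namespace Pool.Agent.Helper63.LT

open WeierstrassCurve Pool.Agent.Helper10.SS

private lemma ratint (r : ℚ) (k : ℤ) (h : (k : ℚ) = r ^ 2) : ∃ l : ℤ, k = l ^ 2 := by
  have h2 : (r ^ 2).den = 1 := by rw [← h]; exact Rat.den_intCast k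
  rw [Rat.den_pow] at h2
  have h3 : r.den = 1 := by
    rcases Nat.pow_eq_one.mp h2 with h4 | h4
    · exact h4
    · omega
  have h4 : (r.num : ℚ) = r := (Rat.den_eq_one_iff r).mp h3
  refine ⟨r.num, ?_⟩
  rw [← h4] at h
  exact_mod_cast h

lemma nsq (n : ℤ) (hn : n ≠ 0) (r : ℚ) : ((n ^ 2 + 1 : ℤ) : ℚ) ≠ r ^ 2 := by
  intro h
  obtain ⟨l, hl⟩ := ratint r _ h
  have h0 : |n| < |l| := sq_lt_sq.mp (by omega)
  have h1 : |l| ^ 2 = l ^ 2 := sq_abs l
  have h1' : |n| ^ 2 = n ^ 2 := sq_abs n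
  have h2 : 1 ≤ |n| := Int.one_le_abs hn
  have h3 : |n| + 1 ≤ |l| := h0
  nlinarith

lemma npos (n : ℤ) (r : ℚ) : ((n ^ 2 + 1 : ℤ) : ℚ) ≠ -3 * r ^ 2 := by
  intro h
  have h1 : (0 : ℚ) < ((n ^ 2 + 1 : ℤ) : ℚ) := by
    have : (0 : ℤ) < n ^ 2 + 1 := by positivity
    exact_mod_cast this
  nlinarith [sq_nonneg r]

lemma third (r : ℚ) : (-1 : ℚ) ≠ -3 * r ^ 2 := by
  intro h
  have h1 : ((3 : ℤ) : ℚ) = (3 * r) ^ 2 := by push_cast; nlinarith
  obtain ⟨l, hl⟩ := ratint _ _ h1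
  have h2 : |l| ^ 2 = l ^ 2 := sq_abs l
  have h3 : 0 ≤ |l| := abs_nonneg l
  have h4 : |l| < 2 := by nlinarith
  have h5 : |l| = 0 ∨ |l| = 1 := by omega
  rcases h5 with h5 | h5 <;> rw [h5] at h2 <;> omega

private lemma one_of_pow4 (s : ℕ) (N : ℕ) (hs : s ^ 4 ∣ N) (hN : N ≠ 0)
    (h : ∀ q : ℕ, q.Prime → ¬ q ^ 4 ∣ N) : s = 1 := by
  by_contra h1
  obtain ⟨q, hq, hqs⟩ := Nat.exists_prime_and_dvd h1
  exact h q hq ((pow_dvd_pow_of_dvd hqs 4).trans hs)

lemma inj4 (n m : ℕ) (hn : ∀ q : ℕ, q.Prime → ¬ q ^ 4 ∣ n ^ 2 + 1)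
    (hm : ∀ q : ℕ, q.Prime → ¬ q ^ 4 ∣ m ^ 2 + 1) (r : ℚ)
    (h : ((n : ℚ) ^ 2 + 1) = r ^ 4 * ((m : ℚ) ^ 2 + 1)) : n = m := by
  have hd : (r.den : ℚ) ≠ 0 := by exact_mod_cast r.den_ne_zero
  have hr : r = r.num / r.den := (Rat.num_div_den r).symm
  have h1 : (r.den : ℚ) ^ 4 * ((n : ℚ) ^ 2 + 1) = (r.num : ℚ) ^ 4 * ((m : ℚ) ^ 2 + 1) := by
    rw [h]
    nth_rewrite 2 [hr]
    field_simp
  have h2 : (r.den : ℤ) ^ 4 * ((n : ℤ) ^ 2 + 1) = (r.num : ℤ) ^ 4 * ((m : ℤ) ^ 2 + 1) := by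
    exact_mod_cast h1
  have h3 : r.den ^ 4 * (n ^ 2 + 1) = r.num.natAbs ^ 4 * (m ^ 2 + 1) := by
    have := congrArg Int.natAbs h2
    rw [Int.natAbs_mul, Int.natAbs_mul, Int.natAbs_pow, Int.natAbs_pow] at this
    have e1 : ((n : ℤ) ^ 2 + 1).natAbs = n ^ 2 + 1 := by
      have : ((n : ℤ) ^ 2 + 1) = ((n ^ 2 + 1 : ℕ) : ℤ) := by push_cast; rfl
      rw [this, Int.natAbs_natCast]
    have e2 : ((m : ℤ) ^ 2 + 1).natAbs = m ^ 2 + 1 := by
      have : ((m : ℤ) ^ 2 + 1) = ((m ^ 2 + 1 : ℕ) : ℤ) := by push_cast; rfl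
      rw [this, Int.natAbs_natCast]
    rw [e1, e2, Int.natAbs_natCast] at this
    exact this
  have hc : Nat.Coprime r.num.natAbs r.den := r.reduced
  have h4 : r.num.natAbs = 1 := by
    apply one_of_pow4 _ (n ^ 2 + 1) _ (by omega) hn
    have : r.num.natAbs ^ 4 ∣ r.den ^ 4 * (n ^ 2 + 1) := by rw [h3]; exact dvd_mul_right _ _
    exact (Nat.Coprime.pow 4 4 hc).dvd_of_dvd_mul_left this
  have h5 : r.den = 1 := by
    apply one_of_pow4 _ (m ^ 2 + 1) _ (by omega) hm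
    have : r.den ^ 4 ∣ r.num.natAbs ^ 4 * (m ^ 2 + 1) := by rw [← h3]; exact dvd_mul_right _ _
    exact (Nat.Coprime.pow 4 4 hc.symm).dvd_of_dvd_mul_left this
  rw [h4, h5] at h3
  have h6 : n ^ 2 = m ^ 2 := by omega
  exact Nat.pow_left_injective (by norm_num : 2 ≠ 0) h6

private lemma pn_int (a : ℤ) : padicNorm 2 (a : ℚ) ≤ 1 := padicNorm.of_int a

private lemma pn_step (a : ℤ) (x y : ℚ) (he : y ^ 2 = x ^ 3 + (a : ℚ) * x + 0)
    (hx : 4 ≤ padicNorm 2 x) : 2 * y ≠ 0 ∧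
    padicNorm 2 (((3 * x ^ 2 + (a : ℚ)) / (2 * y)) ^ 2 - x - x) = 4 * padicNorm 2 x := by
  set N := padicNorm 2 x with hN
  have hx0 : x ≠ 0 := by
    intro h0
    rw [h0] at hN
    rw [padicNorm.zero] at hN
    linarith
  have ha : padicNorm 2 (a : ℚ) ≤ 1 := pn_int a
  have hx2 : padicNorm 2 (x ^ 2) = N ^ 2 := by rw [sq, padicNorm.mul, ← hN]; ring
  have hplus : padicNorm 2 (x ^ 2 + a) = N ^ 2 := by
    rw [padicNorm.add_eq_max_of_ne, hx2, max_eq_left]
    · nlinarith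
    · rw [hx2]; intro h0; nlinarith
  have hminus : padicNorm 2 (x ^ 2 - a) = N ^ 2 := by
    have : x ^ 2 - (a : ℚ) = x ^ 2 + (-(a : ℚ)) := by ring
    rw [this, padicNorm.add_eq_max_of_ne, hx2, padicNorm.neg, max_eq_left]
    · nlinarith
    · rw [hx2, padicNorm.neg]; intro h0; nlinarith
  have hy2 : padicNorm 2 (y ^ 2) = N ^ 3 := by
    have : y ^ 2 = x * (x ^ 2 + a) := by rw [he]; ring
    rw [this, padicNorm.mul, hplus, ← hN]; ring
  have hy0 : y ≠ 0 := by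
    intro h0
    rw [h0] at hy2
    have : padicNorm 2 ((0 : ℚ) ^ 2) = 0 := by norm_num
    rw [this] at hy2
    have : 0 < N ^ 3 := by positivity
    linarith
  refine ⟨by simpa using hy0, ?_⟩
  have e : ((3 * x ^ 2 + (a : ℚ)) / (2 * y)) ^ 2 - x - x = (x ^ 2 - a) ^ 2 / (2 ^ 2 * y ^ 2) := by
    field_simp
    rw [he]
    ring
  rw [e, padicNorm.div, padicNorm.mul, hy2, sq (x ^ 2 - (a : ℚ)), padicNorm.mul, hminus,
    sq (2 : ℚ), padicNorm.mul]
  have h2 : padicNorm 2 (2 : ℚ) = 1 / 2 := by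
    have := padicNorm.padicNorm_p (p := 2) (by norm_num)
    simpa using this
  rw [h2]
  have : N ≠ 0 := by
    intro h0; linarith
  field_simp
  norm_num

private lemma pnsq (q : ℚ) : padicNorm 2 (q ^ 2) = padicNorm 2 q ^ 2 := by
  rw [sq, padicNorm.mul, ← sq]

private lemma pn_first (n : ℤ) (hn : n ≠ 0) :
    4 ≤ padicNorm 2 (((3 * (-1) ^ 2 + ((-(n ^ 2 + 1) : ℤ) : ℚ)) / (2 * (n : ℚ))) ^ 2 - (-1) - (-1)) := by
  have hn' : (n : ℚ) ≠ 0 := by exact_mod_cast hn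
  have e : ((3 * (-1) ^ 2 + ((-(n ^ 2 + 1) : ℤ) : ℚ)) / (2 * (n : ℚ))) ^ 2 - (-1) - (-1) =
      ((n ^ 2 + 2 : ℤ) : ℚ) ^ 2 / (2 ^ 2 * (n : ℚ) ^ 2) := by
    push_cast
    field_simp
    ring
  have h2 : padicNorm 2 (2 : ℚ) = 1 / 2 := by
    have := padicNorm.padicNorm_p (p := 2) (by norm_num)
    simpa using this
  rw [e, padicNorm.div, padicNorm.mul, pnsq, pnsq, pnsq, h2]
  have hN0 : padicNorm 2 (n : ℚ) ≠ 0 := padicNorm.nonzero hn'
  have hN1 : 0 < padicNorm 2 (n : ℚ) := lt_of_le_of_ne (padicNorm.nonneg _) (Ne.symm hN0)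
  rcases Int.even_or_odd n with he | ho
  · obtain ⟨m, hm⟩ := he
    have h4 : padicNorm 2 ((n ^ 2 + 2 : ℤ) : ℚ) = 1 / 2 := by
      have : ((n ^ 2 + 2 : ℤ) : ℚ) = 2 * ((2 * m ^ 2 + 1 : ℤ) : ℚ) := by
        rw [hm]; push_cast; ring
      rw [this, padicNorm.mul, h2, (padicNorm.int_eq_one_iff _).mpr, mul_one]
      omega
    have h5 : padicNorm 2 (n : ℚ) ≤ 1 / 2 := by
      have : (n : ℚ) = 2 * (m : ℚ) := by rw [hm]; push_cast; ring
      rw [this, padicNorm.mul, h2]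
      have := pn_int m
      linarith
    rw [h4]
    rw [le_div_iff₀ (by positivity)]
    nlinarith
  · have h4 : padicNorm 2 ((n ^ 2 + 2 : ℤ) : ℚ) = 1 := by
      rw [(padicNorm.int_eq_one_iff _)]
      obtain ⟨m, hm⟩ := ho
      intro hd
      obtain ⟨k, hk⟩ := hd
      have : n ^ 2 + 2 = 2 * (2 * m ^ 2 + 2 * m + 1) + 1 := by rw [hm]; ring
      push_cast at hk
      omega
    have h5 : padicNorm 2 (n : ℚ) ≤ 1 := pn_int n
    rw [h4]
    rw [le_div_iff₀ (by positivity)]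
    nlinarith

private lemma chain (n : ℤ) (hn : n ≠ 0) (j : ℕ) :
    ∃ x y : ℚ, AtF ((2 ^ (j + 1)) • (pt n hn)) x y ∧ 4 ^ (j + 1) ≤ padicNorm 2 x ∧
      (∀ i < j, ∀ x' y', AtF ((2 ^ (i + 1)) • (pt n hn)) x' y' → padicNorm 2 x' < padicNorm 2 x) := by
  induction j with
  | zero =>
    have hP : AtF (pt n hn) (-1) (n : ℚ) := ⟨_, rfl⟩
    have h2 : 2 * (n : ℚ) ≠ 0 := by
      have : (n : ℚ) ≠ 0 := by exact_mod_cast hn
      positivity
    have h := hP.dbl h2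
    have e : (2 ^ (0 + 1)) • (pt n hn) = pt n hn + pt n hn := by
      rw [zero_add, pow_one, two_nsmul]
    rw [← e] at h
    refine ⟨_, _, h, ?_, by omega⟩
    have := pn_first n hn
    rw [zero_add, pow_one]
    exact this
  | succ j ih =>
    obtain ⟨x, y, hA, hN, hlt⟩ := ih
    have h4 : 4 ≤ padicNorm 2 x := by
      refine le_trans ?_ hN
      calc (4 : ℚ) = 4 ^ 1 := by norm_num
        _ ≤ 4 ^ (j + 1) := pow_le_pow_right₀ (by norm_num) (by omega)
    obtain ⟨hy, hs⟩ := pn_step _ x y hA.eqn h4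
    have h := hA.dbl hy
    have e : (2 ^ (j + 1 + 1)) • (pt n hn) = (2 ^ (j + 1)) • (pt n hn) + (2 ^ (j + 1)) • (pt n hn) := by
      rw [← two_nsmul, ← mul_nsmul', ← pow_succ']
    rw [← e] at h
    refine ⟨_, _, h, ?_, ?_⟩
    · rw [hs, pow_succ]; nlinarith
    · intro i hi x' y' hA'
      rw [hs]
      rcases Nat.lt_succ_iff_lt_or_eq.mp hi with h6 | h6
      · have := hlt i h6 x' y' hA'
        linarith
      · subst h6
        obtain ⟨e1, -⟩ := hA'.unique hA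
        rw [e1]
        linarith

lemma inforder (n : ℤ) (hn : n ≠ 0) (m : ℤ) (h : m • (pt n hn) = 0) : m = 0 := by
  by_contra hm
  have hfin : IsOfFinAddOrder (pt n hn) := by
    rw [isOfFinAddOrder_iff_nsmul_eq_zero]
    refine ⟨m.natAbs, Int.natAbs_pos.mpr hm, ?_⟩
    rw [← natCast_zsmul, Int.natCast_natAbs]
    rcases abs_choice m with h1 | h1
    · rw [h1, h]
    · rw [h1, neg_smul, h, neg_zero]
  have hf : (Set.range (fun j : ℕ => (2 ^ (j + 1)) • (pt n hn))).Finite := by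
    refine Set.Finite.subset (s := (AddSubmonoid.multiples (pt n hn) : Set _)) ?_ ?_
    · exact finite_multiples.mpr hfin
    · rintro _ ⟨j, rfl⟩
      exact ⟨2 ^ (j + 1), rfl⟩
  have hinj : Function.Injective (fun j : ℕ => (2 ^ (j + 1)) • (pt n hn)) := by
    have key : ∀ i j : ℕ, i < j → (2 ^ (i + 1)) • (pt n hn) ≠ (2 ^ (j + 1)) • (pt n hn) := by
      intro i j hij he
      obtain ⟨x, y, hA, -, hlt⟩ := chain n hn j
      have := hlt i hij x y (by rw [he]; exact hA)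
      exact lt_irrefl _ this
    intro i j hij
    rcases lt_trichotomy i j with h1 | h1 | h1
    · exact absurd hij (key i j h1)
    · exact h1
    · exact absurd hij.symm (key j i h1)
  exact Set.infinite_range_of_injective hinj hf

theorem family (h : MainSt) : Family := by
  classical
  obtain ⟨C, hC⟩ := h
  refine ⟨C, ?_⟩
  by_contra hcon
  rw [not_le] at hcon
  set S : Set ℕ := {n : ℕ | ∃ hn : (n : ℤ) ≠ 0, (∀ q : ℕ, q.Prime → ¬ q ^ 4 ∣ n ^ 2 + 1) ∧
    ¬ ∃ c : ℝ, 0 < c ∧ ∀ z0 : ℝ, ∃ z : ℝ, z0 ≤ z ∧ c * z / Real.log z ^ 2 ≤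
      ({p : ℕ | (p : ℝ) ≤ z ∧ Primitive (-((n : ℤ) ^ 2 + 1)) (pt n hn) p}.ncard : ℝ)} with hS
  have hcon' : ((C + 1 : ℕ) : ℕ∞) ≤ S.encard := by
    have := Order.add_one_le_of_lt hcon
    exact_mod_cast this
  obtain ⟨t, hts, htc⟩ := Set.exists_subset_encard_eq hcon'
  have htf : t.Finite := Set.finite_of_encard_eq_coe htc
  have hcard : htf.toFinset.card = C + 1 := by
    rw [Set.Finite.encard_eq_coe_toFinset_card htf] at htc
    exact_mod_cast htc
  set e := htf.toFinset.equivFinOfCardEq hcard with he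
  set f : Fin (C + 1) → ℕ := fun i => ((e.symm i : htf.toFinset) : ℕ) with hf
  have hfinj : Function.Injective f := by
    intro i j hij
    exact e.symm.injective (Subtype.ext hij)
  have hfS : ∀ i, f i ∈ S := by
    intro i
    apply hts
    exact htf.mem_toFinset.mp (e.symm i).2
  choose hn h4 hno using hfS
  obtain ⟨c, hc, hmain⟩ := hC (C + 1) (fun i => -((f i : ℤ) ^ 2 + 1)) (fun _ => 1)
    (fun i _ => pt (f i) (hn i)) (by
      intro i j hij r
      constructor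
      · intro h0
        apply hij
        apply hfinj
        apply inj4 _ _ (h4 i) (h4 j) r
        push_cast at h0
        linarith
      · intro h0
        push_cast at h0
        have h1 : 0 ≤ r ^ 4 * ((f j : ℚ) ^ 2 + 1) := by positivity
        have h2 : 0 ≤ (f i : ℚ) ^ 2 := by positivity
        nlinarith) (by
      intro i
      rw [Fintype.linearIndependent_iff]
      intro g hg j
      rw [Fin.sum_univ_one] at hg
      have := inforder _ (hn i) _ hg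
      rw [Subsingleton.elim j 0]
      exact this) (by
      intro i r
      have h1 := nsq (f i) (hn i) r
      have h2 := npos (f i) r
      push_cast at h1 h2 ⊢
      constructor
      · intro h0; apply h1; linarith
      · intro h0; apply h2; linarith) (by
      intro i j x y hA r
      have hP : AtF (pt (f i) (hn i)) (-1) (((f i : ℤ) : ℚ)) := ⟨_, rfl⟩
      obtain ⟨rfl, -⟩ := hA.unique hP
      have h1 := nsq (f i) (hn i) r
      have h2 := npos (f i) r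
      push_cast at h1 h2 ⊢
      refine ⟨?_, third r, ?_, ?_⟩
      · intro h0; nlinarith [sq_nonneg r]
      · intro h0; apply h1; linarith
      · intro h0; apply h2; linarith)
  have hC1 : (0 : ℝ) < (C : ℝ) + 1 := by positivity
  have hz : ∀ i, ∃ z0 : ℝ, ∀ z : ℝ, z0 ≤ z →
      ({p : ℕ | (p : ℝ) ≤ z ∧ Primitive (-((f i : ℤ) ^ 2 + 1)) (pt (f i) (hn i)) p}.ncard : ℝ) <
        c / (C + 1) * z / Real.log z ^ 2 := by
    intro i
    have := hno i
    push Not at this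
    exact this (c / (C + 1)) (by positivity)
  choose z0 hz0 using hz
  obtain ⟨Z, hZ⟩ := (Set.finite_range z0).bddAbove
  obtain ⟨z, hzZ, hz1⟩ := hmain Z
  have hz2 : ∀ i, z0 i ≤ z := fun i => (hZ ⟨i, rfl⟩).trans hzZ
  have hsub : {p : ℕ | p.Prime ∧ (p : ℝ) ≤ z ∧ ∑ _i : Fin (C + 1), 1 ≤
        4 * {ij : Σ _i : Fin (C + 1), Fin 1 | Primitive (-((f ij.1 : ℤ) ^ 2 + 1))
          (pt (f ij.1) (hn ij.1)) p}.ncard + C} ⊆
      ⋃ i ∈ (Finset.univ : Finset (Fin (C + 1))),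
        {p : ℕ | (p : ℝ) ≤ z ∧ Primitive (-((f i : ℤ) ^ 2 + 1)) (pt (f i) (hn i)) p} := by
    rintro p ⟨-, hpz, hp⟩
    rw [Finset.sum_const, Finset.card_univ, Fintype.card_fin, smul_eq_mul, mul_one] at hp
    have h1 : 0 < {ij : Σ _i : Fin (C + 1), Fin 1 | Primitive (-((f ij.1 : ℤ) ^ 2 + 1))
          (pt (f ij.1) (hn ij.1)) p}.ncard := by omega
    obtain ⟨ij, hij⟩ := Set.nonempty_of_ncard_ne_zero (Nat.pos_iff_ne_zero.mp h1)
    simp only [Set.mem_iUnion]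
    exact ⟨ij.1, Finset.mem_univ _, hpz, hij⟩
  have hfin : ∀ i, {p : ℕ | (p : ℝ) ≤ z ∧ Primitive (-((f i : ℤ) ^ 2 + 1))
      (pt (f i) (hn i)) p}.Finite := by
    intro i
    apply (Set.finite_Iic (⌊z⌋₊)).subset
    rintro p ⟨hp, -⟩
    exact Nat.le_floor hp
  have hle : ({p : ℕ | p.Prime ∧ (p : ℝ) ≤ z ∧ ∑ _i : Fin (C + 1), 1 ≤
        4 * {ij : Σ _i : Fin (C + 1), Fin 1 | Primitive (-((f ij.1 : ℤ) ^ 2 + 1))
          (pt (f ij.1) (hn ij.1)) p}.ncard + C}.ncard : ℝ) ≤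
      ∑ i : Fin (C + 1), ({p : ℕ | (p : ℝ) ≤ z ∧ Primitive (-((f i : ℤ) ^ 2 + 1))
        (pt (f i) (hn i)) p}.ncard : ℝ) := by
    have h1 := Set.ncard_le_ncard hsub (Set.Finite.biUnion (Finset.finite_toSet _) (fun i _ => hfin i))
    have h2 := Finset.set_ncard_biUnion_le (Finset.univ : Finset (Fin (C + 1)))
      (fun i => {p : ℕ | (p : ℝ) ≤ z ∧ Primitive (-((f i : ℤ) ^ 2 + 1)) (pt (f i) (hn i)) p})
    exact_mod_cast h1.trans h2
  have hlt : ∑ i : Fin (C + 1), ({p : ℕ | (p : ℝ) ≤ z ∧ Primitive (-((f i : ℤ) ^ 2 + 1))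
        (pt (f i) (hn i)) p}.ncard : ℝ) < ∑ _i : Fin (C + 1), c / (C + 1) * z / Real.log z ^ 2 := by
    apply Finset.sum_lt_sum_of_nonempty
    · exact ⟨0, Finset.mem_univ _⟩
    · intro i _
      exact hz0 i z (hz2 i)
  rw [Finset.sum_const, Finset.card_univ, Fintype.card_fin, nsmul_eq_mul] at hlt
  have heq : ((C + 1 : ℕ) : ℝ) * (c / (C + 1) * z / Real.log z ^ 2) = c * z / Real.log z ^ 2 := by
    push_cast
    field_simp
  rw [heq] at hlt
  exact absurd (hz1.trans hle) (not_le.mpr hlt)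

end Pool.Agent.Helper63.LT
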