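import Pool.Agent.Helper63.LT.Fam
import Pool.Agent.Helper63.LT.Exc

/-!
# Project LT: the family `(-1, n)` on `y² = x³ - (n² + 1) x`, with the same constant
-/

set_option autoImplicit false

namespace Pool.Agent.Helper63.LT

open WeierstrassCurve Pool.Agent.Helper10.SS

lemma pt_adm (n : ℤ) (hn : n ≠ 0) : Admissible (-(n ^ 2 + 1)) (pt n hn) := by
  refine ⟨fun m h => inforder n hn m h, -1, n, ⟨_, rfl⟩, fun r => ?_⟩
  have h1 := nsq n hn r
  have h2 := npos n r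
  push_cast at h1 h2 ⊢
  refine ⟨⟨?_, ?_⟩, ⟨?_, third r⟩, ⟨?_, ?_⟩⟩
  · intro h0; apply h1; linarith
  · intro h0; apply h2; linarith
  · intro h0; nlinarith [sq_nonneg r]
  · intro h0; apply h1; linarith
  · intro h0; apply h2; linarith

lemma family2 {C : ℕ} (h : MainA C) :
    {n : ℕ | ∃ hn : (n : ℤ) ≠ 0, (∀ q : ℕ, q.Prime → ¬ q ^ 4 ∣ n ^ 2 + 1) ∧
      ¬ Good (-((n : ℤ) ^ 2 + 1)) (pt n hn)}.encard ≤ C := by
  set A : Set ℤ := {a | ∃ n : ℕ, (∀ q : ℕ, q.Prime → ¬ q ^ 4 ∣ n ^ 2 + 1) ∧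
    a = -((n : ℤ) ^ 2 + 1)} with hA
  have hne : Inequivalent (fun a : A => (a : ℤ)) := by
    rintro ⟨a, n, hn, rfl⟩ ⟨b, m, hm, rfl⟩ hij r
    constructor
    · intro h0
      apply hij
      have : n = m := by
        apply inj4 n m hn hm r
        push_cast at h0
        linarith
      subst this
      rfl
    · intro h0
      push_cast at h0
      have h1 : 0 ≤ r ^ 4 * ((m : ℚ) ^ 2 + 1) := by positivity
      have h2 : 0 ≤ (n : ℚ) ^ 2 := by positivity
      nlinarith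
  refine le_trans ?_ (curves h A hne)
  set f : ℕ → ℤ := fun n => -((n : ℤ) ^ 2 + 1) with hf
  have hinj : Function.Injective f := by
    intro n m hnm
    simp only [hf] at hnm
    have h1 : (n : ℤ) ^ 2 = (m : ℤ) ^ 2 := by linarith
    have h2 : n ^ 2 = m ^ 2 := by exact_mod_cast h1
    exact Nat.pow_left_injective (by norm_num : 2 ≠ 0) h2
  rw [← hinj.encard_image]
  apply Set.encard_le_encard
  rintro _ ⟨n, ⟨hn, h4, hbad⟩, rfl⟩
  exact ⟨⟨n, h4, rfl⟩, pt n hn, pt_adm n hn, hbad⟩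

end Pool.Agent.Helper63.LT
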