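import Pool.Agent.Helper63.LT.St

/-!
# Project LT, module LT-9: the number field, and fourth roots modulo a prime

`FieldEx`: `L` is the splitting field over `ℚ` of `(X ^ 2 + 1) * ∏ i, (X ^ 4 - C (a i))`
(`Polynomial.SplittingField`; finite dimensional, characteristic zero, normal and separable).

`Match`: take a maximal ideal `M` of `𝓞 L` containing `p` (`(p)` is a proper ideal: `p` is not a
unit of `𝓞 L`, e.g. `Ideal.exists_ideal_over_maximal_of_isIntegral` or via the norm),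
`κ = 𝓞 L ⧸ M`, `φ` the quotient map, `j : ZMod p →+* κ` from `(p : κ) = 0` (`ZMod.castHom` with
`CharP κ p`, or `ZMod.lift`). `ι, θ i` are integral, let `ι', θ' i : 𝓞 L` be the elements. In `κ`:
`φ (θ' i) ^ 4 = a i = j (t i) ^ 4 ≠ 0` (`j` is injective), so `j (t i) / φ (θ' i)` is a fourth root
of `1`, and `φ ι' ^ 2 = -1`; a fourth root `z` of `1` in a field containing `I` with `I ^ 2 = -1`
is `I ^ f` for some `f < 4`: `(z - 1)(z + 1)(z - I)(z + I) = 0`. `T i = ι' ^ f i * θ' i`.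
-/

set_option autoImplicit false

open scoped NumberField

namespace Pool.Agent.Helper63.LT

open Polynomial in
theorem fieldEx : FieldEx := by
  classical
  intro I _ a ha
  let f : ℚ[X] := (X ^ 2 + C 1) * ∏ i, (X ^ 4 - C (a i : ℚ))
  let L := f.SplittingField
  have hsp : (f.map (algebraMap ℚ L)).Splits := SplittingField.splits f
  have hal : (DivisionRing.toRatAlgebra : Algebra ℚ L) = SplittingField.instAlgebra_1 f :=
    Subsingleton.elim _ _
  have hL : @FiniteDimensional ℚ L _ _ (DivisionRing.toRatAlgebra : Algebra ℚ L).toModule := by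
    rw [hal]; infer_instance
  let hnf : NumberField L := { to_charZero := inferInstance, to_finiteDimensional := hL }
  have hgal : @IsGalois ℚ _ L _ (DivisionRing.toRatAlgebra : Algebra ℚ L) := by
    rw [hal]; exact { to_isSeparable := inferInstance, to_normal := inferInstance }
  have h2 : (X ^ 2 + C (1 : ℚ)) ≠ 0 := X_pow_add_C_ne_zero (by norm_num) 1
  have h4 : ∀ i, (X ^ 4 - C (a i : ℚ)) ≠ 0 := fun i => X_pow_sub_C_ne_zero (by norm_num) _
  have hf0 : f ≠ 0 := mul_ne_zero h2 (Finset.prod_ne_zero_iff.2 fun i _ => h4 i)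
  have hf0' : f.map (algebraMap ℚ L) ≠ 0 := (Polynomial.map_ne_zero_iff
    (algebraMap ℚ L).injective).2 hf0
  have hroot : ∀ g : ℚ[X], g ∣ f → g.natDegree ≠ 0 → ∃ x : L, (g.map (algebraMap ℚ L)).eval x = 0 := by
    intro g hg hd
    refine (hsp.of_dvd hf0' (Polynomial.map_dvd _ hg)).exists_eval_eq_zero ?_
    rw [degree_map]
    exact degree_ne_of_natDegree_ne hd
  refine ⟨L, inferInstance, hnf, hgal, ?_⟩
  obtain ⟨ι, hι⟩ := hroot (X ^ 2 + C 1) (dvd_mul_right _ _) (by rw [natDegree_X_pow_add_C]; norm_num)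
  have hθ : ∀ i, ∃ x : L, x ^ 4 = a i := by
    intro i
    obtain ⟨x, hx⟩ := hroot (X ^ 4 - C (a i : ℚ))
      ((Finset.dvd_prod_of_mem (fun i => (X ^ 4 - C (a i : ℚ))) (Finset.mem_univ i)).trans
        (dvd_mul_left _ _)) (by rw [natDegree_X_pow_sub_C]; norm_num)
    refine ⟨x, ?_⟩
    have h : x ^ 4 - (a i : L) = 0 := by simpa using hx
    exact sub_eq_zero.1 h
  choose θ hθ using hθ
  refine ⟨ι, ?_, θ, hθ⟩
  have h : ι ^ 2 + 1 = 0 := by simpa using hι
  exact eq_neg_of_add_eq_zero_left h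

private theorem exists_max {L : Type} [Field L] [NumberField L] (p : ℕ) (hp : p.Prime) :
    ∃ M : Ideal (𝓞 L), M.IsMaximal ∧ ((p : ℕ) : 𝓞 L) ∈ M := by
  have hnu : ¬ IsUnit ((p : ℕ) : 𝓞 L) := by
    intro h
    obtain ⟨y, hy⟩ := h.exists_right_inv
    have hy' : (p : L) * (y : L) = 1 := by
      have := congrArg (algebraMap (𝓞 L) L) hy
      simpa using this
    have hp0 : (p : L) ≠ 0 := by exact_mod_cast hp.ne_zero
    have hyq : (y : L) = algebraMap ℚ L (1 / p) := by
      rw [map_div₀, map_one, map_natCast]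
      field_simp
      linear_combination hy'
    have hi : IsIntegral ℤ (algebraMap ℚ L (1 / p)) := by
      rw [← hyq]; exact y.2
    have hi2 : IsIntegral ℤ ((1 : ℚ) / p) := by
      rwa [isIntegral_algebraMap_iff (algebraMap ℚ L).injective] at hi
    obtain ⟨z, hz⟩ := IsIntegrallyClosed.isIntegral_iff.1 hi2
    have hpq : (p : ℚ) ≠ 0 := by exact_mod_cast hp.ne_zero
    have h1 : (z : ℚ) * p = 1 := by
      have : (z : ℚ) = 1 / p := by simpa using hz
      rw [this]; field_simp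
    have h2 : z * p = 1 := by exact_mod_cast h1
    have h3 : (p : ℤ) ∣ 1 := ⟨z, by linarith [h2, mul_comm z (p : ℤ)]⟩
    have h4 : p ∣ 1 := by exact_mod_cast h3
    exact hp.one_lt.ne' (Nat.dvd_one.1 h4)
  obtain ⟨M, hM, h⟩ := exists_max_ideal_of_mem_nonunits (a := ((p : ℕ) : 𝓞 L)) hnu
  exact ⟨M, hM, h⟩

private theorem root_of_one {κ : Type} [Field κ] (z I : κ) (hI : I ^ 2 = -1) (hz : z ^ 4 = 1) :
    ∃ f : Fin 4, z = I ^ (f : ℕ) := by
  have h : (z - 1) * (z + 1) * (z - I) * (z + I) = 0 := by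
    linear_combination hz - (z ^ 2 - 1) * hI
  rcases mul_eq_zero.1 h with h | h
  · rcases mul_eq_zero.1 h with h | h
    · rcases mul_eq_zero.1 h with h | h
      · exact ⟨0, by simpa using sub_eq_zero.1 h⟩
      · exact ⟨2, by simp only [Fin.val_two, hI]; exact eq_neg_of_add_eq_zero_left h⟩
    · exact ⟨1, by simpa using sub_eq_zero.1 h⟩
  · refine ⟨3, ?_⟩
    have h2 : z = -I := eq_neg_of_add_eq_zero_left h
    have h3 : ((3 : Fin 4) : ℕ) = 3 := rfl
    rw [h3, h2]
    linear_combination -I * hI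

theorem matching : Match := by
  classical
  intro L _ _ I _ a ι hι θ hθ p hp hp2 ha t ht
  obtain ⟨M, hM, hpM⟩ := exists_max (L := L) p hp.out
  let hF : Field (𝓞 L ⧸ M) := Ideal.Quotient.field M
  have hint : ∀ (x : L) (n : ℕ), 0 < n → (∃ z : ℤ, x ^ n = z) → IsIntegral ℤ x := by
    rintro x n hn ⟨z, hz⟩
    have h1 : IsIntegral ℤ (x ^ n) := by
      rw [hz]
      exact isIntegral_algebraMap (x := z)
    exact IsIntegral.of_pow hn h1
  let ι' : 𝓞 L := ⟨ι, hint ι 2 (by norm_num) ⟨-1, by rw [hι]; push_cast; rfl⟩⟩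
  let θ' : I → 𝓞 L := fun i => ⟨θ i, hint (θ i) 4 (by norm_num) ⟨a i, hθ i⟩⟩
  have hι' : ι' ^ 2 = -1 := by
    apply FaithfulSMul.algebraMap_injective (𝓞 L) L
    rw [map_pow, map_neg, map_one]
    exact hι
  have hθ' : ∀ i, θ' i ^ 4 = (a i : 𝓞 L) := by
    intro i
    apply FaithfulSMul.algebraMap_injective (𝓞 L) L
    rw [map_pow, map_intCast]
    exact hθ i
  let φ : 𝓞 L →+* 𝓞 L ⧸ M := Ideal.Quotient.mk M
  have hp0 : ((p : ℕ) : 𝓞 L ⧸ M) = 0 := by
    have : φ ((p : ℕ) : 𝓞 L) = 0 := Ideal.Quotient.eq_zero_iff_mem.2 hpM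
    simpa using this
  let hch : CharP (𝓞 L ⧸ M) p := (CharP.charP_iff_prime_eq_zero hp.out).2 hp0
  let j : ZMod p →+* 𝓞 L ⧸ M := ZMod.castHom (dvd_refl p) _
  have hj : Function.Injective j := j.injective
  have key : ∀ i, ∃ f : Fin 4, j (t i) = φ (ι' ^ (f : ℕ) * θ' i) := by
    intro i
    have h1 : φ (θ' i) ^ 4 = (a i : 𝓞 L ⧸ M) := by
      rw [← map_pow, hθ', map_intCast]
    have h2 : j (t i) ^ 4 = (a i : 𝓞 L ⧸ M) := by
      rw [← map_pow, ht, map_intCast]
    have h3 : (a i : 𝓞 L ⧸ M) ≠ 0 := by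
      intro h
      apply ha i
      apply hj
      rw [map_intCast, map_zero]; exact h
    have h4 : φ (θ' i) ≠ 0 := by
      intro h
      rw [h] at h1
      apply h3
      rw [← h1]; ring
    have h5 : (j (t i) / φ (θ' i)) ^ 4 = 1 := by
      rw [div_pow, h1, h2, div_self h3]
    obtain ⟨f, hf⟩ := root_of_one _ (φ ι') (by rw [← map_pow, hι', map_neg, map_one]) h5
    refine ⟨f, ?_⟩
    rw [map_mul, map_pow, ← hf, div_mul_cancel₀ _ h4]
  choose f hf using key
  refine ⟨𝓞 L ⧸ M, hF, φ, j, f, fun i => ι' ^ (f i : ℕ) * θ' i, fun i => ?_, fun i => (hf i).symm⟩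
  change algebraMap (𝓞 L) L (ι' ^ (f i : ℕ) * θ' i) = _
  rw [map_mul, map_pow]; rfl

end Pool.Agent.Helper63.LT
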