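import Pool.Agent.Helper63.LT.St

/-!
# Project LT, module LT-4: the group of points modulo `p ≡ 3 (mod 4)`

`Grp`. Let `G` be the group of points of `y² = x³ + a x` over `ZMod p`, `-a` not a square. By
`Pool.Agent.Helper10.SS.card_point` it has `p + 1` elements (`a ≠ 0` because `0` is a square).
(1) For every prime `r` at most `r` elements of `G` are killed by `r`: for odd `r` because
`r ^ 2 ∤ p + 1`; for `r = 2`: `2 P = 0`, `P ≠ 0` gives `y = 0`, so `x (x ^ 2 + a) = 0` and `x = 0`.
(2) Multiplication by `r` maps the elements killed by `r n` to those killed by `n` and its fibres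
have at most `r` elements, so at most `m` elements are killed by `m`, for every `m`; so `G` is
cyclic.
(3) Second claim: `g` a generator, `P = k g`. If `k` is even, then `P = 2 Q` and
`x (2 Q) = ((x ^ 2 - a) / (2 y)) ^ 2` is a square. So `k` is odd, and a prime divisor `q` of `k`
and `p + 1` is odd.
-/

set_option autoImplicit false

namespace Pool.Agent.Helper63.LT

open WeierstrassCurve Pool.Agent.Helper10.SS

/-- At most `m` elements are killed by `m` if this holds for prime numbers. -/
private theorem card_killed {G : Type} [AddCommGroup G] [Finite G]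
    (h : ∀ r : ℕ, r.Prime → Nat.card {R : G // r • R = 0} ≤ r) :
    ∀ m : ℕ, 0 < m → Nat.card {R : G // m • R = 0} ≤ m := by
  classical
  intro m
  induction m using Nat.recOnMul with
  | zero => intro h0; exact absurd h0 (lt_irrefl 0)
  | one =>
    intro _
    have : Subsingleton {R : G // 1 • R = 0} := by
      refine ⟨fun x y => Subtype.ext ?_⟩
      have hx := x.2
      have hy := y.2
      rw [one_nsmul] at hx hy
      rw [hx, hy]
    exact Finite.card_le_one_iff_subsingleton.mpr this
  | prime r hr => intro _; exact h r hr
  | mul a b iha ihb =>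
    intro hab
    have ha : 0 < a := Nat.pos_of_ne_zero (by rintro rfl; simp at hab)
    have hb : 0 < b := Nat.pos_of_ne_zero (by rintro rfl; simp at hab)
    have iha := iha ha
    have ihb := ihb hb
    -- the map `R ↦ b • R` to the elements killed by `a`
    let f : {R : G // (a * b) • R = 0} → {R : G // a • R = 0} :=
      fun R => ⟨b • R.1, by rw [smul_smul]; exact R.2⟩
    let s : {R : G // a • R = 0} → {R : G // (a * b) • R = 0} := fun S =>
      if hS : ∃ R, f R = S then hS.choose else ⟨0, by simp⟩
    have hs : ∀ R, f (s (f R)) = f R := by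
      intro R
      have hS : ∃ R', f R' = f R := ⟨R, rfl⟩
      simp only [s]
      rw [dif_pos hS]
      exact hS.choose_spec
    let F : {R : G // (a * b) • R = 0} → {R : G // a • R = 0} × {R : G // b • R = 0} :=
      fun R => (f R, ⟨R.1 - (s (f R)).1, by
        have h1 := congrArg Subtype.val (hs R)
        simp only [f] at h1 ⊢
        rw [smul_sub, h1, sub_self]⟩)
    have hF : Function.Injective F := by
      intro R R' hRR
      have h1 : f R = f R' := congrArg Prod.fst hRR
      have h2 : R.1 - (s (f R)).1 = R'.1 - (s (f R')).1 :=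
        congrArg Subtype.val (congrArg Prod.snd hRR)
      rw [h1] at h2
      exact Subtype.ext (sub_left_injective h2)
    calc Nat.card {R : G // (a * b) • R = 0}
        ≤ Nat.card ({R : G // a • R = 0} × {R : G // b • R = 0}) := Nat.card_le_card_of_injective F hF
      _ = Nat.card {R : G // a • R = 0} * Nat.card {R : G // b • R = 0} := Nat.card_prod _ _
      _ ≤ a * b := Nat.mul_le_mul iha ihb

private theorem card_eq_pow (K V : Type) [Field K] [AddCommGroup V] [Module K V] [Finite V] :
    ∃ d : ℕ, Nat.card V = Nat.card K ^ d :=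
  ⟨_, Module.natCard_eq_pow_finrank⟩

/-- For a prime number whose square does not divide the order at most `r` elements are killed
by `r`. -/
private theorem card_killed_odd {G : Type} [AddCommGroup G] [Finite G] (r : ℕ) (hr : r.Prime)
    (h : ¬ r ^ 2 ∣ Nat.card G) : Nat.card {R : G // r • R = 0} ≤ r := by
  classical
  have hF : Fact r.Prime := ⟨hr⟩
  let H : AddSubgroup G := (nsmulAddMonoidHom (α := G) r).ker
  have hH : ∀ x : H, r • x = 0 := by
    rintro ⟨x, hx⟩
    apply Subtype.ext
    exact hx
  have h1 : ∃ d : ℕ, Nat.card H = r ^ d := by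
    let I1 : Module (ZMod r) H := AddCommGroup.zmodModule hH
    have := card_eq_pow (ZMod r) H
    rwa [Nat.card_zmod] at this
  have h2 : Nat.card H ∣ Nat.card G := AddSubgroup.card_addSubgroup_dvd_card H
  obtain ⟨d, hd⟩ := h1
  have h3 : d ≤ 1 := by
    by_contra hcon
    push Not at hcon
    apply h
    refine (pow_dvd_pow r hcon).trans ?_
    rw [← hd]
    exact h2
  have h4 : Nat.card {R : G // r • R = 0} = Nat.card H := rfl
  rw [h4, hd]
  calc r ^ d ≤ r ^ 1 := Nat.pow_le_pow_right hr.pos h3
    _ = r := pow_one r

theorem grp : Grp := by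
  intro p hp h4 hsq a ha
  classical
  have ha0 : a ≠ 0 := by
    rintro rfl
    apply ha
    exact ⟨0, by simp⟩
  have hcard : Nat.card (EF a (0 : ZMod p)).Point = p + 1 := card_point a ha0 h4
  have hfin : Finite (EF a (0 : ZMod p)).Point := Nat.finite_of_card_ne_zero (by rw [hcard]; omega)
  have h2 : (2 : ZMod p) ≠ 0 := by
    apply Ring.two_ne_zero
    rw [ZMod.ringChar_zmod_n]
    omega
  -- points of order two
  have hord2 : ∀ (Q : (EF a (0 : ZMod p)).Point) (x y : ZMod p), AtF Q x y → y = 0 → x = 0 := by
    intro Q x y hQ hy
    have h5 := hQ.eqn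
    rw [hy] at h5
    have h6 : x * (x ^ 2 + a) = 0 := by linear_combination -h5
    rcases mul_eq_zero.mp h6 with h7 | h7
    · exact h7
    · exfalso
      apply ha
      exact ⟨x, by linear_combination -h7⟩
  have hprime : ∀ r : ℕ, r.Prime → Nat.card {R : (EF a (0 : ZMod p)).Point // r • R = 0} ≤ r := by
    intro r hr
    by_cases hr2 : r = 2
    · subst hr2
      -- injection to `Bool`
      have hinj : Function.Injective
          (fun R : {R : (EF a (0 : ZMod p)).Point // 2 • R = 0} => decide (R.1 = 0)) := by
        rintro ⟨R, hR⟩ ⟨R', hR'⟩ hh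
        simp only at hh
        apply Subtype.ext
        simp only
        have key : ∀ S : (EF a (0 : ZMod p)).Point, 2 • S = 0 → S ≠ 0 → AtF S 0 0 := by
          intro S hS hS0
          rcases zero_orF S with h | ⟨x, y, hxy⟩
          · exact absurd h hS0
          · have hy : y = 0 := by
              by_contra hy
              have h5 := (hxy.dbl (mul_ne_zero h2 hy)).ne_zero
              apply h5
              rw [← two_nsmul]
              exact hS
            have hx := hord2 S x y hxy hy
            rw [hx, hy] at hxy
            exact hxy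
        by_cases h0 : R = 0
        · rw [decide_eq_true h0] at hh
          have h0' : R' = 0 := of_decide_eq_true hh.symm
          rw [h0, h0']
        · rw [decide_eq_false h0] at hh
          have h0' : R' ≠ 0 := of_decide_eq_false hh.symm
          exact (key R hR h0).eq (key R' hR' h0')
      calc Nat.card {R : (EF a (0 : ZMod p)).Point // 2 • R = 0} ≤ Nat.card Bool :=
            Nat.card_le_card_of_injective _ hinj
        _ = 2 := by simp
    · by_cases hd : r ∣ p + 1
      · apply card_killed_odd r hr
        rw [hcard]
        exact (hsq r hr hd).resolve_left hr2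
      · apply card_killed_odd r hr
        rw [hcard]
        intro hcon
        exact hd ((dvd_pow_self r two_ne_zero).trans hcon)
  have hall := card_killed hprime
  refine ⟨hall, ?_⟩
  have hfty : Fintype (EF a (0 : ZMod p)).Point := Fintype.ofFinite _
  have hcyc : IsAddCyclic (EF a (0 : ZMod p)).Point := by
    apply isAddCyclic_of_card_nsmul_eq_zero_le
    intro n hn
    have := hall n hn
    rw [Nat.card_eq_fintype_card, Fintype.card_subtype] at this
    convert this
  intro P x y hP hx hgen
  obtain ⟨g, hg⟩ := IsAddCyclic.exists_generator (α := (EF a (0 : ZMod p)).Point)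
  have hordg : addOrderOf g = p + 1 := by
    rw [addOrderOf_eq_card_of_forall_mem_zmultiples hg, hcard]
  obtain ⟨k, hk⟩ : ∃ k : ℕ, k • g = P := by
    have h5 := hg P
    rw [← mem_multiples_iff_mem_zmultiples] at h5
    exact h5
  -- `k` is odd
  have hodd : ¬ 2 ∣ k := by
    rintro ⟨l, rfl⟩
    have h5 : P = l • g + l • g := by rw [← hk, mul_nsmul', two_nsmul]
    rcases zero_orF (l • g) with h6 | ⟨x', y', h6⟩
    · rw [h6, add_zero] at h5
      exact hP.ne_zero h5
    · have hy' : y' ≠ 0 := by
        intro hy'
        have hx' := hord2 _ x' y' h6 hy'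
        rw [hx', hy'] at h6
        apply hP.ne_zero
        rw [h5]
        exact h6.add_neg (by rw [neg_zero]; exact h6)
      have h7 := h6.dbl (mul_ne_zero h2 hy')
      rw [← h5] at h7
      apply hx
      rw [(hP.unique h7).1]
      have h8 := h6.eqn
      refine ⟨(x' ^ 2 - a) / (2 * y'), ?_⟩
      have h9 : (2 * y') ≠ 0 := mul_ne_zero h2 hy'
      rw [div_pow, div_mul_div_comm, sub_sub, div_sub' (pow_ne_zero 2 h9), ← pow_two (2 * y')]
      congr 1
      linear_combination (-8 * x') * h8
  -- a common prime factor
  have hco : ¬ Nat.Coprime (p + 1) k := by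
    intro hco
    apply hgen
    intro R
    have h5 : addOrderOf P = p + 1 := by
      rw [← hk]
      rw [← hordg] at hco
      rw [hco.addOrderOf_nsmul, hordg]
    have h6 : AddSubgroup.zmultiples P = ⊤ := by
      apply AddSubgroup.eq_top_of_card_eq
      rw [Nat.card_zmultiples, h5, hcard]
    rw [h6]
    exact AddSubgroup.mem_top R
  obtain ⟨q, hq, hq1, hq2⟩ := Nat.Prime.not_coprime_iff_dvd.mp hco
  refine ⟨q, hq, ?_, hq1, ?_⟩
  · rintro rfl
    exact hodd hq2
  · obtain ⟨l, rfl⟩ := hq2
    rw [← hk, smul_smul, ← mul_assoc, Nat.div_mul_cancel hq1, ← hordg, mul_comm, ← smul_smul,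
      addOrderOf_nsmul_eq_zero, smul_zero]

end Pool.Agent.Helper63.LT
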