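import Pool.Agent.Helper63.LT.St

/-!
# Project LT, module LT-8: independence of the transported points

`MapHom → IndepL`. Let `X` be the group of points of `y² = x³ + x` over `L`. For `u` with
`u ^ 4 = 1` let `Z u : X →+ X`, `(x, y) ↦ (u ^ 2 x, u ^ 3 y)` (`MapHom` with `σ = id`, `a' = 1`).
By `AtF.unique`/`AtF.eq`: `Z (u v) = Z u ∘ Z v`, `Z 1 = id`, `Z (-1) = -id`. For `τ : L ≃ₐ[ℚ] L` let
`S τ : X →+ X`, `(x, y) ↦ (τ x, τ y)` (`MapHom` with `u = 1`).
(1) Let `G` be the group of the `τ` with `τ ι = ι` (all `τ` fixing the subfield `ℚ(ι)`), and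
`χ_i τ = θ_i / τ θ_i`; it is a fourth root of unity (`θ_i ^ 4` is rational, `θ_i ≠ 0`), hence one
of `1, -1, ι, -ι`, fixed by `G`; `χ_i` is multiplicative on `G`. `S τ (Q i) = Z (χ_i τ) (Q i)`.
(2) Fix `j`. Apply `∑ τ ∈ G, Z (χ_j τ)⁻¹ ∘ S τ` to `∑ n i • Q i = 0`:
`∑ i, n i • (∑ τ ∈ G, Z (χ_i τ / χ_j τ)) (Q i) = 0`. If `a i = a j` then `θ_i / θ_j` is a fourth
root of unity, so `χ_i = χ_j` on `G` and the inner sum is `|G|`. If `a i ≠ a j` then
`ψ = χ_i / χ_j` is not trivial on `G`: otherwise `θ_i / θ_j` is fixed by `G`, so it lies in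
`ℚ(ι)` (Galois correspondence), `θ_i / θ_j = s + t ι` with `s, t` rational, and
`a i / a j = (s + t ι) ^ 4` is rational, so `4 s t (s ^ 2 - t ^ 2) = 0`: `s = 0`, `t = 0` or
`s = ± t`, i.e. `a i / a j = t ^ 4`, `s ^ 4` or `-4 s ^ 4`, against the first part of `Indep`.
Take `τ₀` with `ψ τ₀ = u₀ ≠ 1`: the sum `Σ` over `τ` of `Z (ψ τ)` satisfies `Z u₀ ∘ Σ = Σ`; so
`-Σ = Σ` if `u₀ = -1`, and `-Σ = Z (u₀ ^ 2) ∘ Σ = Σ` if `u₀ = ± ι`: `2 Σ = 0` in all cases.
Hence `∑ (i : a i = a j), (2 |G| n i) • Q i = 0`.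
(3) Let `d = a j`. For `a i = d`: `θ_i = ρ_i θ_j`, `ρ_i ^ 4 = 1`, so `Q i = Z (ρ_i⁻¹) (T (S_i))`,
where `S_i` is the point of `y² = x³ + d x` over `ℚ` with the coordinates of `P i` and `T` is
`MapHom` with `σ = algebraMap ℚ L`, `u = θ_j⁻¹`. With `Z (-1) = -1` the relation becomes
`T A + Z ι (T B) = 0`, where `A = ∑ ± 2 |G| n i • S_i` over the `i` with `ρ_i = ± 1` and
`B = ∑ ± 2 |G| n i • S_i` over the `i` with `ρ_i = ± ι`. So it is a relation between coordinates: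
pull it back to `y² = x³ + d x` over `L` (injective `MapHom` with `σ = id`, `u = θ_j`; let
`T' = MapHom (algebraMap, u = 1)`, `J` = `MapHom (id, u = ι)` on that curve): `T' A + J (T' B) = 0`.
Take `τ` with `τ ι = -ι` (complex conjugation on `ℚ(ι)` extends to `L`, `L` is normal). It fixes
`T' A`, `T' B` and sends `J R` to `-J (τ R)`: so `T' A - J (T' B) = 0`, hence `2 T' A = 0` and
`2 J (T' B) = 0`, and by injectivity `2 A = 0`, `2 B = 0`. By the second part of `Indep` (with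
`S_i` for `a i = d` and anything, e.g. `0`, for the other `i`) all `4 |G| n i` are `0` for
`ρ_i = ± 1` and for `ρ_i = ± ι`; in particular `n j = 0`.
(If you prefer: avoid (2)-(3) by any other proof; only the statement matters.)
-/

set_option autoImplicit false

open scoped NumberField

namespace Pool.Agent.Helper63.LT

open WeierstrassCurve Pool.Agent.Helper10.SS

private lemma fourth {L : Type} [Field L] {ι u : L} (hι : ι ^ 2 = -1) (hu : u ^ 4 = 1) :
    u = 1 ∨ u = -1 ∨ u = ι ∨ u = -ι := by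
  have h : (u - 1) * ((u + 1) * ((u - ι) * (u + ι))) = 0 := by
    have h1 : (u - ι) * (u + ι) = u ^ 2 + 1 := by linear_combination -hι
    rw [h1]; linear_combination hu
  rcases mul_eq_zero.mp h with h | h
  · left; exact sub_eq_zero.mp h
  rcases mul_eq_zero.mp h with h | h
  · right; left; exact eq_neg_of_add_eq_zero_left h
  rcases mul_eq_zero.mp h with h | h
  · right; right; left; exact sub_eq_zero.mp h
  · right; right; right; exact eq_neg_of_add_eq_zero_left h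

private lemma im_cases {L : Type} [Field L] [Algebra ℚ L] {ι : L} (hι : ι ^ 2 = -1)
    (τ : L ≃ₐ[ℚ] L) : τ ι = ι ∨ τ ι = -ι := by
  have h2 : (τ ι) ^ 2 = -1 := by rw [← map_pow, hι, map_neg, map_one]
  have h3 : (τ ι - ι) * (τ ι + ι) = 0 := by linear_combination h2 - hι
  rcases mul_eq_zero.mp h3 with h | h
  · left; exact sub_eq_zero.mp h
  · right; exact eq_neg_of_add_eq_zero_left h

private lemma exists_conj {L : Type} [Field L] [NumberField L] [IsGalois ℚ L] {ι : L}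
    (hι : ι ^ 2 = -1) : ∃ c : L ≃ₐ[ℚ] L, c ι = -ι := by
  by_contra hcon
  push Not at hcon
  have h : ∀ f : L ≃ₐ[ℚ] L, f ι = ι := fun f =>
    (im_cases hι f).resolve_right (hcon f)
  obtain ⟨r, hr⟩ := (IsGalois.mem_range_algebraMap_iff_fixed ι).mpr h
  have h1 : (algebraMap ℚ L) (r ^ 2) = algebraMap ℚ L (-1) := by
    rw [map_pow, hr, hι]; simp
  have h2 := (algebraMap ℚ L).injective h1
  nlinarith [sq_nonneg r]

private lemma mem_qi {L : Type} [Field L] [NumberField L] [IsGalois ℚ L] {ι : L}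
    (hι : ι ^ 2 = -1) (w : L) (hw : ∀ τ : L ≃ₐ[ℚ] L, τ ι = ι → τ w = w) :
    ∃ s t : ℚ, w = s + t * ι := by
  obtain ⟨c, hc⟩ := exists_conj hι
  have hι0 : ι ≠ 0 := by rintro rfl; norm_num at hι
  have hc' : c⁻¹ (-ι) = ι := by
    have : c⁻¹ (c ι) = ι := by
      rw [← AlgEquiv.mul_apply, inv_mul_cancel, AlgEquiv.one_apply]
    rwa [hc] at this
  have hc'' : c⁻¹ ι = -ι := by
    have := congrArg Neg.neg hc'
    rwa [map_neg, neg_neg] at this
  have hcc : ∀ x, c (c⁻¹ x) = x := fun x => by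
    rw [← AlgEquiv.mul_apply, mul_inv_cancel, AlgEquiv.one_apply]
  have key : ∀ τ : L ≃ₐ[ℚ] L, (τ ι = ι ∧ τ w = w ∧ τ (c w) = c w) ∨
      (τ ι = -ι ∧ τ w = c w ∧ τ (c w) = w) := by
    intro τ
    rcases im_cases hι τ with h | h
    · left
      refine ⟨h, hw τ h, ?_⟩
      have h1 := hw (c⁻¹ * (τ * c)) (by
        rw [AlgEquiv.mul_apply, AlgEquiv.mul_apply, hc, map_neg, h, hc'])
      rw [AlgEquiv.mul_apply, AlgEquiv.mul_apply] at h1
      have h2 := congrArg c h1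
      rwa [hcc] at h2
    · right
      refine ⟨h, ?_, ?_⟩
      · have h1 := hw (c⁻¹ * τ) (by rw [AlgEquiv.mul_apply, h, hc'])
        rw [AlgEquiv.mul_apply] at h1
        have h2 := congrArg c h1
        rwa [hcc] at h2
      · have h1 := hw (τ * c) (by rw [AlgEquiv.mul_apply, hc, map_neg, h, neg_neg])
        rwa [AlgEquiv.mul_apply] at h1
  obtain ⟨s, hs⟩ := (IsGalois.mem_range_algebraMap_iff_fixed (F := ℚ) ((w + c w) / 2)).mpr (by
    intro τ
    rcases key τ with ⟨-, h1, h2⟩ | ⟨-, h1, h2⟩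
    · rw [map_div₀, map_add, h1, h2, map_ofNat]
    · rw [map_div₀, map_add, h1, h2, map_ofNat, add_comm])
  obtain ⟨t, ht⟩ := (IsGalois.mem_range_algebraMap_iff_fixed (F := ℚ)
      ((w - c w) / (2 * ι))).mpr (by
    intro τ
    rcases key τ with ⟨h0, h1, h2⟩ | ⟨h0, h1, h2⟩
    · rw [map_div₀, map_sub, map_mul, h0, h1, h2, map_ofNat]
    · rw [map_div₀, map_sub, map_mul, h0, h1, h2, map_ofNat]
      field_simp
      ring)
  refine ⟨s, t, ?_⟩
  have hs' : (s : L) = (w + c w) / 2 := by rw [← hs]; simp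
  have ht' : (t : L) = (w - c w) / (2 * ι) := by rw [← ht]; simp
  rw [hs', ht']
  field_simp
  ring

private lemma pow_cases {L : Type} [Field L] [CharZero L] {ι : L} (hι : ι ^ 2 = -1)
    (s t q : ℚ) (h : ((s : L) + t * ι) ^ 4 = q) : q = s ^ 4 ∨ q = t ^ 4 ∨ q = -4 * s ^ 4 := by
  have h1 : ((4 * s * t * (s ^ 2 - t ^ 2) : ℚ) : L) * ι =
      ((q - (s ^ 4 - 6 * s ^ 2 * t ^ 2 + t ^ 4) : ℚ) : L) := by
    push_cast
    linear_combination h - (6 * (s:L) ^ 2 * t ^ 2 + 4 * s * t ^ 3 * ι + t ^ 4 * (ι ^ 2 - 1)) * hι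
  have h2 : ((-(4 * s * t * (s ^ 2 - t ^ 2)) ^ 2 : ℚ) : L) =
      (((q - (s ^ 4 - 6 * s ^ 2 * t ^ 2 + t ^ 4)) ^ 2 : ℚ) : L) := by
    rw [Rat.cast_pow (q - (s ^ 4 - 6 * s ^ 2 * t ^ 2 + t ^ 4)), ← h1,
      mul_pow ((4 * s * t * (s ^ 2 - t ^ 2) : ℚ) : L) ι 2, hι]
    push_cast
    ring
  have h3 : -(4 * s * t * (s ^ 2 - t ^ 2)) ^ 2 =
      (q - (s ^ 4 - 6 * s ^ 2 * t ^ 2 + t ^ 4)) ^ 2 := by exact_mod_cast h2
  have h4 : 4 * s * t * (s ^ 2 - t ^ 2) = 0 := by
    have := sq_nonneg (4 * s * t * (s ^ 2 - t ^ 2))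
    have := sq_nonneg (q - (s ^ 4 - 6 * s ^ 2 * t ^ 2 + t ^ 4))
    have h5 : (4 * s * t * (s ^ 2 - t ^ 2)) ^ 2 = 0 := by linarith
    exact pow_eq_zero_iff (two_ne_zero) |>.mp h5
  have h5 : q = s ^ 4 - 6 * s ^ 2 * t ^ 2 + t ^ 4 := by
    rw [h4] at h3
    have : (q - (s ^ 4 - 6 * s ^ 2 * t ^ 2 + t ^ 4)) ^ 2 = 0 := by rw [← h3]; ring
    have := (pow_eq_zero_iff (two_ne_zero)).mp this
    linarith
  rcases mul_eq_zero.mp h4 with h6 | h6
  · rcases mul_eq_zero.mp h6 with h7 | h7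
    · right; left
      have h8 : s = 0 := by linarith
      rw [h5, h8]; ring
    · left
      rw [h5, h7]; ring
  · right; right
    have h7 : t ^ 2 = s ^ 2 := by linarith
    have h8 : t ^ 4 = s ^ 4 := by
      calc t ^ 4 = (t ^ 2) ^ 2 := by ring
        _ = (s ^ 2) ^ 2 := by rw [h7]
        _ = s ^ 4 := by ring
    rw [h5, h8, h7]; ring

private lemma exZ (h : MapHom) {L : Type} [Field L] [CharZero L] [DecidableEq L] (b u : L) :
    ∃ T : (EF b 0).Point →+ (EF b 0).Point, u ^ 4 = 1 →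
      ∀ P x y, AtF P x y → AtF (T P) (u ^ 2 * x) (u ^ 3 * y) := by
  by_cases hu : u ^ 4 = 1
  · have hu0 : u ≠ 0 := by rintro rfl; norm_num at hu
    obtain ⟨T, _, hT⟩ := h L L (RingHom.id L) u hu0 two_ne_zero b b (by rw [hu]; simp)
    exact ⟨T, fun _ P x y hP => by simpa using hT P x y hP⟩
  · exact ⟨0, fun h => absurd h hu⟩

private lemma exS (h : MapHom) {L : Type} [Field L] [Algebra ℚ L] [CharZero L] [DecidableEq L]
    (b : ℤ) (τ : L ≃ₐ[ℚ] L) :
    ∃ T : (EF (b : L) 0).Point →+ (EF (b : L) 0).Point,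
      ∀ P x y, AtF P x y → AtF (T P) (τ x) (τ y) := by
  obtain ⟨T, _, hT⟩ := h L L (τ : L →+* L) 1 one_ne_zero two_ne_zero (b : L) (b : L) (by simp)
  exact ⟨T, fun P x y hP => by simpa using hT P x y hP⟩

/-- The maps `(x, y) ↦ (u² x, u³ y)` on the points of `y² = x³ + b x`. -/
private lemma Z_facts {L : Type} [Field L] [DecidableEq L] {b : L}
    {Z : L → (EF b 0).Point →+ (EF b 0).Point}
    (hZ : ∀ u : L, u ^ 4 = 1 → ∀ P x y, AtF P x y → AtF (Z u P) (u ^ 2 * x) (u ^ 3 * y)) :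
    (∀ P, Z 1 P = P) ∧ (∀ P, Z (-1) P = -P) ∧
    (∀ u v, u ^ 4 = 1 → v ^ 4 = 1 → ∀ P, Z u (Z v P) = Z (u * v) P) := by
  refine ⟨fun P => ?_, fun P => ?_, fun u v hu hv P => ?_⟩
  · rcases zero_orF P with rfl | ⟨x, y, hP⟩
    · simp
    · have h1 := hZ 1 (by norm_num) P x y hP
      rw [one_pow, one_pow, one_mul, one_mul] at h1
      exact h1.eq hP
  · rcases zero_orF P with rfl | ⟨x, y, hP⟩
    · simp
    · have h1 := hZ (-1) (by norm_num) P x y hP
      have e1 : (-1 : L) ^ 2 * x = x := by ring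
      have e2 : (-1 : L) ^ 3 * y = -y := by ring
      rw [e1, e2] at h1
      exact h1.eq hP.neg
  · rcases zero_orF P with rfl | ⟨x, y, hP⟩
    · simp
    · have h1 := hZ u hu _ _ _ (hZ v hv P x y hP)
      have h2 := hZ (u * v) (by rw [mul_pow, hu, hv, one_mul]) P x y hP
      have e1 : u ^ 2 * (v ^ 2 * x) = (u * v) ^ 2 * x := by ring
      have e2 : u ^ 3 * (v ^ 3 * y) = (u * v) ^ 3 * y := by ring
      rw [e1, e2] at h1
      exact h1.eq h2

/-- Step 2: twisting by characters separates the curves. -/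
private lemma step_two (h : MapHom) {L : Type} [Field L] [NumberField L] [IsGalois ℚ L]
    [DecidableEq L] {I : Type} [Fintype I] (a : I → ℤ) (P : ∀ i, (EF (a i : ℚ) 0).Point)
    (ha : ∀ i, a i ≠ 0)
    (hind : ∀ i j, a i ≠ a j → ∀ r : ℚ, (a i : ℚ) ≠ r ^ 4 * a j ∧ (a i : ℚ) ≠ -4 * r ^ 4 * a j)
    (ι : L) (hι : ι ^ 2 = -1) (θ : I → L) (hθ : ∀ i, θ i ^ 4 = a i)
    (Q : I → (EF (1 : L) 0).Point)
    (hQ : ∀ i, ∃ x y : ℚ, AtF (P i) x y ∧ AtF (Q i) ((x : L) / θ i ^ 2) ((y : L) / θ i ^ 3))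
    (n : I → ℤ) (hn : ∑ i, n i • Q i = 0) (j : I) :
    ∃ g : ℤ, g ≠ 0 ∧ ∑ i, (if a i = a j then g * n i else 0) • Q i = 0 := by
  classical
  have hθ0 : ∀ i, θ i ≠ 0 := fun i h0 => by
    have h1 := hθ i
    rw [h0, zero_pow (by norm_num)] at h1
    exact ha i (by exact_mod_cast h1.symm)
  choose Z hZ using fun u : L => exZ h (1 : L) u
  obtain ⟨hZ1, hZm, hZmul⟩ := Z_facts hZ
  have hSex : ∀ τ : L ≃ₐ[ℚ] L, ∃ T : (EF (1 : L) 0).Point →+ (EF (1 : L) 0).Point,
      ∀ P x y, AtF P x y → AtF (T P) (τ x) (τ y) := fun τ => by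
    have := exS h (L := L) 1 τ
    rw [Int.cast_one] at this
    exact this
  choose S hS using hSex
  set χ : I → (L ≃ₐ[ℚ] L) → L := fun i τ => θ i / τ (θ i) with hχ
  have hτθ0 : ∀ i (τ : L ≃ₐ[ℚ] L), τ (θ i) ≠ 0 := fun i τ => by
    simpa using hθ0 i
  have hχ4 : ∀ i τ, χ i τ ^ 4 = 1 := fun i τ => by
    simp only [hχ]
    rw [div_pow, ← map_pow, hθ i, map_intCast, div_self]
    exact_mod_cast ha i
  have hχi4 : ∀ i τ, (χ i τ)⁻¹ ^ 4 = 1 := fun i τ => by
    rw [inv_pow, hχ4, inv_one]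
  have hSQ : ∀ i τ, S τ (Q i) = Z (χ i τ) (Q i) := fun i τ => by
    obtain ⟨x, y, -, hx⟩ := hQ i
    have h1 := hS τ _ _ _ hx
    have h2 := hZ (χ i τ) (hχ4 i τ) _ _ _ hx
    have e1 : τ ((x : L) / θ i ^ 2) = χ i τ ^ 2 * ((x : L) / θ i ^ 2) := by
      have := hθ0 i
      have := hτθ0 i τ
      simp only [hχ]
      rw [map_div₀, map_pow, map_ratCast]
      field_simp
    have e2 : τ ((y : L) / θ i ^ 3) = χ i τ ^ 3 * ((y : L) / θ i ^ 3) := by
      have := hθ0 i
      have := hτθ0 i τ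
      simp only [hχ]
      rw [map_div₀, map_pow, map_ratCast]
      field_simp
    rw [e1, e2] at h1
    exact h1.eq h2
  set G : Finset (L ≃ₐ[ℚ] L) := Finset.univ.filter (fun τ => τ ι = ι) with hG
  have h1G : (1 : L ≃ₐ[ℚ] L) ∈ G := by simp [hG]
  set ψ : I → (L ≃ₐ[ℚ] L) → L := fun i τ => (χ j τ)⁻¹ * χ i τ with hψ
  have hψ4 : ∀ i τ, ψ i τ ^ 4 = 1 := fun i τ => by
    simp only [hψ]
    rw [mul_pow, hχi4, hχ4, one_mul]
  have hψw : ∀ i τ, ψ i τ = (θ i / θ j) / τ (θ i / θ j) := fun i τ => by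
    have := hθ0 i
    have := hθ0 j
    have := hτθ0 i τ
    have := hτθ0 j τ
    simp only [hψ, hχ]
    rw [map_div₀]
    field_simp
  have hrel : ∀ τ, ∑ i, n i • Z (ψ i τ) (Q i) = 0 := fun τ => by
    have h1 : Z (χ j τ)⁻¹ (S τ (∑ i, n i • Q i)) = 0 := by rw [hn, map_zero, map_zero]
    rw [map_sum, map_sum] at h1
    rw [← h1]
    refine Finset.sum_congr rfl fun i _ => ?_
    rw [map_zsmul, map_zsmul, hSQ, hZmul _ _ (hχi4 j τ) (hχ4 i τ)]
  have hrel2 : ∑ i, n i • ∑ τ ∈ G, Z (ψ i τ) (Q i) = 0 := by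
    simp_rw [Finset.smul_sum]
    rw [Finset.sum_comm]
    exact Finset.sum_eq_zero fun τ _ => hrel τ
  -- the inner sums
  have heq : ∀ i, a i = a j → ∑ τ ∈ G, Z (ψ i τ) (Q i) = (G.card : ℤ) • Q i := by
    intro i hi
    have h4 : (θ i / θ j) ^ 4 = 1 := by
      rw [div_pow, hθ i, hθ j, hi, div_self]
      exact_mod_cast ha j
    have h5 : ∀ τ ∈ G, Z (ψ i τ) (Q i) = Q i := by
      intro τ hτ
      have hτι : τ ι = ι := by simpa [hG] using hτ
      have h6 : ψ i τ = 1 := by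
        rw [hψw]
        have h7 : τ (θ i / θ j) = θ i / θ j := by
          rcases fourth hι h4 with h8 | h8 | h8 | h8 <;> rw [h8]
          · simp
          · simp
          · exact hτι
          · rw [map_neg, hτι]
        rw [h7, div_self]
        intro h8
        rw [h8] at h4
        norm_num at h4
      rw [h6, hZ1]
    rw [Finset.sum_congr rfl h5, Finset.sum_const]
    simp
  have hne : ∀ i, a i ≠ a j → (2 : ℤ) • ∑ τ ∈ G, Z (ψ i τ) (Q i) = 0 := by
    intro i hi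
    -- a nontrivial value
    obtain ⟨τ₀, hτ₀ι, hτ₀⟩ : ∃ τ : L ≃ₐ[ℚ] L, τ ι = ι ∧ τ (θ i / θ j) ≠ θ i / θ j := by
      by_contra hcon
      push Not at hcon
      obtain ⟨s, t, hst⟩ := mem_qi hι (θ i / θ j) hcon
      have hq : ((s : L) + t * ι) ^ 4 = ((a i / a j : ℚ) : L) := by
        rw [← hst, div_pow, hθ, hθ]
        push_cast
        rfl
      have haj : (a j : ℚ) ≠ 0 := by exact_mod_cast ha j
      rcases pow_cases hι s t _ hq with h1 | h1 | h1
      · rw [div_eq_iff haj] at h1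
        exact (hind i j hi s).1 h1
      · rw [div_eq_iff haj] at h1
        exact (hind i j hi t).1 h1
      · rw [div_eq_iff haj] at h1
        exact (hind i j hi s).2 h1
    set W := ∑ τ ∈ G, Z (ψ i τ) (Q i) with hW
    have hw0 : θ i / θ j ≠ 0 := div_ne_zero (hθ0 i) (hθ0 j)
    have hZW : Z (ψ i τ₀) W = W := by
      rw [hW, map_sum]
      have h1 : ∀ τ ∈ G, Z (ψ i τ₀) (Z (ψ i τ) (Q i)) = Z (ψ i (τ₀ * τ)) (Q i) := by
        intro τ _
        rw [hZmul _ _ (hψ4 i τ₀) (hψ4 i τ)]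
        congr 2
        have h2 : τ₀ (ψ i τ) = ψ i τ := by
          rcases fourth hι (hψ4 i τ) with h8 | h8 | h8 | h8 <;> rw [h8]
          · simp
          · simp
          · exact hτ₀ι
          · rw [map_neg, hτ₀ι]
        rw [← h2, hψw i τ₀, hψw i τ, hψw i (τ₀ * τ), AlgEquiv.mul_apply,
          map_div₀ τ₀ (θ i / θ j)]
        have h3 : τ₀ (θ i / θ j) ≠ 0 := by
          rw [Ne, EmbeddingLike.map_eq_zero_iff]; exact hw0
        have h4 : τ₀ (τ (θ i / θ j)) ≠ 0 := by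
          rw [Ne, EmbeddingLike.map_eq_zero_iff, EmbeddingLike.map_eq_zero_iff]; exact hw0
        field_simp
      rw [Finset.sum_congr rfl h1]
      refine Finset.sum_bij' (fun τ _ => τ₀ * τ) (fun τ _ => τ₀⁻¹ * τ) ?_ ?_ ?_ ?_ ?_
      · intro τ hτ
        have hτι : τ ι = ι := by simpa [hG] using hτ
        simp only [hG, Finset.mem_filter, Finset.mem_univ, true_and]
        rw [AlgEquiv.mul_apply, hτι, hτ₀ι]
      · intro τ hτ
        have hτι : τ ι = ι := by simpa [hG] using hτ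
        simp only [hG, Finset.mem_filter, Finset.mem_univ, true_and]
        rw [AlgEquiv.mul_apply, hτι]
        have : τ₀⁻¹ (τ₀ ι) = ι := by
          rw [← AlgEquiv.mul_apply, inv_mul_cancel, AlgEquiv.one_apply]
        rwa [hτ₀ι] at this
      · intro τ _
        exact inv_mul_cancel_left _ _
      · intro τ _
        exact mul_inv_cancel_left _ _
      · intro τ _
        rfl
    have hneg : -W = W := by
      rcases fourth hι (hψ4 i τ₀) with h8 | h8 | h8 | h8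
      · exfalso
        rw [hψw] at h8
        apply hτ₀
        have h3 : τ₀ (θ i / θ j) ≠ 0 := by
          rw [Ne, EmbeddingLike.map_eq_zero_iff]; exact hw0
        exact ((div_eq_one_iff_eq h3).mp h8).symm
      · rw [h8, hZm] at hZW
        exact hZW
      · have h9 : Z (ψ i τ₀) (Z (ψ i τ₀) W) = W := by rw [hZW, hZW]
        rw [hZmul _ _ (hψ4 i τ₀) (hψ4 i τ₀), h8, ← sq, hι, hZm] at h9
        exact h9
      · have h9 : Z (ψ i τ₀) (Z (ψ i τ₀) W) = W := by rw [hZW, hZW]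
        rw [hZmul _ _ (hψ4 i τ₀) (hψ4 i τ₀), h8, neg_mul_neg, ← sq, hι, hZm] at h9
        exact h9
    rw [two_zsmul]
    nth_rewrite 1 [← hneg]
    exact neg_add_cancel W
  refine ⟨2 * G.card, ?_, ?_⟩
  · have : 0 < G.card := Finset.card_pos.mpr ⟨1, h1G⟩
    positivity
  · have h1 : (2 : ℤ) • ∑ i, n i • ∑ τ ∈ G, Z (ψ i τ) (Q i) = 0 := by rw [hrel2, smul_zero]
    rw [Finset.smul_sum] at h1
    rw [← h1]
    refine Finset.sum_congr rfl fun i _ => ?_
    by_cases hi : a i = a j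
    · rw [if_pos hi, heq i hi, smul_smul, smul_smul]
      congr 1
      ring
    · rw [if_neg hi, zero_smul, smul_comm, hne i hi, smul_zero]

theorem indepL (h : MapHom) : IndepL := by
  intro L _ _ _ _ I _ a P ha hind ι hι θ hθ Q hQ n hn j
  classical
  have hθ0 : ∀ i, θ i ≠ 0 := fun i h0 => by
    have h1 := hθ i
    rw [h0, zero_pow (by norm_num)] at h1
    exact ha i (by exact_mod_cast h1.symm)
  obtain ⟨g, hg0, hg⟩ := step_two h a P ha hind.1 ι hι θ hθ Q hQ n hn j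
  set m : I → ℤ := fun i => if a i = a j then g * n i else 0 with hm
  -- the map to `y² = x³ + a_j x` over `L`
  obtain ⟨U, -, hU⟩ := h L L (RingHom.id L) (θ j) (hθ0 j) two_ne_zero 1 ((a j : ℤ) : L)
    (by rw [hθ j]; simp)
  obtain ⟨T, hTinj, hT⟩ := h ℚ L (algebraMap ℚ L) 1 one_ne_zero two_ne_zero
    ((a j : ℤ) : ℚ) ((a j : ℤ) : L) (by simp)
  have hT' : ∀ (P : (EF ((a j : ℤ) : ℚ) 0).Point) (x y : ℚ), AtF P x y →
      AtF (T P) (x : L) (y : L) := fun P x y hP => by simpa using hT P x y hP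
  choose J hJ using fun u : L => exZ h ((a j : ℤ) : L) u
  obtain ⟨hJ1, hJm, hJmul⟩ := Z_facts hJ
  obtain ⟨c, hc⟩ := exists_conj hι
  obtain ⟨C, hC⟩ := exS h (a j) c
  -- the points over `ℚ`
  have hSex : ∀ i, ∃ R : (EF ((a j : ℤ) : ℚ) 0).Point, a i = a j →
      ∃ x y : ℚ, AtF (P i) x y ∧ AtF R x y ∧
        AtF (Q i) ((x : L) / θ i ^ 2) ((y : L) / θ i ^ 3) := by
    intro i
    by_cases hi : a i = a j
    · obtain ⟨x, y, hx, hx'⟩ := hQ i
      have hns : (EF ((a j : ℤ) : ℚ) 0).Nonsingular x y := by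
        obtain ⟨h1, -⟩ := hx
        rw [← hi]; exact h1
      exact ⟨.some x y hns, fun _ => ⟨x, y, hx, ⟨hns, rfl⟩, hx'⟩⟩
    · exact ⟨0, fun h => absurd h hi⟩
  choose R hR using hSex
  -- images of the points
  have hι4 : ι ^ 4 = 1 := by
    calc ι ^ 4 = (ι ^ 2) ^ 2 := by ring
      _ = 1 := by rw [hι]; ring
  have hεδ : ∀ i, ∃ ε δ : ℤ, (i = j → ε = 1) ∧ (a i = a j →
      U (Q i) = ε • T (R i) + δ • J ι (T (R i))) := by
    intro i
    by_cases hij : i = j
    · subst hij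
      refine ⟨1, 0, fun _ => rfl, fun _ => ?_⟩
      obtain ⟨x, y, -, hxR, hxQ⟩ := hR i rfl
      have h1 := hU _ _ _ hxQ
      have h2 := hT' _ _ _ hxR
      rw [RingHom.id_apply, RingHom.id_apply, mul_div_cancel₀ _ (pow_ne_zero 2 (hθ0 i)),
        mul_div_cancel₀ _ (pow_ne_zero 3 (hθ0 i))] at h1
      rw [one_smul, zero_smul, add_zero]
      exact h1.eq h2
    by_cases hi : a i = a j
    · obtain ⟨x, y, -, hxR, hxQ⟩ := hR i hi
      have h1 := hU _ _ _ hxQ
      have h2 := hT' _ _ _ hxR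
      have hρ4 : (θ j / θ i) ^ 4 = 1 := by
        rw [div_pow, hθ i, hθ j, hi, div_self]
        exact_mod_cast ha j
      have h3 := hJ (θ j / θ i) hρ4 _ _ _ h2
      have e1 : θ j ^ 2 * (RingHom.id L) ((x : L) / θ i ^ 2) = (θ j / θ i) ^ 2 * x := by
        have := hθ0 i
        rw [RingHom.id_apply]
        field_simp
      have e2 : θ j ^ 3 * (RingHom.id L) ((y : L) / θ i ^ 3) = (θ j / θ i) ^ 3 * y := by
        have := hθ0 i
        rw [RingHom.id_apply]
        field_simp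
      rw [e1, e2] at h1
      have h4 : U (Q i) = J (θ j / θ i) (T (R i)) := h1.eq h3
      rcases fourth hι hρ4 with h8 | h8 | h8 | h8
      · refine ⟨1, 0, fun h => absurd h hij, fun _ => ?_⟩
        rw [h4, h8, hJ1, one_smul, zero_smul, add_zero]
      · refine ⟨-1, 0, fun h => absurd h hij, fun _ => ?_⟩
        rw [h4, h8, hJm, neg_one_zsmul, zero_smul, add_zero]
      · refine ⟨0, 1, fun h => absurd h hij, fun _ => ?_⟩
        rw [h4, h8, one_smul, zero_smul, zero_add]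
      · refine ⟨0, -1, fun h => absurd h hij, fun _ => ?_⟩
        rw [h4, h8, neg_one_zsmul, zero_smul, zero_add, ← hJm,
          hJmul _ _ (by norm_num) hι4, neg_one_mul]
    · exact ⟨0, 0, fun h => absurd h hij, fun h => absurd h hi⟩
  choose ε δ hε hεδ using hεδ
  set A : (EF ((a j : ℤ) : ℚ) 0).Point := ∑ i, (m i * ε i) • R i with hA
  set B : (EF ((a j : ℤ) : ℚ) 0).Point := ∑ i, (m i * δ i) • R i with hB
  have hAB : T A + J ι (T B) = 0 := by
    have h1 : U (∑ i, m i • Q i) = 0 := by rw [hg, map_zero]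
    rw [map_sum] at h1
    rw [hA, hB, map_sum, map_sum, map_sum, ← Finset.sum_add_distrib, ← h1]
    refine Finset.sum_congr rfl fun i _ => ?_
    rw [map_zsmul, map_zsmul, map_zsmul, map_zsmul]
    by_cases hi : a i = a j
    · rw [hεδ i hi, smul_add, smul_smul, smul_smul]
    · have : m i = 0 := by rw [hm]; exact if_neg hi
      rw [this]; simp
  have hCT : ∀ P, C (T P) = T P := by
    intro P
    rcases zero_orF P with rfl | ⟨x, y, hP⟩
    · simp
    · have h1 := hT' _ _ _ hP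
      have h2 := hC _ _ _ h1
      rw [map_ratCast, map_ratCast] at h2
      exact h2.eq h1
  have hCJ : ∀ P, C (J ι (T P)) = -J ι (T P) := by
    intro P
    rcases zero_orF P with rfl | ⟨x, y, hP⟩
    · simp
    · have h1 := hJ ι hι4 _ _ _ (hT' _ _ _ hP)
      have h2 := hC _ _ _ h1
      have e1 : c (ι ^ 2 * (x : L)) = ι ^ 2 * x := by
        rw [map_mul, map_pow, hc, map_ratCast, neg_sq]
      have e2 : c (ι ^ 3 * (y : L)) = -(ι ^ 3 * y) := by
        rw [map_mul, map_pow, hc, map_ratCast]; ring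
      rw [e1, e2] at h2
      exact h2.eq h1.neg
  have hAB' : T A - J ι (T B) = 0 := by
    have h1 := congrArg C hAB
    rw [map_add, map_zero, hCT, hCJ] at h1
    rw [sub_eq_add_neg]
    exact h1
  have h2A : T ((2 : ℤ) • A) = 0 := by
    rw [map_zsmul, two_zsmul]
    have : T A + T A = (T A + J ι (T B)) + (T A - J ι (T B)) := by abel
    rw [this, hAB, hAB', add_zero]
  have h2A' : (2 : ℤ) • A = 0 := hTinj (by rw [h2A, map_zero])
  rw [hA, Finset.smul_sum] at h2A'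
  have hfin := hind.2 (a j) R (fun i hi => by
      obtain ⟨x, y, h1, h2, -⟩ := hR i hi
      exact ⟨x, y, h1, h2⟩) (fun i => 2 * (m i * ε i)) (fun i hi => by
      by_contra hne
      apply hi
      have : m i = 0 := by rw [hm]; exact if_neg hne
      simp [this]) (by
      rw [← h2A']
      refine Finset.sum_congr rfl fun i _ => ?_
      rw [smul_smul]) j
  simp only [hm, if_true, hε j rfl, mul_one] at hfin
  rcases mul_eq_zero.mp hfin with h1 | h1
  · norm_num at h1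
  · rcases mul_eq_zero.mp h1 with h2 | h2
    · exact absurd h2 hg0
    · exact h2

end Pool.Agent.Helper63.LT
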