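import Pool.Agent.Helper63.LT.Cover

/-!
# Project LT, module LT-11: the main theorem for families indexed by a finite type
-/

set_option autoImplicit false

open Finset Filter Topology

namespace Pool.Agent.Helper63.LT

open WeierstrassCurve Pool.Agent.Helper10.SS Pool.Agent.Helper18.BV

/-- few integers `n ≤ x` with `r ^ 2 ∣ n + 1` for some `r > w` -/
lemma card_sq_le {x w : ℝ} (hx : 1 ≤ x) (hw : 2 ≤ w) (F : Finset ℕ)
    (hF : ∀ n ∈ F, (n : ℝ) ≤ x ∧ ∃ r : ℕ, w < (r : ℝ) ∧ r ^ 2 ∣ n + 1) :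
    (F.card : ℝ) ≤ 4 * x / w := by
  classical
  set m : ℕ := ⌊w⌋₊ with hm
  set N : ℕ := ⌊x⌋₊ + 1 with hN
  have hm2 : 2 ≤ m := Nat.le_floor (by exact_mod_cast hw)
  have hx0 : 0 ≤ x := by linarith
  have hcov : F ⊆ (Finset.Ioc m N).biUnion (fun r => (Finset.range N).filter
      (fun n => r ^ 2 ∣ n + 1)) := by
    intro n hn
    obtain ⟨h1, r, h2, h3⟩ := hF n hn
    have hnx : n ≤ ⌊x⌋₊ := Nat.le_floor h1
    rw [Finset.mem_biUnion]
    refine ⟨r, ?_, ?_⟩
    · rw [Finset.mem_Ioc]
      constructor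
      · have : (m : ℝ) ≤ w := Nat.floor_le (by linarith)
        exact_mod_cast lt_of_le_of_lt this h2
      · have h4 := Nat.le_of_dvd (by omega) h3
        have h5 : r ≤ r ^ 2 := Nat.le_self_pow (by norm_num) r
        omega
    · rw [Finset.mem_filter, Finset.mem_range]
      exact ⟨by omega, h3⟩
  have hcard : ∀ r ∈ Finset.Ioc m N, (((Finset.range N).filter
      (fun n => r ^ 2 ∣ n + 1)).card : ℝ) ≤ (N : ℝ) * ((r : ℝ) ^ 2)⁻¹ := by
    intro r hr
    have hr0 : 0 < r := by
      have := (Finset.mem_Ioc.1 hr).1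
      omega
    have h1 : ((Finset.range N).filter (fun n => r ^ 2 ∣ n + 1)).card = N / r ^ 2 := by
      rw [← Nat.card_multiples]
    rw [h1]
    calc ((N / r ^ 2 : ℕ) : ℝ) ≤ (N : ℝ) / ((r ^ 2 : ℕ) : ℝ) := Nat.cast_div_le
      _ = (N : ℝ) * ((r : ℝ) ^ 2)⁻¹ := by push_cast; rw [div_eq_mul_inv]
  have h1 : (F.card : ℝ) ≤ ∑ r ∈ Finset.Ioc m N, (N : ℝ) * ((r : ℝ) ^ 2)⁻¹ := by
    calc (F.card : ℝ) ≤ ((∑ r ∈ Finset.Ioc m N, ((Finset.range N).filter
          (fun n => r ^ 2 ∣ n + 1)).card : ℕ) : ℝ) := by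
          exact_mod_cast (Finset.card_le_card hcov).trans Finset.card_biUnion_le
      _ = ∑ r ∈ Finset.Ioc m N, (((Finset.range N).filter
          (fun n => r ^ 2 ∣ n + 1)).card : ℝ) := by push_cast; rfl
      _ ≤ _ := Finset.sum_le_sum hcard
  rw [← Finset.mul_sum] at h1
  have hNx : (N : ℝ) ≤ 2 * x := by
    have : (⌊x⌋₊ : ℝ) ≤ x := Nat.floor_le hx0
    rw [hN]; push_cast; linarith
  have hsum : ∑ r ∈ Finset.Ioc m N, ((r : ℝ) ^ 2)⁻¹ ≤ 2 / w := by
    by_cases hmN : m ≤ N
    · refine (sum_Ioc_inv_sq_le_sub (by omega) hmN).trans ?_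
      have h2 : w < m + 1 := Nat.lt_floor_add_one w
      have h3 : (2 : ℝ) ≤ m := by exact_mod_cast hm2
      have h4 : ((m : ℝ))⁻¹ ≤ 2 / w := by
        rw [inv_eq_one_div, div_le_div_iff₀ (by linarith) (by linarith)]
        linarith
      have h5 : (0 : ℝ) ≤ ((N : ℝ))⁻¹ := by positivity
      linarith
    · rw [Finset.Ioc_eq_empty (by omega), Finset.sum_empty]
      positivity
  calc (F.card : ℝ) ≤ (N : ℝ) * ∑ r ∈ Finset.Ioc m N, ((r : ℝ) ^ 2)⁻¹ := h1
    _ ≤ (2 * x) * (2 / w) := by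
        apply mul_le_mul hNx hsum (Finset.sum_nonneg fun r _ => by positivity) (by linarith)
    _ = 4 * x / w := by ring

theorem mainI (hS : SpecialPlus) (hP : PatternInt) (hG : Grp) (hR : RankEC) :
    MainI := by
  classical
  obtain ⟨α, hα0, hα1, hsp⟩ := hS
  obtain ⟨c, hrk⟩ := hR
  set r0 : ℕ := ⌊2 / α⌋₊ + 1 with hr0
  set k0 : ℕ := ⌈2 * c / α⌉₊ + 1 with hk0
  have hk0pos : 0 < k0 := by omega
  have hk0α : (c : ℝ) / k0 ≤ α / 2 := by
    have h1 : 2 * c / α ≤ (k0 : ℝ) := by
      have := Nat.le_ceil (2 * (c : ℝ) / α)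
      rw [hk0]; push_cast; linarith
    have h2 : (0 : ℝ) < k0 := by exact_mod_cast hk0pos
    rw [div_le_iff₀ hα0] at h1
    rw [div_le_iff₀ h2]
    linarith
  refine ⟨4 * (r0 * k0), ?_⟩
  intro I _ a P hP0 hind h1 h2
  have hex : ∀ i, ∃ x y, AtF (P i) x y := fun i => (zero_orF (P i)).resolve_left (hP0 i)
  choose X Y hXY using hex
  have ha : ∀ i, a i ≠ 0 := by
    intro i h0
    apply (h1 i 0).1
    rw [h0]
    norm_num
  -- the pattern
  have hden : ∀ i, (((X i).den : ℕ) : ℚ) ≠ 0 := fun i => by exact_mod_cast (X i).den_ne_zero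
  have hXi : ∀ i, (X i : ℚ) * (X i).den = (X i).num := fun i => Rat.mul_den_eq_num (X i)
  obtain ⟨v, u, hv, huv, h4v, hu4, hru, T, hTc, hpat⟩ := hP I (fun i => -a i)
    (fun i => (X i).num * (X i).den) (by
      intro i
      have hd := hden i
      have hx := hXi i
      refine ⟨?_, ?_, ?_, ?_, ?_, ?_⟩
      · rintro ⟨s, hs⟩
        apply (h1 i s).1
        have : ((-a i : ℤ) : ℚ) = ((s * s : ℤ) : ℚ) := by exact_mod_cast hs
        push_cast at this
        rw [this]; ring
      · rintro ⟨s, hs⟩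
        apply (h1 i (s / 3)).2
        have : ((-3 * -a i : ℤ) : ℚ) = ((s * s : ℤ) : ℚ) := by exact_mod_cast hs
        push_cast at this
        linear_combination (-1 / 3 : ℚ) * this
      · rintro ⟨s, hs⟩
        apply (h2 i _ _ (hXY i) (s / (X i).den)).1
        have h3 : (((X i).num : ℤ) : ℚ) * (X i).den = s * s := by exact_mod_cast hs
        rw [div_pow, eq_div_iff (pow_ne_zero _ hd)]
        rw [← hx] at h3
        linear_combination h3
      · rintro ⟨s, hs⟩
        apply (h2 i _ _ (hXY i) (s / (3 * (X i).den))).2.1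
        have h3 : (-3 : ℚ) * ((((X i).num : ℤ) : ℚ) * (X i).den) = s * s := by exact_mod_cast hs
        rw [← hx] at h3
        field_simp
        linear_combination (-1 : ℚ) * h3
      · rintro ⟨s, hs⟩
        apply (h2 i _ _ (hXY i) (s / (X i).den)).2.2.1
        have h3 : -(-(a i : ℚ) * ((((X i).num : ℤ) : ℚ) * (X i).den)) = s * s := by
          exact_mod_cast hs
        rw [div_pow, eq_div_iff (pow_ne_zero _ hd)]
        rw [← hx] at h3
        linear_combination h3
      · rintro ⟨s, hs⟩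
        apply (h2 i _ _ (hXY i) (s / (3 * (X i).den))).2.2.2
        have h3 : (3 : ℚ) * (-(a i : ℚ) * ((((X i).num : ℤ) : ℚ) * (X i).den)) = s * s := by
          exact_mod_cast hs
        rw [← hx] at h3
        field_simp
        linear_combination (-1 : ℚ) * h3)
  -- constants
  set τ : ℝ := α / 4 with hτ
  have hτ0 : 0 < τ := by rw [hτ]; linarith
  have hτ1 : τ ≤ 1 / 8 := by rw [hτ]; linarith
  obtain ⟨g, hg, hgne, hg1, hg0⟩ := exists_wt hτ0 (by linarith)
  obtain ⟨c1, X0, hc1, hX0, hmass⟩ := hsp v u hv huv ((by norm_num : (2 : ℕ) ∣ 4).trans h4v) hru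
    g hg hgne
  by_contra hcon
  push Not at hcon
  set N : ℕ := Fintype.card I with hN
  set Pr : ℕ → Prop := fun p => p.Prime ∧
    N ≤ 4 * {i : I | Primitive (a i) (P i) p}.ncard + 4 * (r0 * k0) with hPr
  set c' : ℝ := c1 / 32 with hc'
  have hc'0 : 0 < c' := by rw [hc']; positivity
  obtain ⟨z0, hz0⟩ := hcon c' hc'0
  -- the rank lemma for all subsets
  have hrank : ∀ J : Finset I, ∃ C : ℝ, 0 < C ∧ (J.card = k0 → ∀ y : ℝ, 1 ≤ y →
      ∀ S : Finset ℕ, (∀ p ∈ S, Small (fun i : J => a i) (fun i : J => P i) p y) →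
      (S.card : ℝ) ≤ C * y ^ (1 + (c : ℝ) / k0)) := by
    intro J
    by_cases hJ : J.card = k0
    · have : Nonempty J := by
        have : J.Nonempty := by
          rw [← Finset.card_pos, hJ]
          exact hk0pos
        exact this.to_subtype
      obtain ⟨C, hC0, hC⟩ := hrk J (fun i => a i) (fun i => P i) (fun i => ha i)
        (fun i => hP0 i) (indep_sub hP0 hind J)
      refine ⟨C, hC0, fun _ y hy S hS => ?_⟩
      have := hC y hy S hS
      rwa [Fintype.card_coe, hJ] at this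
    · exact ⟨1, one_pos, fun h => absurd h hJ⟩
  choose CJ hCJ0 hCJ using hrank
  set C : ℝ := 4 + ∑ J : Finset I, 4 * CJ J with hC
  have hC0 : 0 ≤ C := by
    have : 0 ≤ ∑ J : Finset I, 4 * CJ J :=
      Finset.sum_nonneg fun J _ => mul_nonneg (by norm_num) (hCJ0 J).le
    linarith
  set D0 : ℕ := ∏ i, (X i).den * (Y i).den with hD0
  have hD0pos : 0 < D0 := Finset.prod_pos fun i _ => Nat.mul_pos (X i).den_pos (Y i).den_pos
  -- the key inequality
  have key : ∀ x : ℝ, X0 ≤ x → 4 ≤ x → 2 ≤ x ^ α → (D0 : ℝ) < x ^ (1 - τ) →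
      z0 ≤ x ^ (1 - τ) → c1 / 2 ≤ C * (Real.log x * x ^ (-τ)) := by
    intro x hx0 hx4 hxα hxD hxz
    have hx1 : 1 < x := by linarith
    have hxpos : 0 < x := by linarith
    have hlog : 0 < Real.log x := Real.log_pos hx1
    set E : Finset ℕ := (Finset.range (⌊x⌋₊ + 1)).filter (fun p => p.Prime ∧ p ≡ u [MOD v] ∧
      ∀ r : ℕ, r.Prime → r ∣ p + 1 → r = 2 ∨ x ^ α < (r : ℝ)) with hE
    have hEmem : ∀ p : ℕ, p ∈ E ↔ (p.Prime ∧ (p : ℝ) ≤ x ∧ p ≡ u [MOD v] ∧
        ∀ r : ℕ, r.Prime → r ∣ p + 1 → r = 2 ∨ x ^ α < (r : ℝ)) := by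
      intro p
      rw [hE, Finset.mem_filter, Finset.mem_range, Nat.lt_succ_iff, Nat.le_floor_iff hxpos.le]
      tauto
    have hm := hmass x hx0 E hEmem
    set E' : Finset ℕ := E.filter (fun p => x ^ (1 - τ) < (p : ℝ)) with hE'
    have hE'mem : ∀ p ∈ E', p.Prime ∧ (p : ℝ) ≤ x ∧ x ^ (1 - τ) < (p : ℝ) ∧ p ≡ u [MOD v] ∧
        ∀ r : ℕ, r.Prime → r ∣ p + 1 → r = 2 ∨ x ^ α < (r : ℝ) := by
      intro p hp
      obtain ⟨hpE, hpx⟩ := Finset.mem_filter.1 hp
      obtain ⟨a1, a2, a3, a4⟩ := (hEmem p).1 hpE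
      exact ⟨a1, a2, hpx, a3, a4⟩
    -- only `E'` matters
    have h3 : ∑ p ∈ E, Real.log p * wt g x p = ∑ p ∈ E', Real.log p * wt g x p := by
      symm
      apply Finset.sum_subset (Finset.filter_subset _ _)
      intro p hpE hpE'
      have hple : (p : ℝ) ≤ x ^ (1 - τ) := by
        by_contra hlt
        exact hpE' (Finset.mem_filter.2 ⟨hpE, not_le.1 hlt⟩)
      have hp := ((hEmem p).1 hpE).1
      have hp0 : (0 : ℝ) < p := by exact_mod_cast hp.pos
      have hlp : Real.log p ≤ (1 - τ) * Real.log x := by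
        rw [← Real.log_rpow hxpos]
        exact Real.log_le_log hp0 hple
      have : g (Real.log p / Real.log x) = 0 := by
        apply hg0
        rw [div_le_iff₀ hlog]
        exact hlp
      rw [wt, this]; simp
    -- covering
    set B : Finset I → Finset ℕ := fun J => E'.filter (fun p => J.card = k0 ∧
      Small (fun i : J => a i) (fun i : J => P i) p (2 * x ^ (1 - α))) with hB
    set NS : Finset ℕ := E'.filter (fun p => ∃ r : ℕ, x ^ α < (r : ℝ) ∧ r ^ 2 ∣ p + 1) with hNS
    set F : Finset ℕ := E'.filter Pr with hF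
    have hcov : E' ⊆ F ∪ (NS ∪ (Finset.univ : Finset (Finset I)).biUnion B) := by
      intro p hp
      obtain ⟨hpp, hple, hpx, hpu, hpr⟩ := hE'mem p hp
      by_cases hns : ∃ r : ℕ, x ^ α < (r : ℝ) ∧ r ^ 2 ∣ p + 1
      · exact Finset.mem_union_right _ (Finset.mem_union_left _ (Finset.mem_filter.2 ⟨hp, hns⟩))
      · have hsq : ∀ r : ℕ, r.Prime → r ∣ p + 1 → r = 2 ∨ ¬ r ^ 2 ∣ p + 1 := by
          intro r hr hrd
          rcases hpr r hr hrd with h | h
          · exact Or.inl h
          · exact Or.inr fun h' => hns ⟨r, h, h'⟩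
        have h4 : p % 4 = 3 := by
          have : p ≡ u [MOD 4] := hpu.of_dvd h4v
          rw [Nat.ModEq] at this
          omega
        have hpD : ¬ p ∣ D0 := by
          intro h
          have := Nat.le_of_dvd hD0pos h
          have h5 : (p : ℝ) ≤ D0 := by exact_mod_cast this
          linarith
        have hdX : ∀ i, ¬ p ∣ (X i).den := fun i h => hpD ((h.mul_right _).trans
          (Finset.dvd_prod_of_mem (fun i => (X i).den * (Y i).den) (Finset.mem_univ i)))
        have hdY : ∀ i, ¬ p ∣ (Y i).den := fun i h => hpD ((h.mul_left _).trans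
          (Finset.dvd_prod_of_mem (fun i => (X i).den * (Y i).den) (Finset.mem_univ i)))
        rcases cover_one hG a P X Y hXY hα0 (by linarith) k0 r0 hk0pos (Nat.lt_succ_self _) T hpp
          hple h4 hdX hdY (hpat p hpp hpu) hpr hsq with h | ⟨J, -, hJ1, hJ2⟩
        · apply Finset.mem_union_left
          rw [hF, Finset.mem_filter]
          refine ⟨hp, hpp, ?_⟩
          omega
        · apply Finset.mem_union_right
          apply Finset.mem_union_right
          rw [Finset.mem_biUnion]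
          exact ⟨J, Finset.mem_univ _, Finset.mem_filter.2 ⟨hp, hJ1, hJ2⟩⟩
    have hnn : ∀ p : ℕ, 0 ≤ Real.log p * wt g x p := by
      intro p
      rcases Nat.eq_zero_or_pos p with rfl | hp
      · simp
      · exact mul_nonneg (Real.log_nonneg (by exact_mod_cast hp))
          (div_nonneg (hg.nonneg _) (Nat.cast_nonneg _))
    have hun : ∀ s t : Finset ℕ, ∑ p ∈ s ∪ t, Real.log p * wt g x p ≤
        ∑ p ∈ s, Real.log p * wt g x p + ∑ p ∈ t, Real.log p * wt g x p := by
      intro s t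
      rw [← Finset.sum_union_inter]
      have : 0 ≤ ∑ p ∈ s ∩ t, Real.log p * wt g x p := Finset.sum_nonneg fun p _ => hnn p
      linarith
    have hsplit : ∑ p ∈ E', Real.log p * wt g x p ≤
        ∑ p ∈ F, Real.log p * wt g x p + (∑ p ∈ NS, Real.log p * wt g x p +
          ∑ J : Finset I, ∑ p ∈ B J, Real.log p * wt g x p) := by
      calc ∑ p ∈ E', Real.log p * wt g x p
          ≤ ∑ p ∈ F ∪ (NS ∪ (Finset.univ : Finset (Finset I)).biUnion B),
              Real.log p * wt g x p :=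
            Finset.sum_le_sum_of_subset_of_nonneg hcov (fun p _ _ => hnn p)
        _ ≤ _ := by
            refine (hun _ _).trans (add_le_add le_rfl ((hun _ _).trans (add_le_add le_rfl ?_)))
            exact sum_biUnion_le' _ _ _ hnn
    -- contribution of the good primes
    have hFs : ∑ p ∈ F, Real.log p * wt g x p ≤ 16 * c' := by
      have hterm : ∀ p ∈ F, Real.log p * wt g x p ≤ Real.log p / p := by
        intro p hp
        have hpp := (hE'mem p (Finset.mem_filter.1 hp).1).1
        have hp0 : (0 : ℝ) < p := by exact_mod_cast hpp.pos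
        have hlp0 : 0 ≤ Real.log p := Real.log_nonneg (by exact_mod_cast hpp.one_le)
        rw [div_eq_mul_one_div]
        apply mul_le_mul_of_nonneg_left _ hlp0
        exact div_le_div_of_nonneg_right (hg1 _) hp0.le
      refine (Finset.sum_le_sum hterm).trans ?_
      apply dyadic hc'0.le hx4 (z := x ^ (1 - τ))
      · exact Real.rpow_le_rpow_of_exponent_le hx1.le (by linarith)
      · intro p hp
        obtain ⟨_, a2, a3, _⟩ := hE'mem p (Finset.mem_filter.1 hp).1
        exact ⟨a3.le, a2⟩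
      · intro y hy
        refine le_trans ?_ (hz0 y (hxz.trans hy)).le
        have hy0 : 0 ≤ y := (Real.rpow_nonneg hxpos.le _).trans hy
        have hfin : {p : ℕ | p.Prime ∧ (p : ℝ) ≤ y ∧
            N ≤ 4 * {i : I | Primitive (a i) (P i) p}.ncard + 4 * (r0 * k0)}.Finite := by
          apply (Finset.finite_toSet (Finset.range (⌊y⌋₊ + 1))).subset
          intro p hp
          rw [Finset.mem_coe, Finset.mem_range, Nat.lt_succ_iff, Nat.le_floor_iff hy0]
          exact hp.2.1
        rw [← Set.ncard_coe_finset]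
        have : ((F.filter (fun p : ℕ => (p : ℝ) ≤ y) : Finset ℕ) : Set ℕ).ncard ≤
            {p : ℕ | p.Prime ∧ (p : ℝ) ≤ y ∧
            N ≤ 4 * {i : I | Primitive (a i) (P i) p}.ncard + 4 * (r0 * k0)}.ncard := by
          apply Set.ncard_le_ncard _ hfin
          intro p hp
          obtain ⟨hp1, hp2⟩ := Finset.mem_filter.1 (Finset.mem_coe.1 hp)
          obtain ⟨-, hp3, hp4⟩ := Finset.mem_filter.1 hp1
          exact ⟨hp3, hp2, hp4⟩
        exact_mod_cast this
    -- small sets
    have hsmall : ∀ (Z : Finset ℕ) (K : ℝ), 0 ≤ K → Z ⊆ E' → (Z.card : ℝ) ≤ K * x ^ (1 - α / 2) →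
        ∑ p ∈ Z, Real.log p * wt g x p ≤ K * (Real.log x * x ^ (-τ)) := by
      intro Z K hK hZ hcard
      calc ∑ p ∈ Z, Real.log p * wt g x p ≤ ∑ p ∈ Z, Real.log x * x ^ (τ - 1) := by
            apply Finset.sum_le_sum
            intro p hp
            obtain ⟨hpp, hple, hpx, _, _⟩ := hE'mem p (hZ hp)
            have hp0 : (0 : ℝ) < p := by exact_mod_cast hpp.pos
            have hlp : Real.log p ≤ Real.log x := Real.log_le_log hp0 hple
            have hxt : 0 < x ^ (1 - τ) := Real.rpow_pos_of_pos hxpos _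
            have hw : wt g x p ≤ x ^ (τ - 1) := by
              unfold wt
              calc g (Real.log p / Real.log x) / p ≤ 1 / x ^ (1 - τ) :=
                    div_le_div₀ zero_le_one (hg1 _) hxt hpx.le
                _ = x ^ (τ - 1) := by
                    rw [one_div, ← Real.rpow_neg hxpos.le]; congr 1; ring
            have hw0 : 0 ≤ wt g x p := div_nonneg (hg.nonneg _) hp0.le
            exact mul_le_mul hlp hw hw0 hlog.le
        _ = (Z.card : ℝ) * (Real.log x * x ^ (τ - 1)) := by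
            rw [Finset.sum_const, nsmul_eq_mul]
        _ ≤ (K * x ^ (1 - α / 2)) * (Real.log x * x ^ (τ - 1)) :=
            mul_le_mul_of_nonneg_right hcard (by positivity)
        _ = K * (Real.log x * (x ^ (1 - α / 2) * x ^ (τ - 1))) := by ring
        _ = K * (Real.log x * x ^ (-τ)) := by
            rw [← Real.rpow_add hxpos]
            congr 3
            rw [hτ]; ring
    have hNSs : ∑ p ∈ NS, Real.log p * wt g x p ≤ 4 * (Real.log x * x ^ (-τ)) := by
      apply hsmall NS 4 (by norm_num) (Finset.filter_subset _ _)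
      have h5 := card_sq_le (x := x) (w := x ^ α) hx1.le hxα NS (by
        intro p hp
        obtain ⟨hp1, r, hr1, hr2⟩ := Finset.mem_filter.1 hp
        exact ⟨(hE'mem p hp1).2.1, r, hr1, hr2⟩)
      refine h5.trans ?_
      have h6 : 4 * x / x ^ α = 4 * x ^ (1 - α) := by
        rw [Real.rpow_sub hxpos, Real.rpow_one]; ring
      rw [h6]
      apply mul_le_mul_of_nonneg_left _ (by norm_num)
      exact Real.rpow_le_rpow_of_exponent_le hx1.le (by linarith)
    have hBs : ∀ J : Finset I, ∑ p ∈ B J, Real.log p * wt g x p ≤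
        4 * CJ J * (Real.log x * x ^ (-τ)) := by
      intro J
      apply hsmall (B J) (4 * CJ J) (mul_nonneg (by norm_num) (hCJ0 J).le)
        (Finset.filter_subset _ _)
      by_cases hJ : J.card = k0
      · have hy1 : 1 ≤ 2 * x ^ (1 - α) := by
          have := Real.one_le_rpow hx1.le (by linarith : 0 ≤ 1 - α)
          linarith
        have h5 := hCJ J hJ (2 * x ^ (1 - α)) hy1 (B J) (by
          intro p hp
          exact (Finset.mem_filter.1 hp).2.2)
        have hck : 0 ≤ (c : ℝ) / k0 := by positivity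
        have hck1 : 1 + (c : ℝ) / k0 ≤ 2 := by linarith
        have h6 : (2 * x ^ (1 - α)) ^ (1 + (c : ℝ) / k0) ≤ 4 * x ^ (1 - α / 2) := by
          have hxa : 0 < x ^ (1 - α) := Real.rpow_pos_of_pos hxpos _
          rw [Real.mul_rpow (by norm_num) hxa.le]
          apply mul_le_mul
          · calc (2 : ℝ) ^ (1 + (c : ℝ) / k0) ≤ 2 ^ (2 : ℝ) :=
                Real.rpow_le_rpow_of_exponent_le (by norm_num) hck1
              _ = 4 := by
                rw [show (2 : ℝ) = ((2 : ℕ) : ℝ) by norm_num, Real.rpow_natCast]; norm_num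
          · rw [← Real.rpow_mul hxpos.le]
            apply Real.rpow_le_rpow_of_exponent_le hx1.le
            nlinarith
          · exact Real.rpow_nonneg hxa.le _
          · norm_num
        calc ((B J).card : ℝ) ≤ CJ J * (2 * x ^ (1 - α)) ^ (1 + (c : ℝ) / k0) := h5
          _ ≤ CJ J * (4 * x ^ (1 - α / 2)) := mul_le_mul_of_nonneg_left h6 (hCJ0 J).le
          _ = 4 * CJ J * x ^ (1 - α / 2) := by ring
      · have : B J = ∅ := by
          rw [hB]
          apply Finset.filter_eq_empty_iff.2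
          intro p _ h
          exact hJ h.1
        rw [this, Finset.card_empty, Nat.cast_zero]
        have := (hCJ0 J).le
        positivity
    have hfin : c1 ≤ 16 * c' + C * (Real.log x * x ^ (-τ)) := by
      calc c1 ≤ ∑ p ∈ E, Real.log p * wt g x p := hm
        _ = ∑ p ∈ E', Real.log p * wt g x p := h3
        _ ≤ _ := hsplit
        _ ≤ 16 * c' + (4 * (Real.log x * x ^ (-τ)) +
              ∑ J : Finset I, 4 * CJ J * (Real.log x * x ^ (-τ))) :=
            add_le_add hFs (add_le_add hNSs (Finset.sum_le_sum fun J _ => hBs J))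
        _ = 16 * c' + C * (Real.log x * x ^ (-τ)) := by
            rw [← Finset.sum_mul, hC]; ring
    have : 16 * c' = c1 / 2 := by rw [hc']; ring
    linarith
  -- the limit
  have hlim : Tendsto (fun x : ℝ => C * (Real.log x * x ^ (-τ))) atTop (𝓝 0) := by
    have h1 : Tendsto (fun x : ℝ => Real.log x / x ^ τ) atTop (𝓝 0) :=
      (isLittleO_log_rpow_atTop hτ0).tendsto_div_nhds_zero
    have h2 : Tendsto (fun x : ℝ => C * (Real.log x / x ^ τ)) atTop (𝓝 0) := by
      simpa using h1.const_mul C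
    refine h2.congr' ?_
    filter_upwards [eventually_gt_atTop (0:ℝ)] with x hx
    rw [Real.rpow_neg hx.le, div_eq_mul_inv]
  have hev : ∀ᶠ x : ℝ in atTop, (D0 : ℝ) < x ^ (1 - τ) :=
    (tendsto_rpow_atTop (by linarith : 0 < 1 - τ)).eventually_gt_atTop _
  have hev' : ∀ᶠ x : ℝ in atTop, z0 ≤ x ^ (1 - τ) :=
    (tendsto_rpow_atTop (by linarith : 0 < 1 - τ)).eventually_ge_atTop _
  have hev2 : ∀ᶠ x : ℝ in atTop, 2 ≤ x ^ α := (tendsto_rpow_atTop hα0).eventually_ge_atTop _
  have hev3 : ∀ᶠ x : ℝ in atTop, C * (Real.log x * x ^ (-τ)) < c1 / 2 :=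
    hlim.eventually (gt_mem_nhds (by linarith))
  obtain ⟨x, hx1, hx2, hx3, hx4, hx5, hx6⟩ := (hev.and (hev'.and (hev2.and (hev3.and
    ((eventually_ge_atTop X0).and (eventually_ge_atTop (4:ℝ))))))).exists
  have := key x hx5 hx6 hx3 hx1 hx2
  linarith

end Pool.Agent.Helper63.LT
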