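import Pool.Agent.Helper63.LT.St

/-!
# Project LT, module LT-12: from `MainI` to `MainSt`

Index type `I = Σ i, Fin (k i)`, `a' ij = a ij.1`, `P' ij = P ij.1 ij.2`, the same `C`. The `P' ij`
are not zero (linear independence). `Indep`: the first part is the hypothesis (`a' ij ≠ a' ij'`
implies `ij.1 ≠ ij'.1`). Second part: `a` is injective (`r = 1` in the hypothesis), so there is at
most one `i` with `a i = d`; if there is none all `n` are `0`; otherwise `subst`, all `n ij ≠ 0`
have `ij.1 = i`, and `S ⟨i, j⟩ = P i j` (`AtF.eq`), so the sum is `∑ j, n ⟨i, j⟩ • P i j`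
(`Fintype.sum_sigma`) and linear independence (`Fintype.linearIndependent_iff`) gives `n = 0`.
`Fintype.card I = ∑ i, k i`.
-/

set_option autoImplicit false

namespace Pool.Agent.Helper63.LT

open WeierstrassCurve Pool.Agent.Helper10.SS

theorem mainSt (h : MainI) : MainSt := by
  classical
  obtain ⟨C, hC⟩ := h
  refine ⟨C, fun m a k P h1 h2 h3 h4 => ?_⟩
  have hinj : ∀ i j, a i = a j → i = j := by
    intro i j hij
    by_contra hne
    refine (h1 i j hne 1).1 ?_
    rw [hij]
    norm_num
  have key := hC (Σ i, Fin (k i)) (fun ij => a ij.1) (fun ij => P ij.1 ij.2)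
    (fun ij => (h2 ij.1).ne_zero ij.2) ⟨?_, ?_⟩ (fun ij => h3 ij.1)
    (fun ij x y hxy => h4 ij.1 ij.2 x y hxy)
  · obtain ⟨c, hc, hz⟩ := key
    refine ⟨c, hc, fun z0 => ?_⟩
    obtain ⟨z, hz0, hz1⟩ := hz z0
    refine ⟨z, hz0, ?_⟩
    have hcard : Fintype.card (Σ i, Fin (k i)) = ∑ i, k i := by
      simp
    rw [hcard] at hz1
    exact hz1
  · intro ij ij' hne r
    exact h1 ij.1 ij'.1 (fun h => hne (congrArg a h)) r
  · intro d S hS n hn hsum
    by_cases hex : ∃ i, a i = d
    · obtain ⟨i, rfl⟩ := hex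
      have hzero : ∀ i' : Fin m, i' ≠ i → ∀ j : Fin (k i'), n ⟨i', j⟩ = 0 := by
        intro i' hi' j
        by_contra hne
        exact hi' (hinj _ _ (hn ⟨i', j⟩ hne))
      have hSP : ∀ j : Fin (k i), S ⟨i, j⟩ = P i j := by
        intro j
        obtain ⟨x, y, hx, hy⟩ := hS ⟨i, j⟩ rfl
        exact AtF.eq hy hx
      have hs : ∑ j : Fin (k i), n ⟨i, j⟩ • P i j = 0 := by
        rw [← hsum, Fintype.sum_sigma, Finset.sum_eq_single i]
        · exact Finset.sum_congr rfl fun j _ => by rw [hSP j]
        · intro i' _ hi'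
          exact Finset.sum_eq_zero fun j _ => by rw [hzero i' hi' j, zero_zsmul]
        · intro hi
          exact absurd (Finset.mem_univ i) hi
      have hli := Fintype.linearIndependent_iff.1 (h2 i) (fun j => n ⟨i, j⟩) hs
      rintro ⟨i', j⟩
      by_cases hi' : i' = i
      · subst hi'
        exact hli j
      · exact hzero i' hi' j
    · intro ij
      by_contra hne
      exact hex ⟨ij.1, hn ij hne⟩

end Pool.Agent.Helper63.LT
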