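import Pool.Agent.Helper63.LT.St

/-!
# Project LT, module LT-3: maps of points

`MapHom`: the map `0 ↦ 0`, `(x, y) ↦ (u ^ 2 σ x, u ^ 3 σ y)` from the points of `y² = x³ + a x`
over `F` to those of `y² = x³ + a' x` over `K`, `a' = u ^ 4 σ a`, is well defined (use `nonsing_of`,
or directly the nonsingularity conditions `2 y ≠ 0 ∨ 3 x ^ 2 + a ≠ 0`), additive and injective.
Additivity by cases with the lemmas `AtF.add`, `AtF.dbl`, `AtF.add_neg`, `AtF.unique`, `zero_orF`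
of Helper10/SSCurve.lean: one of the points is `0`; `x₁ ≠ x₂`; `x₁ = x₂` and `y₁ = -y₂` (then both
sums are `0`; this includes `y₁ = 0`); `x₁ = x₂`, `y₁ = y₂ ≠ 0` (`y₁ ^ 2 = y₂ ^ 2` gives
`y₁ = ± y₂`). In the generic cases `AtF.unique`/`AtF.eq` reduce to field identities (`map_div₀`,
`map_sub`, `field_simp`, `ring`). `2 ≠ 0` in `F` because `σ 2 = 2 ≠ 0`.
-/

set_option autoImplicit false

namespace Pool.Agent.Helper63.LT

open WeierstrassCurve Pool.Agent.Helper10.SS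

private theorem mapNs {F K : Type} [Field F] [Field K] (σ : F →+* K) (u : K) (hu : u ≠ 0)
    (a : F) (a' : K) (ha : a' = u ^ 4 * σ a) (x y : F) (h : (EF a 0).Nonsingular x y) :
    (EF a' 0).Nonsingular (u ^ 2 * σ x) (u ^ 3 * σ y) := by
  rw [Affine.nonsingular_iff] at h
  obtain ⟨h1, h2⟩ := h
  have h3 : y ^ 2 = x ^ 3 + a * x + 0 := (eqnF_iff x y).mp h1
  have h4 : (σ y) ^ 2 = (σ x) ^ 3 + σ a * σ x := by
    have := congrArg σ h3
    simpa using this
  refine nonsing_of _ _ ?_ ?_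
  · rw [ha]
    linear_combination u ^ 6 * h4
  · simp only [EF] at h2
    rcases h2 with h2 | h2
    · right
      have h5 : 3 * x ^ 2 + a ≠ 0 := by
        intro h0
        apply h2
        linear_combination -h0
      have h6 : σ (3 * x ^ 2 + a) ≠ 0 := fun h => h5 ((map_eq_zero σ).1 h)
      have h7 : 3 * (u ^ 2 * σ x) ^ 2 + a' = u ^ 4 * σ (3 * x ^ 2 + a) := by
        rw [ha]
        simp only [map_add, map_mul, map_pow, map_ofNat]
        ring
      rw [h7]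
      exact mul_ne_zero (pow_ne_zero _ hu) h6
    · left
      have h5 : 2 * y ≠ 0 := by
        intro h0
        apply h2
        linear_combination h0
      have h6 : σ (2 * y) ≠ 0 := fun h => h5 ((map_eq_zero σ).1 h)
      have h7 : 2 * (u ^ 3 * σ y) = u ^ 3 * σ (2 * y) := by
        simp only [map_mul, map_ofNat]
        ring
      rw [h7]
      exact mul_ne_zero (pow_ne_zero _ hu) h6

private def mapFun {F K : Type} [Field F] [Field K] (σ : F →+* K) (u : K) (hu : u ≠ 0)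
    (a : F) (a' : K) (ha : a' = u ^ 4 * σ a) : (EF a 0).Point → (EF a' 0).Point
  | .zero => .zero
  | .some x y h => .some (u ^ 2 * σ x) (u ^ 3 * σ y) (mapNs σ u hu a a' ha x y h)

private theorem mapFun_at {F K : Type} [Field F] [Field K] (σ : F →+* K) (u : K) (hu : u ≠ 0)
    (a : F) (a' : K) (ha : a' = u ^ 4 * σ a) (P : (EF a 0).Point) (x y : F) (h : AtF P x y) :
    AtF (mapFun σ u hu a a' ha P) (u ^ 2 * σ x) (u ^ 3 * σ y) := by
  obtain ⟨h, rfl⟩ := h
  exact ⟨_, rfl⟩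

private theorem mapFun_add {F K : Type} [Field F] [Field K] [DecidableEq F] [DecidableEq K]
    (σ : F →+* K) (u : K) (hu : u ≠ 0) (a : F) (a' : K) (ha : a' = u ^ 4 * σ a)
    (P Q : (EF a 0).Point) :
    mapFun σ u hu a a' ha (P + Q) = mapFun σ u hu a a' ha P + mapFun σ u hu a a' ha Q := by
  have h0 : mapFun σ u hu a a' ha 0 = 0 := rfl
  have hat := mapFun_at σ u hu a a' ha
  rcases zero_orF P with rfl | ⟨x₁, y₁, h₁⟩
  · rw [zero_add, h0, zero_add]
  rcases zero_orF Q with rfl | ⟨x₂, y₂, h₂⟩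
  · rw [add_zero, h0, add_zero]
  have k₁ := hat _ _ _ h₁
  have k₂ := hat _ _ _ h₂
  have hu2 : u ^ 2 ≠ 0 := pow_ne_zero _ hu
  have hu3 : u ^ 3 ≠ 0 := pow_ne_zero _ hu
  by_cases hx : x₁ = x₂
  · subst hx
    have hyy : (y₁ - y₂) * (y₁ + y₂) = 0 := by
      linear_combination h₁.eqn - h₂.eqn
    have hneg : y₂ = -y₁ → mapFun σ u hu a a' ha (P + Q) =
        mapFun σ u hu a a' ha P + mapFun σ u hu a a' ha Q := by
      intro e
      subst e
      have k₂' : AtF (mapFun σ u hu a a' ha Q) (u ^ 2 * σ x₁) (-(u ^ 3 * σ y₁)) := by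
        have e : u ^ 3 * σ (-y₁) = -(u ^ 3 * σ y₁) := by
          rw [map_neg]; ring
        rw [← e]
        exact k₂
      rw [h₁.add_neg h₂, k₁.add_neg k₂', h0]
    rcases mul_eq_zero.1 hyy with h | h
    · have e : y₂ = y₁ := by linear_combination -h
      subst e
      by_cases h2 : 2 * y₂ = 0
      · exact hneg (by linear_combination h2)
      · have hPQ : P = Q := h₁.eq h₂
        subst hPQ
        have k2 : 2 * (u ^ 3 * σ y₂) ≠ 0 := by
          have e : 2 * (u ^ 3 * σ y₂) = u ^ 3 * σ (2 * y₂) := by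
            simp only [map_mul, map_ofNat]
            ring
          rw [e]
          exact mul_ne_zero hu3 fun h => h2 ((map_eq_zero σ).1 h)
        have hs2 : σ (2 * y₂) ≠ 0 := fun h => h2 ((map_eq_zero σ).1 h)
        have hsl : (3 * (u ^ 2 * σ x₁) ^ 2 + a') / (2 * (u ^ 3 * σ y₂)) =
            u * σ ((3 * x₁ ^ 2 + a) / (2 * y₂)) := by
          rw [map_div₀, div_eq_iff k2, ha]
          have e : u * (σ (3 * x₁ ^ 2 + a) / σ (2 * y₂)) * (2 * (u ^ 3 * σ y₂)) =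
              u ^ 4 * (σ (3 * x₁ ^ 2 + a) / σ (2 * y₂) * σ (2 * y₂)) := by
            simp only [map_mul, map_ofNat]
            ring
          rw [e, div_mul_cancel₀ _ hs2]
          simp only [map_add, map_mul, map_pow, map_ofNat]
          ring
        refine (hat _ _ _ (h₁.dbl h2)).eq ?_
        have k := k₁.dbl k2
        rw [hsl] at k
        have e1 : u ^ 2 * σ (((3 * x₁ ^ 2 + a) / (2 * y₂)) ^ 2 - x₁ - x₁) =
            (u * σ ((3 * x₁ ^ 2 + a) / (2 * y₂))) ^ 2 - u ^ 2 * σ x₁ - u ^ 2 * σ x₁ := by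
          simp only [map_sub, map_pow]
          ring
        have e2 : u ^ 3 * σ (-((3 * x₁ ^ 2 + a) / (2 * y₂) *
            (((3 * x₁ ^ 2 + a) / (2 * y₂)) ^ 2 - x₁ - x₁ - x₁) + y₂)) =
            -(u * σ ((3 * x₁ ^ 2 + a) / (2 * y₂)) *
              ((u * σ ((3 * x₁ ^ 2 + a) / (2 * y₂))) ^ 2 - u ^ 2 * σ x₁ - u ^ 2 * σ x₁ -
                u ^ 2 * σ x₁) + u ^ 3 * σ y₂) := by
          rw [map_neg, map_add, map_mul, map_sub, map_sub, map_sub, map_pow]
          ring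
        rw [e1, e2]
        exact k
    · exact hneg (by linear_combination h)
  · have hx' : x₁ - x₂ ≠ 0 := sub_ne_zero.2 hx
    have hs : σ (x₁ - x₂) ≠ 0 := fun h => hx' ((map_eq_zero σ).1 h)
    have hk : u ^ 2 * σ x₁ ≠ u ^ 2 * σ x₂ := by
      intro h
      exact hx (σ.injective (mul_left_cancel₀ hu2 h))
    have hk' : u ^ 2 * σ x₁ - u ^ 2 * σ x₂ ≠ 0 := sub_ne_zero.2 hk
    have hsl : (u ^ 3 * σ y₁ - u ^ 3 * σ y₂) / (u ^ 2 * σ x₁ - u ^ 2 * σ x₂) =
        u * σ ((y₁ - y₂) / (x₁ - x₂)) := by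
      rw [map_div₀, div_eq_iff hk']
      have e : u * (σ (y₁ - y₂) / σ (x₁ - x₂)) * (u ^ 2 * σ x₁ - u ^ 2 * σ x₂) =
          u ^ 3 * (σ (y₁ - y₂) / σ (x₁ - x₂) * σ (x₁ - x₂)) := by
        simp only [map_sub]
        ring
      rw [e, div_mul_cancel₀ _ hs, map_sub]
      ring
    refine (hat _ _ _ (h₁.add h₂ hx)).eq ?_
    have k := k₁.add k₂ hk
    rw [hsl] at k
    have e1 : u ^ 2 * σ (((y₁ - y₂) / (x₁ - x₂)) ^ 2 - x₁ - x₂) =
        (u * σ ((y₁ - y₂) / (x₁ - x₂))) ^ 2 - u ^ 2 * σ x₁ - u ^ 2 * σ x₂ := by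
      rw [map_sub, map_sub, map_pow]
      ring
    have e2 : u ^ 3 * σ (-((y₁ - y₂) / (x₁ - x₂) *
        (((y₁ - y₂) / (x₁ - x₂)) ^ 2 - x₁ - x₂ - x₁) + y₁)) =
        -(u * σ ((y₁ - y₂) / (x₁ - x₂)) *
          ((u * σ ((y₁ - y₂) / (x₁ - x₂))) ^ 2 - u ^ 2 * σ x₁ - u ^ 2 * σ x₂ -
            u ^ 2 * σ x₁) + u ^ 3 * σ y₁) := by
      rw [map_neg, map_add, map_mul, map_sub, map_sub, map_sub, map_pow]
      ring
    rw [e1, e2]
    exact k

theorem mapHom : MapHom := by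
  intro F K _ _ _ _ σ u hu _ a a' ha
  refine ⟨AddMonoidHom.mk' (mapFun σ u hu a a' ha) (mapFun_add σ u hu a a' ha), ?_,
    mapFun_at σ u hu a a' ha⟩
  intro P Q hPQ
  have hPQ' : mapFun σ u hu a a' ha P = mapFun σ u hu a a' ha Q := hPQ
  have h0 : mapFun σ u hu a a' ha 0 = 0 := rfl
  rcases zero_orF P with rfl | ⟨x₁, y₁, h₁⟩
  · rcases zero_orF Q with rfl | ⟨x₂, y₂, h₂⟩
    · rfl
    · rw [h0] at hPQ'
      exact absurd hPQ'.symm (mapFun_at σ u hu a a' ha _ _ _ h₂).ne_zero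
  · rcases zero_orF Q with rfl | ⟨x₂, y₂, h₂⟩
    · rw [h0] at hPQ'
      exact absurd hPQ' (mapFun_at σ u hu a a' ha _ _ _ h₁).ne_zero
    · have k₁ := mapFun_at σ u hu a a' ha _ _ _ h₁
      have k₂ := mapFun_at σ u hu a a' ha _ _ _ h₂
      rw [hPQ'] at k₁
      obtain ⟨e1, e2⟩ := k₁.unique k₂
      have e3 : x₁ = x₂ := σ.injective (mul_left_cancel₀ (pow_ne_zero _ hu) e1)
      have e4 : y₁ = y₂ := σ.injective (mul_left_cancel₀ (pow_ne_zero _ hu) e2)
      subst e3 e4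
      exact h₁.eq h₂

end Pool.Agent.Helper63.LT
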