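import Pool.Agent.Helper63.LT.St

/-!
# Project LT, module LT-7: few primes divide an algebraic integer of bounded height

`NormCount`. Let `N = Algebra.norm ℤ w`, an integer `≠ 0`. (a) `|N| ≤ B ^ [L : ℚ]`:
`Algebra.norm_eq_prod_embeddings` (product over the `[L : ℚ]` embeddings into `ℂ`). (b) `w` divides
`N` in `𝓞 L` (`Algebra.dvd_norm`, or: `N` is, up to sign, the constant coefficient of the
characteristic polynomial of `w`, or `Ideal.absNorm_mem` for the ideal generated by `w`), so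
`φ N = 0` for every `φ` with `φ w = 0`; if moreover `(p : κ) = 0` then `p ∣ N` (otherwise `1` is a
combination of `p` and `N`). (c) So the product of the primes of `S` divides `N` and
`2 ^ |S| ≤ |N| ≤ B ^ [L : ℚ]`; take logarithms.
-/

set_option autoImplicit false

open scoped NumberField

namespace Pool.Agent.Helper63.LT

private theorem norm_bound {L : Type} [Field L] [NumberField L] (w : 𝓞 L) (B : ℝ)
    (h : Hs (w : L) B) : ((Algebra.norm ℤ w).natAbs : ℝ) ≤ B ^ Module.finrank ℚ L := by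
  have h1 : ((Algebra.norm ℤ w : ℤ) : ℂ) = ∏ σ : L →ₐ[ℚ] ℂ, σ (w : L) := by
    rw [← Algebra.norm_eq_prod_embeddings ℚ ℂ (w : L), ← Algebra.coe_norm_int]
    simp
  have h2 : ((Algebra.norm ℤ w).natAbs : ℝ) = ‖((Algebra.norm ℤ w : ℤ) : ℂ)‖ := by
    rw [Complex.norm_intCast, Nat.cast_natAbs, Int.cast_abs]
  rw [h2, h1, norm_prod, ← AlgHom.card ℚ L ℂ, ← Finset.card_univ, ← Finset.prod_const]
  exact Finset.prod_le_prod (fun σ _ => norm_nonneg _) fun σ _ => h σ.toRingHom

theorem normCount : NormCount := by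
  intro L _ _ w B hw hB hs S hS
  have hM : Ideal.absNorm (Ideal.span {w}) = (Algebra.norm ℤ w).natAbs :=
    Ideal.absNorm_span_singleton w
  have hM0 : (Algebra.norm ℤ w).natAbs ≠ 0 := by
    rw [Ne, Int.natAbs_eq_zero]
    exact Algebra.norm_ne_zero_iff.2 hw
  have hdvd : ∀ p ∈ S, p ∣ (Algebra.norm ℤ w).natAbs := by
    intro p hp
    obtain ⟨hpp, κ, _, φ, hpκ, hφ⟩ := hS p hp
    have h1 : ((Ideal.absNorm (Ideal.span {w}) : ℕ) : 𝓞 L) ∈ Ideal.span {w} :=
      Ideal.absNorm_mem _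
    have h2 : Ideal.span {w} ≤ RingHom.ker φ := by
      rw [Ideal.span_singleton_le_iff_mem]
      exact hφ
    have h3 : φ ((Ideal.absNorm (Ideal.span {w}) : ℕ) : 𝓞 L) = 0 := h2 h1
    rw [map_natCast, hM] at h3
    by_contra hnd
    have hc : Nat.Coprime p (Algebra.norm ℤ w).natAbs := (Nat.Prime.coprime_iff_not_dvd hpp).2 hnd
    obtain ⟨a, b, hab⟩ := Nat.isCoprime_iff_coprime.2 hc
    have h4 := congrArg (Int.cast : ℤ → κ) hab
    rw [Int.cast_add, Int.cast_mul, Int.cast_mul, Int.cast_natCast, Int.cast_natCast, hpκ, h3,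
      mul_zero, mul_zero, add_zero, Int.cast_one] at h4
    exact zero_ne_one h4
  have hprod : ∏ p ∈ S, p ∣ (Algebra.norm ℤ w).natAbs :=
    Finset.prod_primes_dvd _ (fun p hp => (hS p hp).1.prime) hdvd
  have hpow : 2 ^ S.card ≤ ∏ p ∈ S, p := by
    rw [← Finset.prod_const]
    exact Finset.prod_le_prod' fun p hp => (hS p hp).1.two_le
  have hle : 2 ^ S.card ≤ (Algebra.norm ℤ w).natAbs :=
    hpow.trans (Nat.le_of_dvd (Nat.pos_of_ne_zero hM0) hprod)
  have hle2 : (2 : ℝ) ^ S.card ≤ B ^ Module.finrank ℚ L := by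
    refine le_trans ?_ (norm_bound w B hs)
    exact_mod_cast hle
  have hlog := Real.log_le_log (by positivity) hle2
  rwa [Real.log_pow, Real.log_pow] at hlog

end Pool.Agent.Helper63.LT
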