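import Pool.Agent.Helper63.LT.St

/-!
# Project LT, module LT-2: prescribed quadratic characters

`PatternInt`. Proof. Let `R` be the finite set of primes dividing some `A i * B i` together with
`2, 3`. For a subset `s` of `R` with `3 ∈ s` let
`χ s n = (-1) ^ ([n < 0] + ∑ r ∈ s, v_r(n))` for integers `n ≠ 0`; it is multiplicative.
(a) AVERAGE over the `2 ^ (|R| - 1)` subsets `s ∋ 3` of `R`: the sum over `s` of `χ s n` is `0` if
`v_r(n)` is odd for some prime `r ≠ 3` of `R` (toggle `r`), otherwise `n` (a product of primes of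
`R` and a sign) is `±` a square or `±3` times a square and `χ s n` is the same for all `s`:
`1` for `□, -3□` and `-1` for `-□, 3□`. So with the six hypotheses the average of `χ (A i)` and of
`χ (B i)` is `≤ 0` and that of `χ (A i * B i)` is `≥ 0`; hence the average over `s` of
`(1 - χ (A i)) (1 - χ (B i)) / 4`, which is the indicator of `χ (A i) = χ (B i) = -1`, is `≥ 1/4`.
Summing over `i`, some `s` has at least `|I| / 4` indices `i` with `χ s (A i) = χ s (B i) = -1`:
this is `T`.
(b) CLASS. `v = 8 ∏ (odd r ∈ R) r`; `u ≡ 3 mod 8` if `2 ∈ s`, `u ≡ 7 mod 8` otherwise; for odd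
`r ∈ R` choose `u ≡ c_r mod r` with `legendreSym r c_r = (-1) ^ (r / 2) * (if r ∈ s then -1 else 1)`
and `c_r ≠ 0, -1` modulo `r`: if the value is `1` take `c_r = 1`; if it is `-1` take `c_r = -4` when
`-1` is not a square modulo `r` (then `r ≠ 3`, because for `r = 3` the value is `1` as `3 ∈ s`) and
any non-square when `-1` is a square. Then for `p ≡ u [MOD v]`, by quadratic reciprocity and
`p ≡ 3 mod 4`, `legendreSym p r = (if r ∈ s then -1 else 1)` for all `r ∈ R` and
`legendreSym p (-1) = -1`, so `legendreSym p n = χ s n` for the `n` which are products of primes of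
`R` and a sign (and `p` does not divide them, since `p` is coprime to `v`).
See Helper46/BV/Pattern.lean for the same arguments (`p ≡ 7 mod 8` there).
-/

set_option autoImplicit false

open Finset

namespace Pool.Agent.Helper63.LT

/-- the residue class modulo an odd prime -/
private theorem exists_class (T : Finset ℕ) (h3 : 3 ∈ T) (r : ℕ) (hr : r.Prime) (hr2 : r ≠ 2) :
    ∃ c : ℕ, ¬ r ∣ c ∧ ¬ r ∣ c + 1 ∧ ∀ m : ℕ, m ≡ c [MOD r] → ∀ _ : Fact r.Prime,
      legendreSym r m = (-1) ^ (r / 2) * (if r ∈ T then -1 else 1) := by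
  have hF : Fact r.Prime := ⟨hr⟩
  have hodd : r % 2 = 1 := hr.eq_two_or_odd.resolve_left hr2
  have hval : ((-1 : ℤ) ^ (r / 2) * (if r ∈ T then -1 else 1)) = 1 ∨
      ((-1 : ℤ) ^ (r / 2) * (if r ∈ T then -1 else 1)) = -1 := by
    rcases neg_one_pow_eq_or ℤ (r / 2) with h | h <;> rw [h] <;> split_ifs <;> simp
  have h2 : (2 : ZMod r) ≠ 0 := by
    intro h
    have h' : ((2 : ℕ) : ZMod r) = 0 := by exact_mod_cast h
    rw [ZMod.natCast_eq_zero_iff] at h'
    exact hr2 ((Nat.prime_dvd_prime_iff_eq hr Nat.prime_two).1 h')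
  -- it suffices to find the class in `ZMod r`
  suffices h : ∃ a : ZMod r, a ≠ 0 ∧ a ≠ -1 ∧ ∀ m : ℕ, (m : ZMod r) = a → legendreSym r m =
      (-1) ^ (r / 2) * (if r ∈ T then -1 else 1) by
    obtain ⟨a, ha0, ha1, ha⟩ := h
    have hcast : ((a.val : ℕ) : ZMod r) = a := ZMod.natCast_zmod_val a
    refine ⟨a.val, ?_, ?_, fun m hm _ => ?_⟩
    · rw [← ZMod.natCast_eq_zero_iff, hcast]
      exact ha0
    · rw [← ZMod.natCast_eq_zero_iff, Nat.cast_add, hcast, Nat.cast_one]
      intro h
      exact ha1 (eq_neg_of_add_eq_zero_left h)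
    · refine ha m ?_
      rw [← hcast]
      exact (ZMod.natCast_eq_natCast_iff _ _ _).2 hm
  rcases hval with hv | hv
  · refine ⟨1, one_ne_zero, ?_, fun m hm => ?_⟩
    · intro h
      apply h2
      linear_combination h
    · rw [hv, legendreSym.eq_one_iff' r (by rw [hm]; exact one_ne_zero), hm]
      exact ⟨1, by ring⟩
  · by_cases hsq : IsSquare (-1 : ZMod r)
    · obtain ⟨a, ha⟩ := FiniteField.exists_nonsquare (F := ZMod r) (by
        rw [ZMod.ringChar_zmod_n]
        exact hr2)
      refine ⟨a, ?_, ?_, fun m hm => ?_⟩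
      · rintro rfl
        exact ha ⟨0, by simp⟩
      · rintro rfl
        exact ha hsq
      · rw [hv, legendreSym.eq_neg_one_iff', hm]
        exact ha
    · have hr3 : r ≠ 3 := by
        rintro rfl
        rw [if_pos h3] at hv
        norm_num at hv
      have h3' : (3 : ZMod r) ≠ 0 := by
        intro h
        have h' : ((3 : ℕ) : ZMod r) = 0 := by exact_mod_cast h
        rw [ZMod.natCast_eq_zero_iff] at h'
        exact hr3 ((Nat.prime_dvd_prime_iff_eq hr Nat.prime_three).1 h')
      refine ⟨-4, ?_, ?_, fun m hm => ?_⟩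
      · intro h
        apply mul_ne_zero h2 h2
        linear_combination -h
      · intro h
        apply h3'
        linear_combination -h
      · rw [hv, legendreSym.eq_neg_one_iff', hm]
        rintro ⟨y, hy⟩
        apply hsq
        refine ⟨y / 2, ?_⟩
        field_simp
        linear_combination hy

/-- the character attached to a set of primes -/
private noncomputable def chi (s : Finset ℕ) (n : ℤ) : ℤ :=
  n.sign * (-1) ^ (∑ q ∈ s, n.natAbs.factorization q)

private theorem chi_mul (s : Finset ℕ) (m n : ℤ) (hm : m ≠ 0) (hn : n ≠ 0) :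
    chi s (m * n) = chi s m * chi s n := by
  unfold chi
  rw [Int.sign_mul, Int.natAbs_mul,
    Nat.factorization_mul (Int.natAbs_ne_zero.2 hm) (Int.natAbs_ne_zero.2 hn)]
  simp only [Finsupp.add_apply, Finset.sum_add_distrib, pow_add]
  ring

private theorem chi_neg (s : Finset ℕ) (n : ℤ) : chi s (-n) = -chi s n := by
  unfold chi
  rw [Int.sign_neg, Int.natAbs_neg]
  ring

private theorem chi_eq (s : Finset ℕ) (n : ℤ) (hn : n ≠ 0) : chi s n = 1 ∨ chi s n = -1 := by
  unfold chi
  rcases lt_or_gt_of_ne hn with h | h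
  · rw [Int.sign_eq_neg_one_of_neg h]
    rcases neg_one_pow_eq_or ℤ (∑ q ∈ s, n.natAbs.factorization q) with h | h <;> rw [h] <;> simp
  · rw [Int.sign_eq_one_of_pos h]
    rcases neg_one_pow_eq_or ℤ (∑ q ∈ s, n.natAbs.factorization q) with h | h <;> rw [h] <;> simp

private theorem legendre_nat (T : Finset ℕ) (p : ℕ) [Fact p.Prime] (n : ℕ) (hn : n ≠ 0)
    (h : ∀ r : ℕ, r.Prime → r ∣ n → legendreSym p r = if r ∈ T then -1 else 1) :
    legendreSym p n = (-1) ^ (∑ q ∈ T, n.factorization q) := by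
  induction n using Nat.strong_induction_on with
  | _ n ih =>
    rcases Nat.lt_or_ge 1 n with h1 | h1
    · have hp := Nat.minFac_prime (by omega : n ≠ 1)
      obtain ⟨m, hm⟩ := Nat.minFac_dvd n
      set r := n.minFac with hr
      have hm0 : m ≠ 0 := by
        rintro rfl
        omega
      have hmn : m < n := by
        rw [hm]
        have := hp.two_le
        nlinarith [Nat.pos_of_ne_zero hm0]
      have ih' := ih m hmn hm0 (fun q hq hqm => h q hq (by
        rw [hm]
        exact Dvd.dvd.mul_left hqm r))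
      have hf : n.factorization = r.factorization + m.factorization := by
        conv_lhs => rw [hm]
        exact Nat.factorization_mul hp.ne_zero hm0
      have hs : ∑ q ∈ T, n.factorization q = (if r ∈ T then 1 else 0) +
          ∑ q ∈ T, m.factorization q := by
        rw [hf]
        simp only [Finsupp.add_apply, Finset.sum_add_distrib]
        congr 1
        rw [hp.factorization]
        simp [Finsupp.single_apply]
      have hl : legendreSym p n = legendreSym p r * legendreSym p m := by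
        rw [← legendreSym.mul]
        congr 1
        exact_mod_cast hm
      rw [hl, h r hp (Nat.minFac_dvd n), ih', hs, pow_add]
      congr 1
      split_ifs <;> simp
    · have : n = 1 := by omega
      subst this
      simp

private theorem legendre_int (T : Finset ℕ) (p : ℕ) [Fact p.Prime] (hp : p % 4 = 3) (n : ℤ)
    (hn : n ≠ 0)
    (h : ∀ r : ℕ, r.Prime → r ∣ n.natAbs → legendreSym p r = if r ∈ T then -1 else 1) :
    legendreSym p n = chi T n := by
  have h1 := legendre_nat T p n.natAbs (Int.natAbs_ne_zero.2 hn) h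
  have h2 : legendreSym p (-1) = -1 := by
    rw [legendreSym.eq_neg_one_iff]
    push_cast
    rw [ZMod.exists_sq_eq_neg_one_iff]
    simpa using hp
  have h3 : legendreSym p n.sign = n.sign := by
    rcases lt_or_gt_of_ne hn with h | h
    · rw [Int.sign_eq_neg_one_of_neg h, h2]
    · rw [Int.sign_eq_one_of_pos h, legendreSym.at_one]
  unfold chi
  rw [← h1]
  conv_lhs => rw [← Int.sign_mul_natAbs n]
  rw [legendreSym.mul, h3]

private theorem isSquare_of_even (m : ℕ) (hm : m ≠ 0) (h : ∀ r : ℕ, Even (m.factorization r)) :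
    IsSquare m := by
  refine ⟨m.factorization.prod fun p k => p ^ (k / 2), ?_⟩
  conv_lhs => rw [← Nat.prod_factorization_pow_eq_self hm]
  unfold Finsupp.prod
  rw [← Finset.prod_mul_distrib]
  refine Finset.prod_congr rfl fun r _ => ?_
  rw [← pow_add]
  congr 1
  obtain ⟨k, hk⟩ := h r
  omega

private theorem sum_nonpos (R : Finset ℕ) (h3 : 3 ∈ R) (n : ℤ)
    (hR : ∀ r : ℕ, r.Prime → r ∣ n.natAbs → r ∈ R) (h1 : ¬ IsSquare n)
    (h2 : ¬ IsSquare (-3 * n)) :
    ∑ s ∈ (R.erase 3).powerset, chi (insert 3 s) n ≤ 0 := by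
  have hn : n ≠ 0 := by
    rintro rfl
    exact h1 ⟨0, by simp⟩
  have hn' : n.natAbs ≠ 0 := Int.natAbs_ne_zero.2 hn
  have key : ∑ s ∈ (R.erase 3).powerset, chi (insert 3 s) n =
      n.sign * (-1) ^ (n.natAbs.factorization 3) *
        ∏ r ∈ R.erase 3, (1 + (-1) ^ (n.natAbs.factorization r)) := by
    rw [Finset.prod_one_add, Finset.mul_sum]
    refine Finset.sum_congr rfl fun s hs => ?_
    have h3s : 3 ∉ s := fun h => by
      have := Finset.mem_powerset.1 hs h
      simp at this
    unfold chi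
    rw [Finset.sum_insert h3s, pow_add, Finset.prod_pow_eq_pow_sum]
    ring
  rw [key]
  have hpos : ∀ r ∈ R.erase 3, (0 : ℤ) ≤ 1 + (-1) ^ (n.natAbs.factorization r) := by
    intro r _
    rcases neg_one_pow_eq_or ℤ (n.natAbs.factorization r) with h | h <;> rw [h] <;> norm_num
  by_cases hodd : ∃ r ∈ R.erase 3, ¬ Even (n.natAbs.factorization r)
  · obtain ⟨r, hr, hr'⟩ := hodd
    rw [Finset.prod_eq_zero hr, mul_zero]
    rw [Nat.not_even_iff_odd] at hr'
    rw [hr'.neg_one_pow]
    norm_num
  · push Not at hodd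
    have hall : ∀ r : ℕ, r ≠ 3 → Even (n.natAbs.factorization r) := by
      intro r hr3
      by_cases hr : r.Prime ∧ r ∣ n.natAbs
      · exact hodd r (Finset.mem_erase.2 ⟨hr3, hR r hr.1 hr.2⟩)
      · have : n.natAbs.factorization r = 0 := by
          rw [Nat.factorization_eq_zero_iff]
          tauto
        rw [this]
        exact Even.zero
    refine mul_nonpos_of_nonpos_of_nonneg ?_ (Finset.prod_nonneg hpos)
    rcases lt_or_gt_of_ne hn with hlt | hgt
    · -- `n < 0`
      rw [Int.sign_eq_neg_one_of_neg hlt]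
      by_cases he : Even (n.natAbs.factorization 3)
      · rw [he.neg_one_pow]
        norm_num
      · exfalso
        apply h2
        have h3n : IsSquare (3 * n.natAbs) := by
          refine isSquare_of_even _ (by positivity) fun r => ?_
          rw [Nat.factorization_mul (by norm_num) hn', Finsupp.add_apply,
            Nat.prime_three.factorization, Finsupp.single_apply]
          split_ifs with h
          · subst h
            rw [Nat.not_even_iff_odd] at he
            exact odd_one.add_odd he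
          · rw [zero_add]
            exact hall r (fun h' => h h'.symm)
        obtain ⟨m, hm⟩ := h3n
        refine ⟨m, ?_⟩
        have h4 : ((n.natAbs : ℕ) : ℤ) = -n := by omega
        have h5 : (3 : ℤ) * (n.natAbs : ℕ) = m * m := by exact_mod_cast hm
        rw [h4] at h5
        linear_combination h5
    · rw [Int.sign_eq_one_of_pos hgt]
      by_cases he : Even (n.natAbs.factorization 3)
      · exfalso
        apply h1
        have h3n : IsSquare (n.natAbs) := by
          refine isSquare_of_even _ hn' fun r => ?_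
          by_cases h : r = 3
          · subst h
            exact he
          · exact hall r h
        obtain ⟨m, hm⟩ := h3n
        refine ⟨m, ?_⟩
        have h4 : ((n.natAbs : ℕ) : ℤ) = n := by omega
        have h5 : ((n.natAbs : ℕ) : ℤ) = m * m := by exact_mod_cast hm
        rw [h4] at h5
        exact h5
      · rw [Nat.not_even_iff_odd] at he
        rw [he.neg_one_pow]
        norm_num

private theorem sum_nonneg' (R : Finset ℕ) (h3 : 3 ∈ R) (n : ℤ)
    (hR : ∀ r : ℕ, r.Prime → r ∣ n.natAbs → r ∈ R) (h1 : ¬ IsSquare (-n))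
    (h2 : ¬ IsSquare (3 * n)) :
    0 ≤ ∑ s ∈ (R.erase 3).powerset, chi (insert 3 s) n := by
  have h := sum_nonpos R h3 (-n) (by
    rw [Int.natAbs_neg]
    exact hR) h1 (by
    have : -3 * -n = 3 * n := by ring
    rw [this]
    exact h2)
  simp only [chi_neg, Finset.sum_neg_distrib] at h
  linarith

/-- part (b): the residue class -/
private theorem exists_uv (R : Finset ℕ) (hR : ∀ r ∈ R, r.Prime) (s : Finset ℕ) (h3 : 3 ∈ s) :
    ∃ v u : ℕ, 0 < v ∧ u.Coprime v ∧ 4 ∣ v ∧ u % 4 = 3 ∧
      (∀ r : ℕ, r.Prime → r ≠ 2 → r ∣ v → ¬ r ∣ u + 1) ∧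
      ∀ (p : ℕ) [Fact p.Prime], p ≡ u [MOD v] → p % 4 = 3 ∧
        ∀ r ∈ R, legendreSym p r = if r ∈ s then -1 else 1 := by
  have hcl : ∀ r : ℕ, ∃ c : ℕ, (r.Prime ∧ r ≠ 2) → (¬ r ∣ c ∧ ¬ r ∣ c + 1 ∧
      ∀ m : ℕ, m ≡ c [MOD r] → ∀ _ : Fact r.Prime,
        legendreSym r m = (-1) ^ (r / 2) * (if r ∈ s then -1 else 1)) := by
    intro r
    by_cases h : r.Prime ∧ r ≠ 2
    · obtain ⟨c, hc⟩ := exists_class s h3 r h.1 h.2
      exact ⟨c, fun _ => hc⟩
    · exact ⟨0, fun h' => absurd h' h⟩
  choose c hc using hcl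
  set P : Finset ℕ := R.filter fun r => r ≠ 2 with hP
  have hPp : ∀ r ∈ P, r.Prime ∧ r ≠ 2 := fun r hr =>
    ⟨hR r (Finset.mem_filter.1 hr).1, (Finset.mem_filter.1 hr).2⟩
  obtain ⟨u0, hu0⟩ := Nat.chineseRemainderOfFinset c id P
    (fun r hr => (hPp r hr).1.ne_zero) (by
      intro r hr r' hr' hne
      exact (Nat.coprime_primes (hPp r hr).1 (hPp r' hr').1).2 hne)
  have hcop : Nat.Coprime 8 (∏ r ∈ P, r) := by
    refine Nat.Coprime.prod_right fun r hr => ?_
    have h1 : Nat.Coprime 2 r := (Nat.coprime_primes Nat.prime_two (hPp r hr).1).2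
      (hPp r hr).2.symm
    exact Nat.Coprime.pow_left 3 h1
  obtain ⟨u, hu8, huP⟩ := Nat.chineseRemainder hcop (if 2 ∈ s then 3 else 7) u0
  have hur : ∀ r ∈ P, u ≡ c r [MOD r] := by
    intro r hr
    have h1 : u ≡ u0 [MOD r] := huP.of_dvd (Finset.dvd_prod_of_mem _ hr)
    exact h1.trans (hu0 r hr)
  have hu8' : u % 8 = if 2 ∈ s then 3 else 7 := by
    have h1 : u % 8 = (if 2 ∈ s then 3 else 7) % 8 := hu8
    rw [h1]
    split_ifs <;> rfl
  have hu4 : u % 4 = 3 := by
    split_ifs at hu8' <;> omega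
  refine ⟨8 * ∏ r ∈ P, r, u, ?_, ?_, ?_, hu4, ?_, ?_⟩
  · have : 0 < ∏ r ∈ P, r := Finset.prod_pos fun r hr => (hPp r hr).1.pos
    omega
  · refine Nat.Coprime.mul_right ?_ ?_
    · have h1 : Nat.Coprime u 2 := by
        rw [Nat.coprime_two_right, Nat.odd_iff]
        omega
      exact Nat.Coprime.pow_right 3 h1
    · refine Nat.Coprime.prod_right fun r hr => ?_
      rw [Nat.coprime_comm, (hPp r hr).1.coprime_iff_not_dvd]
      intro hd
      have h1 := (hc r (hPp r hr)).1
      exact h1 (((hur r hr).dvd_iff (dvd_refl r)).1 hd)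
  · exact Dvd.dvd.mul_right (by norm_num) _
  · intro r hr hr2 hrv
    have h1 : r ∣ ∏ r ∈ P, r := by
      rcases hr.dvd_mul.1 hrv with h | h
      · exfalso
        have h8 : r ∣ 2 ^ 3 := by norm_num; exact h
        exact hr2 ((Nat.prime_dvd_prime_iff_eq hr Nat.prime_two).1 (hr.dvd_of_dvd_pow h8))
      · exact h
    obtain ⟨r', hr', hd⟩ := (hr.prime.dvd_finsetProd_iff _).1 h1
    have h2 : r = r' := (Nat.prime_dvd_prime_iff_eq hr (hPp r' hr').1).1 hd
    subst h2
    intro h3
    have h4 : u + 1 ≡ c r + 1 [MOD r] := (hur r hr').add_right 1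
    exact (hc r (hPp r hr')).2.1 ((h4.dvd_iff (dvd_refl r)).1 h3)
  · intro p hF hpu
    have hp : p.Prime := hF.out
    have hp8 : p % 8 = if 2 ∈ s then 3 else 7 := by
      have h1 : p ≡ u [MOD 8] := hpu.of_dvd (Dvd.intro _ rfl)
      have h2 : p % 8 = u % 8 := h1
      rw [h2, hu8']
    have hp4 : p % 4 = 3 := by
      split_ifs at hp8 <;> omega
    have hp2 : p ≠ 2 := by
      rintro rfl
      omega
    refine ⟨hp4, fun r hrR => ?_⟩
    by_cases hr2 : r = 2
    · subst hr2
      have h1 : ((2 : ℕ) : ZMod p) ≠ 0 := by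
        rw [Ne, ZMod.natCast_eq_zero_iff]
        intro h
        exact hp2 ((Nat.prime_dvd_prime_iff_eq hp Nat.prime_two).1 h)
      by_cases h2s : 2 ∈ s
      · rw [if_pos h2s] at hp8 ⊢
        rw [legendreSym.eq_neg_one_iff']
        intro h2
        have h3 : IsSquare (2 : ZMod p) := by exact_mod_cast h2
        have := (ZMod.exists_sq_eq_two_iff hp2).1 h3
        omega
      · rw [if_neg h2s] at hp8 ⊢
        rw [legendreSym.eq_one_iff' p h1]
        have h2 := (ZMod.exists_sq_eq_two_iff hp2).2 (Or.inr hp8)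
        exact_mod_cast h2
    · have hrP : r ∈ P := Finset.mem_filter.2 ⟨hrR, hr2⟩
      have hr := (hPp r hrP).1
      have hFr : Fact r.Prime := ⟨hr⟩
      have h1 : p ≡ c r [MOD r] := by
        have h2 : p ≡ u [MOD r] := hpu.of_dvd (Dvd.dvd.mul_left (Finset.dvd_prod_of_mem _ hrP) _)
        exact h2.trans (hur r hrP)
      have h3 := (hc r ⟨hr, hr2⟩).2.2 p h1 hFr
      have h4 := legendreSym.quadratic_reciprocity' (p := r) (q := p) hr2 hp2
      rw [h4, h3]
      have h5 : Odd (p / 2) := by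
        rw [Nat.odd_iff]
        omega
      rw [pow_mul]
      rcases neg_one_pow_eq_or ℤ (r / 2) with h | h
      · rw [h, one_pow, one_mul, one_mul]
      · rw [h, h5.neg_one_pow]
        ring

theorem patternInt : PatternInt := by
  intro I _ A B hAB
  classical
  have hA : ∀ i, A i ≠ 0 := fun i h => (hAB i).1 (by rw [h]; exact ⟨0, by simp⟩)
  have hB : ∀ i, B i ≠ 0 := fun i h => (hAB i).2.2.1 (by rw [h]; exact ⟨0, by simp⟩)
  set R : Finset ℕ := insert 3 (Finset.univ.biUnion fun i => (A i * B i).natAbs.primeFactors)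
    with hR
  have hRp : ∀ r ∈ R, r.Prime := by
    intro r hr
    rcases Finset.mem_insert.1 hr with h | h
    · rw [h]
      exact Nat.prime_three
    · obtain ⟨i, -, hi⟩ := Finset.mem_biUnion.1 h
      exact Nat.prime_of_mem_primeFactors hi
  have h3R : 3 ∈ R := Finset.mem_insert_self _ _
  have hABR : ∀ i, ∀ r : ℕ, r.Prime → r ∣ (A i * B i).natAbs → r ∈ R := by
    intro i r hr hd
    refine Finset.mem_insert_of_mem (Finset.mem_biUnion.2 ⟨i, Finset.mem_univ i, ?_⟩)
    exact Nat.mem_primeFactors.2 ⟨hr, hd, Int.natAbs_ne_zero.2 (mul_ne_zero (hA i) (hB i))⟩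
  have hAR : ∀ i, ∀ r : ℕ, r.Prime → r ∣ (A i).natAbs → r ∈ R := fun i r hr hd =>
    hABR i r hr (by
      rw [Int.natAbs_mul]
      exact Dvd.dvd.mul_right hd _)
  have hBR : ∀ i, ∀ r : ℕ, r.Prime → r ∣ (B i).natAbs → r ∈ R := fun i r hr hd =>
    hABR i r hr (by
      rw [Int.natAbs_mul]
      exact Dvd.dvd.mul_left hd _)
  -- averaging
  obtain ⟨s, hs, hle⟩ : ∃ s ∈ (R.erase 3).powerset, (Fintype.card I : ℤ) ≤
      4 * ((Finset.univ.filter fun i =>
        chi (insert 3 s) (A i) = -1 ∧ chi (insert 3 s) (B i) = -1).card : ℤ) := by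
    refine Finset.exists_le_of_sum_le ⟨∅, Finset.empty_mem_powerset _⟩ ?_
    have h1 : ∀ s : Finset ℕ, ∑ i : I, (1 - chi (insert 3 s) (A i)) * (1 - chi (insert 3 s) (B i)) ≤
        4 * ((Finset.univ.filter fun i =>
          chi (insert 3 s) (A i) = -1 ∧ chi (insert 3 s) (B i) = -1).card : ℤ) := by
      intro s
      rw [Finset.card_filter]
      push_cast
      rw [Finset.mul_sum]
      refine Finset.sum_le_sum fun i _ => ?_
      rcases chi_eq (insert 3 s) (A i) (hA i) with h | h <;>
        rcases chi_eq (insert 3 s) (B i) (hB i) with h' | h' <;> rw [h, h'] <;> norm_num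
    refine le_trans ?_ (Finset.sum_le_sum fun s _ => h1 s)
    rw [Finset.sum_comm]
    have h2 : ∑ s ∈ (R.erase 3).powerset, (Fintype.card I : ℤ) =
        ∑ i : I, ∑ s ∈ (R.erase 3).powerset, (1 : ℤ) := by
      simp only [Finset.sum_const, Finset.card_univ, nsmul_eq_mul, mul_one]
      ring
    rw [h2]
    refine Finset.sum_le_sum fun i _ => ?_
    have h3 : ∑ s ∈ (R.erase 3).powerset,
        (1 - chi (insert 3 s) (A i)) * (1 - chi (insert 3 s) (B i)) =
        ∑ s ∈ (R.erase 3).powerset, (1 : ℤ) - ∑ s ∈ (R.erase 3).powerset, chi (insert 3 s) (A i) -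
        ∑ s ∈ (R.erase 3).powerset, chi (insert 3 s) (B i) +
        ∑ s ∈ (R.erase 3).powerset, chi (insert 3 s) (A i * B i) := by
      rw [← Finset.sum_sub_distrib, ← Finset.sum_sub_distrib, ← Finset.sum_add_distrib]
      refine Finset.sum_congr rfl fun s _ => ?_
      rw [chi_mul _ _ _ (hA i) (hB i)]
      ring
    rw [h3]
    have ha := sum_nonpos R h3R (A i) (hAR i) (hAB i).1 (hAB i).2.1
    have hb := sum_nonpos R h3R (B i) (hBR i) (hAB i).2.2.1 (hAB i).2.2.2.1
    have hab := sum_nonneg' R h3R (A i * B i) (hABR i) (hAB i).2.2.2.2.1 (hAB i).2.2.2.2.2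
    linarith
  obtain ⟨v, u, hv, huv, h4v, hu4, hrad, hleg⟩ := exists_uv R hRp (insert 3 s)
    (Finset.mem_insert_self _ _)
  refine ⟨v, u, hv, huv, h4v, hu4, hrad, Finset.univ.filter fun i =>
    chi (insert 3 s) (A i) = -1 ∧ chi (insert 3 s) (B i) = -1, by exact_mod_cast hle, ?_⟩
  intro p hp hpu i hi
  have hF : Fact p.Prime := ⟨hp⟩
  obtain ⟨hp4, hl⟩ := hleg p hpu
  obtain ⟨hi1, hi2⟩ := (Finset.mem_filter.1 hi).2
  constructor
  · rw [← legendreSym.eq_neg_one_iff, ← hi1]
    exact legendre_int _ p hp4 (A i) (hA i) fun r hr hd => hl r (hAR i r hr hd)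
  · rw [← legendreSym.eq_neg_one_iff, ← hi2]
    exact legendre_int _ p hp4 (B i) (hB i) fun r hr hd => hl r (hBR i r hr hd)

end Pool.Agent.Helper63.LT
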