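import Pool.Agent.Helper63.LT.St

/-!
# Project LT, module LT-10: few primes are bad for many points
-/

set_option autoImplicit false

open scoped NumberField

namespace Pool.Agent.Helper63.LT

open WeierstrassCurve Pool.Agent.Helper10.SS

private lemma sq_or (p : ℕ) [Fact p.Prime] (h4 : p % 4 = 3) (z : ZMod p) :
    IsSquare z ∨ IsSquare (-z) := by
  have hr2 : ringChar (ZMod p) ≠ 2 := by
    rw [ZMod.ringChar_zmod_n]
    omega
  by_cases hz : z = 0
  · left; rw [hz]; exact IsSquare.zero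
  have hneg : quadraticChar (ZMod p) (-1) = -1 := by
    rw [quadraticChar_neg_one hr2, ZMod.card, ZMod.χ₄_nat_three_mod_four h4]
  rcases quadraticChar_dichotomy hz with h | h
  · left
    exact (quadraticChar_one_iff_isSquare hz).1 h
  · right
    have hz' : -z ≠ 0 := neg_ne_zero.2 hz
    rw [← quadraticChar_one_iff_isSquare hz', show -z = (-1) * z by ring, map_mul, hneg, h]
    norm_num

/-- fourth roots -/
lemma exists_fourth (p : ℕ) [Fact p.Prime] (h4 : p % 4 = 3) (a : ZMod p) (ha : ¬ IsSquare (-a)) :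
    ∃ t : ZMod p, t ^ 4 = a := by
  obtain ⟨s, hs⟩ := (sq_or p h4 a).resolve_right ha
  rcases sq_or p h4 s with ⟨t, ht⟩ | ⟨t, ht⟩
  · exact ⟨t, by rw [hs, ht]; ring⟩
  · refine ⟨t, ?_⟩
    have : s = -(t * t) := by rw [← ht]; ring
    rw [hs, this]; ring

/-- pigeonhole principle in a finite group -/
lemma pigeon {G : Type} [AddCommGroup G] {I : Type} [Fintype I] (R : I → G) (m M : ℕ)
    (hR : ∀ i, m • R i = 0) [Finite {g : G // m • g = 0}]
    (hcard : Nat.card {g : G // m • g = 0} ≤ m) (hM : m < (M + 1) ^ Fintype.card I) :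
    ∃ n : I → ℤ, (∀ i, |n i| ≤ M) ∧ n ≠ 0 ∧ ∑ i, n i • R i = 0 := by
  classical
  let g : (I → Fin (M + 1)) → {g : G // m • g = 0} := fun e =>
    ⟨∑ i, (e i : ℕ) • R i, by
      rw [Finset.smul_sum]
      apply Finset.sum_eq_zero
      intro i _
      rw [smul_comm, hR i, smul_zero]⟩
  have : Fintype {g : G // m • g = 0} := Fintype.ofFinite _
  have hlt : Fintype.card {g : G // m • g = 0} < Fintype.card (I → Fin (M + 1)) := by
    rw [← Nat.card_eq_fintype_card, Fintype.card_fun, Fintype.card_fin]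
    exact lt_of_le_of_lt hcard hM
  obtain ⟨e, e', hne, he⟩ := Fintype.exists_ne_map_eq_of_card_lt g hlt
  refine ⟨fun i => ((e i : ℕ) : ℤ) - ((e' i : ℕ) : ℤ), ?_, ?_, ?_⟩
  · intro i
    have h1 := (e i).2
    have h2 := (e' i).2
    change |((e i : ℕ) : ℤ) - ((e' i : ℕ) : ℤ)| ≤ (M : ℤ)
    rw [abs_le]
    constructor <;> omega
  · intro h
    apply hne
    funext i
    have := congrFun h i
    simp only [Pi.zero_apply] at this
    apply Fin.ext
    omega
  · have h1 : ∑ i, (e i : ℕ) • R i = ∑ i, (e' i : ℕ) • R i := congrArg Subtype.val he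
    simp only [sub_smul, natCast_zsmul]
    rw [Finset.sum_sub_distrib, h1, sub_self]

/-- the coordinates of the transported reduction -/
lemma rd_transport {L κ : Type} [Field L] [CharZero L] [Field κ] {p : ℕ} [Fact p.Prime]
    (φ : 𝓞 L →+* κ) (j : ZMod p →+* κ) (X Y : ℚ) (hX : ¬ p ∣ X.den) (hY : ¬ p ∣ Y.den)
    (T : 𝓞 L) (hT : (T : L) ≠ 0) (t : ZMod p) (ht : t ≠ 0) (hφ : φ T = j t)
    (Q : (EF (1 : L) 0).Point) (Q' : (EF (1 : κ) 0).Point)
    (hQ : AtF Q ((X : L) / (T : L) ^ 2) ((Y : L) / (T : L) ^ 3))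
    (hQ' : AtF Q' (j ((X : ZMod p) / t ^ 2)) (j ((Y : ZMod p) / t ^ 3))) : Rd φ Q Q' := by
  have hXd : ((X.den : ℕ) : κ) ≠ 0 := by
    have : ((X.den : ℕ) : ZMod p) ≠ 0 := by rwa [Ne, ZMod.natCast_eq_zero_iff]
    intro h
    apply this
    apply j.injective
    rw [map_natCast, map_zero, h]
  have hYd : ((Y.den : ℕ) : κ) ≠ 0 := by
    have : ((Y.den : ℕ) : ZMod p) ≠ 0 := by rwa [Ne, ZMod.natCast_eq_zero_iff]
    intro h
    apply this
    apply j.injective
    rw [map_natCast, map_zero, h]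
  have hjt : j t ≠ 0 := by
    intro h
    apply ht
    apply j.injective
    rw [h, map_zero]
  have hXL : ((X.den : ℕ) : L) ≠ 0 := by exact_mod_cast X.den_ne_zero
  have hYL : ((Y.den : ℕ) : L) ≠ 0 := by exact_mod_cast Y.den_ne_zero
  have eX : (X : L) = (X.num : L) / (X.den : L) := Rat.cast_def X
  have eY : (Y : L) = (Y.num : L) / (Y.den : L) := Rat.cast_def Y
  have eX' : j (X : ZMod p) = (X.num : κ) / (X.den : κ) := by
    rw [Rat.cast_def X, map_div₀, map_intCast, map_natCast]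
  have eY' : j (Y : ZMod p) = (Y.num : κ) / (Y.den : κ) := by
    rw [Rat.cast_def Y, map_div₀, map_intCast, map_natCast]
  have cI : ∀ z : ℤ, (((z : ℤ) : 𝓞 L) : L) = (z : L) := fun z =>
    map_intCast (algebraMap (𝓞 L) L) z
  have cN : ∀ z : ℕ, (((z : ℕ) : 𝓞 L) : L) = (z : L) := fun z =>
    map_natCast (algebraMap (𝓞 L) L) z
  right
  refine ⟨_, _, _, _, hQ, hQ', T * (X.num : 𝓞 L) * (Y.den : 𝓞 L), (Y.num : 𝓞 L) * (X.den : 𝓞 L),
    T ^ 3 * (X.den : 𝓞 L) * (Y.den : 𝓞 L), ?_, ?_, ?_, ?_, ?_⟩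
  · rw [map_mul, map_mul, map_pow, hφ, map_natCast, map_natCast]
    exact mul_ne_zero (mul_ne_zero (pow_ne_zero _ hjt) hXd) hYd
  · simp only [map_mul, map_pow, cI, cN]
    rw [eX]
    field_simp
  · simp only [map_mul, map_pow, cI, cN]
    rw [eY]
    field_simp
  · rw [map_mul, map_mul, map_pow, hφ, map_natCast, map_natCast, map_mul, map_mul, hφ,
      map_intCast, map_natCast, map_div₀, map_pow, eX']
    field_simp
  · rw [map_mul, map_mul, map_pow, hφ, map_natCast, map_natCast, map_mul,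
      map_intCast, map_natCast, map_div₀, map_pow, eY']
    field_simp

/-- the local part -/
lemma local_part (hM : Match) (hH : MapHom) (hG : Grp) {L : Type} [Field L] [NumberField L]
    {I : Type} [Fintype I] (a : I → ℤ) (P : ∀ i, (EF (a i : ℚ) 0).Point)
    (hP : ∀ i, P i ≠ 0) (X Y : I → ℚ) (hXY : ∀ i, AtF (P i) (X i) (Y i))
    (ι : L) (hι : ι ^ 2 = -1) (θ : I → L) (hθ : ∀ i, θ i ^ 4 = a i) (hθ0 : ∀ i, θ i ≠ 0)
    (Q : (I → Fin 4) → I → (EF (1 : L) 0).Point)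
    (hQ : ∀ f i, AtF (Q f i) ((X i : L) / (ι ^ (f i : ℕ) * θ i) ^ 2)
      ((Y i : L) / (ι ^ (f i : ℕ) * θ i) ^ 3))
    (p : ℕ) (y : ℝ) (hp : Small a P p y) (hX : ∀ i, ¬ p ∣ (X i).den) (hY : ∀ i, ¬ p ∣ (Y i).den)
    (M : ℕ) (hyM : y < ((M + 1) ^ Fintype.card I : ℕ)) :
    p.Prime ∧ ∃ (κ : Type) (_ : Field κ) (_ : DecidableEq κ) (φ : 𝓞 L →+* κ) (f : I → Fin 4)
      (n : I → ℤ) (Q' : I → (EF (1 : κ) 0).Point), (p : κ) = 0 ∧ (2 : κ) ≠ 0 ∧
      (∀ i, |n i| ≤ M) ∧ n ≠ 0 ∧ (∀ i, Rd φ (Q f i) (Q' i)) ∧ ∑ i, n i • Q' i = 0 := by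
  classical
  obtain ⟨hF, h4, hsq, hns, m, hm0, hmy, hred⟩ := hp
  refine ⟨hF.out, ?_⟩
  have hp2 : p ≠ 2 := by omega
  have h2p : (2 : ZMod p) ≠ 0 := by
    apply Ring.two_ne_zero
    rw [ZMod.ringChar_zmod_n]
    exact hp2
  have ha : ∀ i, (a i : ZMod p) ≠ 0 := by
    intro i h0
    apply hns i
    rw [h0, neg_zero]
    exact IsSquare.zero
  have hex : ∀ i, ∃ t : ZMod p, t ^ 4 = (a i : ZMod p) := fun i => exists_fourth p h4 _ (hns i)
  choose t ht using hex
  have ht0 : ∀ i, t i ≠ 0 := by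
    intro i h0
    apply ha i
    rw [← ht i, h0]
    ring
  obtain ⟨κ, hκ, φ, j, f, T, hT, hφ⟩ := hM L I a ι hι θ hθ p hp2 ha t ht
  have h2κ : (2 : κ) ≠ 0 := by
    intro h
    apply h2p
    apply j.injective
    rw [map_ofNat, map_zero, h]
  have hpκ : (p : κ) = 0 := by
    rw [← map_natCast j, CharP.cast_eq_zero, map_zero]
  -- the reductions
  choose P' hP' hPm using hred
  have hPX : ∀ i, AtF (P' i) (X i : ZMod p) (Y i : ZMod p) := by
    intro i
    rcases hP' i with ⟨h0, _⟩ | ⟨x, y', hx, h | h⟩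
    · exact absurd h0 (hP i)
    · have := (hx.unique (hXY i)).1
      rw [this] at h
      exact absurd h.1 (hX i)
    · obtain ⟨e1, e2⟩ := hx.unique (hXY i)
      rw [e1, e2] at h
      exact h.2
  -- transport to `y² = x³ + x` over `ZMod p`
  have hmap1 : ∀ i, ∃ R : (EF (1 : ZMod p) 0).Point, m • R = 0 ∧
      AtF R ((X i : ZMod p) / t i ^ 2) ((Y i : ZMod p) / t i ^ 3) := by
    intro i
    obtain ⟨U, -, hU⟩ := hH (ZMod p) (ZMod p) (RingHom.id _) (t i)⁻¹ (inv_ne_zero (ht0 i)) h2p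
      (a i : ZMod p) 1 (by
        rw [RingHom.id_apply, ← ht i, ← mul_pow, inv_mul_cancel₀ (ht0 i), one_pow])
    refine ⟨U (P' i), ?_, ?_⟩
    · rw [← map_nsmul, hPm i, map_zero]
    · have := hU (P' i) _ _ (hPX i)
      rw [RingHom.id_apply, RingHom.id_apply] at this
      convert this using 1
      · rw [inv_pow, div_eq_mul_inv, mul_comm]
      · rw [inv_pow, div_eq_mul_inv, mul_comm]
  choose R hRm hR using hmap1
  -- the pigeonhole principle
  have hns1 : ¬ IsSquare (-(1 : ZMod p)) := by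
    intro h
    rw [ZMod.exists_sq_eq_neg_one_iff] at h
    exact h h4
  obtain ⟨hcount, -⟩ := hG p h4 hsq 1 hns1
  have : Finite (EF (1 : ZMod p) 0).Point := by
    have := card_point (r := p) 1 one_ne_zero h4
    apply Nat.finite_of_card_ne_zero
    rw [this]
    omega
  obtain ⟨n, hn1, hn2, hn3⟩ := pigeon R m M hRm (hcount m hm0) (by
    have h1 : (m : ℝ) < ((M + 1) ^ Fintype.card I : ℕ) := lt_of_le_of_lt hmy hyM
    exact_mod_cast h1)
  -- transport to `κ`
  obtain ⟨V, -, hV⟩ := hH (ZMod p) κ j 1 one_ne_zero h2κ 1 1 (by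
    rw [map_one, one_pow, one_mul])
  refine ⟨κ, hκ, inferInstance, φ, f, n, fun i => V (R i), hpκ, h2κ, hn1, hn2, ?_, ?_⟩
  · intro i
    have hTi : ((T i : 𝓞 L) : L) = ι ^ (f i : ℕ) * θ i := hT i
    have hι0 : ι ≠ 0 := by
      intro h
      rw [h] at hι
      norm_num at hι
    apply rd_transport φ j (X i) (Y i) (hX i) (hY i) (T i) _ (t i) (ht0 i) (hφ i)
    · rw [hTi]
      exact hQ f i
    · have := hV (R i) _ _ (hR i)
      rw [one_pow, one_pow, one_mul, one_mul] at this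
      exact this
    · rw [hTi]
      exact mul_ne_zero (pow_ne_zero _ hι0) (hθ0 i)
  · have : ∑ i, n i • V (R i) = V (∑ i, n i • R i) := by
      rw [map_sum]
      simp only [map_zsmul]
    rw [this, hn3, map_zero]

theorem rankEC (hC : Chain) (hN : NormCount) (hI : IndepL) (hF : FieldEx) (hM : Match)
    (hH : MapHom) (hG : Grp) : RankEC := by
  classical
  obtain ⟨c, hc2, hch⟩ := hC
  refine ⟨c, ?_⟩
  intro I _ _ a P ha hP hind
  obtain ⟨L, iF, iN, hgal, ι, hι, θ, hθ⟩ := hF I a ha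
  have : DecidableEq L := Classical.decEq L
  have hex : ∀ i, ∃ x y, AtF (P i) x y := fun i => (zero_orF (P i)).resolve_left (hP i)
  choose X Y hXY using hex
  have hι0 : ι ≠ 0 := by
    intro h
    rw [h] at hι
    norm_num at hι
  have haL : ∀ i, ((a i : ℤ) : L) ≠ 0 := fun i => by exact_mod_cast ha i
  have hθ0 : ∀ i, θ i ≠ 0 := by
    intro i h
    apply haL i
    rw [← hθ i, h]
    ring
  have hι4 : ι ^ 4 = 1 := by
    calc ι ^ 4 = (ι ^ 2) ^ 2 := by ring
      _ = 1 := by rw [hι]; norm_num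
  have hθf : ∀ (f : I → Fin 4) i, (ι ^ (f i : ℕ) * θ i) ^ 4 = a i := by
    intro f i
    rw [mul_pow, ← pow_mul, mul_comm (f i : ℕ) 4, pow_mul, hι4, one_pow, one_mul, hθ i]
  have hθf0 : ∀ (f : I → Fin 4) i, ι ^ (f i : ℕ) * θ i ≠ 0 := fun f i =>
    mul_ne_zero (pow_ne_zero _ hι0) (hθ0 i)
  have hQex : ∀ (f : I → Fin 4) i, ∃ Q : (EF (1 : L) 0).Point,
      AtF Q ((X i : L) / (ι ^ (f i : ℕ) * θ i) ^ 2) ((Y i : L) / (ι ^ (f i : ℕ) * θ i) ^ 3) := by
    intro f i
    obtain ⟨U, -, hU⟩ := hH ℚ L (algebraMap ℚ L) (ι ^ (f i : ℕ) * θ i)⁻¹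
      (inv_ne_zero (hθf0 f i)) two_ne_zero (a i : ℚ) 1 (by
        rw [map_intCast, ← hθf f i, ← mul_pow, inv_mul_cancel₀ (hθf0 f i), one_pow])
    refine ⟨U (P i), ?_⟩
    have := hU (P i) _ _ (hXY i)
    rw [eq_ratCast, eq_ratCast] at this
    convert this using 1
    · rw [inv_pow, div_eq_mul_inv, mul_comm]
    · rw [inv_pow, div_eq_mul_inv, mul_comm]
  choose Q hQ using hQex
  have hchain := fun f : I → Fin 4 => hch L I (Q f)
  choose A hA hw using hchain
  set k : ℕ := Fintype.card I with hk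
  have hkpos : 0 < k := Fintype.card_pos
  have hk0 : (0 : ℝ) < k := by exact_mod_cast hkpos
  set D0 : ℕ := ∏ i, (X i).den * (Y i).den with hD0
  set deg : ℝ := (Module.finrank ℚ L : ℝ) with hdeg
  have hdeg0 : 0 ≤ deg := Nat.cast_nonneg _
  have hl2 : 0 < Real.log 2 := Real.log_pos (by norm_num)
  set K : ℝ := deg * (∑ f, A f) / Real.log 2 with hK
  have hK0 : 0 ≤ K := by
    apply div_nonneg (mul_nonneg hdeg0 (Finset.sum_nonneg fun f _ => (hA f).le)) hl2.le
  refine ⟨D0.primeFactors.card + 1 + 3 ^ k * 2 ^ c * K, by positivity, ?_⟩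
  intro y hy S hS
  have hy0 : 0 < y := by linarith
  have hyk : 1 ≤ y ^ (1 / (k : ℝ)) := Real.one_le_rpow hy (by positivity)
  set M : ℕ := ⌊y ^ (1 / (k : ℝ))⌋₊ with hMdef
  have hM1 : 1 ≤ M := Nat.le_floor (by simpa using hyk)
  have hMy : (M : ℝ) ≤ y ^ (1 / (k : ℝ)) := Nat.floor_le (by positivity)
  have hyM : y < ((M + 1) ^ k : ℕ) := by
    have h1 : y ^ (1 / (k : ℝ)) < M + 1 := Nat.lt_floor_add_one _
    have h2 : y = (y ^ (1 / (k : ℝ))) ^ k := by
      rw [← Real.rpow_natCast, ← Real.rpow_mul hy0.le, one_div, inv_mul_cancel₀ hk0.ne',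
        Real.rpow_one]
    calc y = (y ^ (1 / (k : ℝ))) ^ k := h2
      _ < ((M : ℝ) + 1) ^ k := pow_lt_pow_left₀ h1 (by positivity) hkpos.ne'
      _ = ((M + 1) ^ k : ℕ) := by push_cast; rfl
  set J : ℕ := Nat.log 2 M + 1 with hJ
  have hJ1 : M ≤ 2 ^ J := (Nat.lt_pow_succ_log_self (by norm_num) M).le
  have hJ2 : 2 ^ J ≤ 2 * M := by
    rw [hJ, pow_succ, mul_comm]
    exact Nat.mul_le_mul_left 2 (Nat.pow_log_le_self 2 (by omega))
  have hwex : ∀ (f : I → Fin 4) (n : I → ℤ), ∃ w : 𝓞 L, (∀ i, |n i| ≤ 2 ^ J) →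
      w ≠ 0 ∧ Hs (w : L) (Real.exp (A f * c ^ J)) ∧
      ∀ (κ : Type) [Field κ] [DecidableEq κ] (φ : 𝓞 L →+* κ) (Q' : I → (EF (1 : κ) 0).Point),
        (2 : κ) ≠ 0 → φ w ≠ 0 → (∀ i, Rd φ (Q f i) (Q' i)) →
        Rd φ (∑ i, n i • Q f i) (∑ i, n i • Q' i) := by
    intro f n
    by_cases h : ∀ i, |n i| ≤ 2 ^ J
    · obtain ⟨w, hw1, hw2, hw3⟩ := hw f J n h
      exact ⟨w, fun _ => ⟨hw1, hw2, hw3⟩⟩
    · exact ⟨0, fun h' => absurd h' h⟩
  choose w hw' using hwex
  set Box : Finset (I → ℤ) := Fintype.piFinset (fun _ : I => Finset.Icc (-(M : ℤ)) M) with hBox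
  have hBoxmem : ∀ n, n ∈ Box ↔ ∀ i, |n i| ≤ M := by
    intro n
    rw [hBox, Fintype.mem_piFinset]
    simp only [Finset.mem_Icc, abs_le]
  have hBoxcard : Box.card = (2 * M + 1) ^ k := by
    rw [hBox, Fintype.card_piFinset]
    simp only [Int.card_Icc, Finset.prod_const, Finset.card_univ]
    congr 1
    omega
  set B : (I → Fin 4) → (I → ℤ) → Finset ℕ := fun f n => S.filter (fun p =>
    ∃ (κ : Type) (_ : Field κ) (φ : 𝓞 L →+* κ), (p : κ) = 0 ∧ φ (w f n) = 0) with hB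
  have hcov : S ⊆ D0.primeFactors ∪ (Finset.univ : Finset (I → Fin 4)).biUnion (fun f =>
      Box.biUnion (fun n => B f n)) := by
    intro p hp
    obtain ⟨hpF, hp'⟩ := hS p hp
    have hpp := hpF.out
    by_cases hpD : p ∣ D0
    · apply Finset.mem_union_left
      rw [Nat.mem_primeFactors]
      refine ⟨hpp, hpD, ?_⟩
      rw [hD0]
      exact Finset.prod_ne_zero_iff.2 fun i _ => mul_ne_zero (X i).den_ne_zero (Y i).den_ne_zero
    · apply Finset.mem_union_right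
      have hX : ∀ i, ¬ p ∣ (X i).den := fun i h => hpD ((h.mul_right _).trans
        (Finset.dvd_prod_of_mem (fun i => (X i).den * (Y i).den) (Finset.mem_univ i)))
      have hY : ∀ i, ¬ p ∣ (Y i).den := fun i h => hpD ((h.mul_left _).trans
        (Finset.dvd_prod_of_mem (fun i => (X i).den * (Y i).den) (Finset.mem_univ i)))
      obtain ⟨-, κ, hκ, hκd, φ, f, n, Q', hpκ, h2κ, hn1, hn2, hrd, hsum⟩ :=
        local_part hM hH hG a P hP X Y hXY ι hι θ hθ hθ0 Q hQ p y (hS p hp) hX hY M hyM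
      rw [Finset.mem_biUnion]
      refine ⟨f, Finset.mem_univ f, ?_⟩
      rw [Finset.mem_biUnion]
      refine ⟨n, (hBoxmem n).2 hn1, ?_⟩
      rw [hB, Finset.mem_filter]
      refine ⟨hp, κ, hκ, φ, hpκ, ?_⟩
      by_contra hφ
      have hnJ : ∀ i, |n i| ≤ 2 ^ J := fun i => (hn1 i).trans (by exact_mod_cast hJ1)
      have h1 := (hw' f n hnJ).2.2 κ φ Q' h2κ hφ hrd
      rw [hsum] at h1
      rcases h1 with ⟨h1, -⟩ | ⟨x, y', x', y'', -, h2, -⟩
      · apply hn2
        funext i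
        refine hI L I a P ha hind ι hι (fun i => ι ^ (f i : ℕ) * θ i) (hθf f) (Q f) ?_ n h1 i
        intro i
        exact ⟨X i, Y i, hXY i, hQ f i⟩
      · exact h2.ne_zero rfl
  have hBcard : ∀ f, ∀ n ∈ Box, ((B f n).card : ℝ) ≤ deg * A f / Real.log 2 * c ^ J := by
    intro f n hn
    have hnJ : ∀ i, |n i| ≤ 2 ^ J := fun i =>
      ((hBoxmem n).1 hn i).trans (by exact_mod_cast hJ1)
    obtain ⟨h1, h2, -⟩ := hw' f n hnJ
    have hexp : 1 ≤ Real.exp (A f * c ^ J) := by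
      apply Real.one_le_exp
      have := (hA f).le
      positivity
    have h3 := hN L (w f n) _ h1 hexp h2 (B f n) (by
      intro p hp
      rw [hB, Finset.mem_filter] at hp
      obtain ⟨hpF, -⟩ := hS p hp.1
      exact ⟨hpF.out, hp.2⟩)
    rw [Real.log_exp] at h3
    have h4 : ((B f n).card : ℝ) ≤ deg * (A f * c ^ J) / Real.log 2 := by
      rw [le_div_iff₀ hl2]
      exact h3
    calc ((B f n).card : ℝ) ≤ deg * (A f * c ^ J) / Real.log 2 := h4
      _ = deg * A f / Real.log 2 * c ^ J := by ring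
  have hScard : (S.card : ℝ) ≤ D0.primeFactors.card + (2 * M + 1) ^ k * (K * c ^ J) := by
    have h1 : S.card ≤ D0.primeFactors.card + ∑ f : I → Fin 4, ∑ n ∈ Box, (B f n).card := by
      refine (Finset.card_le_card hcov).trans ((Finset.card_union_le _ _).trans ?_)
      refine Nat.add_le_add_left ?_ _
      refine Finset.card_biUnion_le.trans (Finset.sum_le_sum fun f _ => ?_)
      exact Finset.card_biUnion_le
    calc (S.card : ℝ) ≤ ((D0.primeFactors.card + ∑ f : I → Fin 4, ∑ n ∈ Box, (B f n).card : ℕ) : ℝ) :=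
          by exact_mod_cast h1
      _ = D0.primeFactors.card + ∑ f : I → Fin 4, ∑ n ∈ Box, ((B f n).card : ℝ) := by
          push_cast; rfl
      _ ≤ D0.primeFactors.card + ∑ f : I → Fin 4, ∑ n ∈ Box, deg * A f / Real.log 2 * c ^ J := by
          gcongr with f _ n hn
          exact hBcard f n hn
      _ = D0.primeFactors.card + (2 * M + 1) ^ k * (K * c ^ J) := by
          congr 1
          simp only [Finset.sum_const, nsmul_eq_mul, hBoxcard]
          rw [← Finset.mul_sum, ← Finset.sum_mul, hK]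
          push_cast
          congr 2
          rw [← Finset.sum_div, ← Finset.mul_sum]
  have hcJ : ((c : ℝ)) ^ J ≤ 2 ^ c * (M : ℝ) ^ c := by
    have h1 : c ^ J ≤ (2 * M) ^ c := by
      calc c ^ J ≤ (2 ^ c) ^ J := Nat.pow_le_pow_left (Nat.lt_two_pow_self).le J
        _ = (2 ^ J) ^ c := by rw [← pow_mul, ← pow_mul, mul_comm]
        _ ≤ (2 * M) ^ c := Nat.pow_le_pow_left hJ2 c
    rw [← mul_pow]
    exact_mod_cast h1
  have hM1' : (1 : ℝ) ≤ M := by exact_mod_cast hM1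
  have hMk : (2 * (M : ℝ) + 1) ^ k ≤ 3 ^ k * (M : ℝ) ^ k := by
    rw [← mul_pow]
    exact pow_le_pow_left₀ (by positivity) (by linarith) k
  have hpow : (M : ℝ) ^ k * (M : ℝ) ^ c ≤ y ^ (1 + (c : ℝ) / k) := by
    rw [← pow_add]
    calc (M : ℝ) ^ (k + c) ≤ (y ^ (1 / (k : ℝ))) ^ (k + c) :=
          pow_le_pow_left₀ (by positivity) hMy _
      _ = y ^ (1 + (c : ℝ) / k) := by
          rw [← Real.rpow_natCast, ← Real.rpow_mul hy0.le]
          congr 1
          push_cast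
          field_simp
  have hy1 : 1 ≤ y ^ (1 + (c : ℝ) / k) := Real.one_le_rpow hy (by positivity)
  calc (S.card : ℝ) ≤ D0.primeFactors.card + (2 * M + 1) ^ k * (K * c ^ J) := hScard
    _ ≤ D0.primeFactors.card + (3 ^ k * (M : ℝ) ^ k) * (K * (2 ^ c * (M : ℝ) ^ c)) := by
        gcongr
    _ = D0.primeFactors.card + 3 ^ k * 2 ^ c * K * ((M : ℝ) ^ k * (M : ℝ) ^ c) := by ring
    _ ≤ (D0.primeFactors.card + 1) * y ^ (1 + (c : ℝ) / k) +
        3 ^ k * 2 ^ c * K * y ^ (1 + (c : ℝ) / k) := by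
        apply add_le_add
        · have h0 : (0 : ℝ) ≤ D0.primeFactors.card := Nat.cast_nonneg _
          nlinarith
        · exact mul_le_mul_of_nonneg_left hpow (by positivity)
    _ = (D0.primeFactors.card + 1 + 3 ^ k * 2 ^ c * K) * y ^ (1 + (c : ℝ) / k) := by ring

end Pool.Agent.Helper63.LT
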