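import Pool.Agent.Helper63.LT.St
import Pool.Agent.Helper18.BV.SpecialPrimes

/-!
# Project LT, module LT-1: primes `p` such that `p + 1` has no small odd prime factor

Adaptation of `Pool.Agent.Helper18.BV.special` (Helper18/BV/SpecialPrimes.lean), with the
occurrence relation `q ∣ n + 1` instead of `n ≡ 1 [MOD q]`.
-/

set_option autoImplicit false

open Finset Filter Topology
open scoped ArithmeticFunction.vonMangoldt

namespace Pool.Agent.Helper63.LT

open Pool.Agent.Helper18.BV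

private theorem dvd_succ_iff {d n : ℕ} (hd : 0 < d) : d ∣ n + 1 ↔ n ≡ d - 1 [MOD d] := by
  have h0 : (d - 1) + 1 ≡ 0 [MOD d] := by
    rw [Nat.sub_add_cancel hd]
    exact (Nat.modEq_zero_iff_dvd).2 dvd_rfl
  constructor
  · intro h
    exact Nat.ModEq.add_right_cancel' 1 (((Nat.modEq_zero_iff_dvd).2 h).trans h0.symm)
  · intro h
    exact (Nat.modEq_zero_iff_dvd).1 ((h.add_right 1).trans h0)

private theorem prod_dvd_succ (I : Finset ℕ) (hI : ∀ q ∈ I, q.Prime) (n : ℕ) :
    (∏ q ∈ I, q) ∣ n + 1 ↔ ∀ q ∈ I, q ∣ n + 1 := by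
  constructor
  · intro h q hq
    exact (Finset.dvd_prod_of_mem _ hq).trans h
  · intro h
    have h1 : (∏ q ∈ I, (q : ℤ)) ∣ ((n + 1 : ℕ) : ℤ) := by
      apply Finset.prod_dvd_of_coprime
      · intro a ha b hb hab
        rw [Function.onFun]
        exact (Nat.isCoprime_iff_coprime).2 ((Nat.coprime_primes (hI a ha) (hI b hb)).2 hab)
      · intro q hq
        exact Int.natCast_dvd_natCast.2 (h q hq)
    have h2 : ((∏ q ∈ I, q : ℕ) : ℤ) ∣ ((n + 1 : ℕ) : ℤ) := by
      rw [Nat.cast_prod]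
      exact h1
    exact Int.natCast_dvd_natCast.1 h2

/-- the residue class used for the modulus `v d` -/
private theorem exists_class_neg {v u : ℕ} (hv : 0 < v) (huv : u.Coprime v) :
    ∃ c : ℕ → ℕ, (∀ d, Nat.Coprime (c d) d) ∧ ∀ d : ℕ, 0 < d → v.Coprime d →
      ∀ n : ℕ, n ≡ c (v * d) [MOD v * d] ↔ (n ≡ u [MOD v] ∧ d ∣ n + 1) := by
  classical
  have h : ∀ m : ℕ, ∃ c : ℕ, Nat.Coprime c m ∧ ∀ d : ℕ, 0 < d → v.Coprime d → m = v * d →
      ∀ n : ℕ, n ≡ c [MOD v * d] ↔ (n ≡ u [MOD v] ∧ d ∣ n + 1) := by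
    intro m
    by_cases hm : ∃ d : ℕ, 0 < d ∧ v.Coprime d ∧ m = v * d
    · obtain ⟨d, hd0, hd, rfl⟩ := hm
      refine ⟨Nat.chineseRemainder hd u (d - 1), ?_, ?_⟩
      · have h1 := (Nat.chineseRemainder hd u (d - 1)).2.1
        have h2 := (Nat.chineseRemainder hd u (d - 1)).2.2
        apply Nat.Coprime.mul_right
        · have := h1.gcd_eq
          rw [Nat.Coprime, this]; exact huv
        · have h3 := h2.gcd_eq
          rw [Nat.Coprime, h3]
          have h4 : Nat.Coprime (d - 1) ((d - 1) + 1) := by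
            rw [Nat.coprime_self_add_right]
            exact Nat.coprime_one_right _
          rw [Nat.sub_add_cancel hd0] at h4
          exact h4
      · intro d' hd0' hd' hdd n
        have hc := (Nat.chineseRemainder hd u (d - 1)).2
        rw [← hdd, ← Nat.modEq_and_modEq_iff_modEq_mul hd]
        have : d = d' := Nat.eq_of_mul_eq_mul_left hv hdd
        subst this
        rw [dvd_succ_iff hd0]
        constructor
        · rintro ⟨h1, h2⟩
          exact ⟨h1.trans hc.1, h2.trans hc.2⟩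
        · rintro ⟨h1, h2⟩
          exact ⟨h1.trans hc.1.symm, h2.trans hc.2.symm⟩
    · exact ⟨1, Nat.coprime_one_left m, fun d hd0 hd hmd => absurd ⟨d, hd0, hd, hmd⟩ hm⟩
  choose c hc1 hc2 using h
  exact ⟨c, hc1, fun d hd0 hd => hc2 (v * d) d hd0 hd rfl⟩

theorem specialPlus (h1 : BVav) (h2 : Mass) (h3 : SieveW) : SpecialPlus := by
  classical
  obtain ⟨K, c0, hK, hc0, hsieve⟩ := h3
  set α : ℝ := 1 / (50 * K + 3) with hα
  have hden : 0 < 50 * K + 3 := by linarith
  have hα0 : 0 < α := by rw [hα]; positivity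
  have hα1 : α < 1 / 2 := by
    rw [hα, div_lt_div_iff₀ hden (by norm_num)]; linarith
  have hαK : α * K ≤ 1 / 50 := by
    rw [hα, div_mul_eq_mul_div, one_mul, div_le_div_iff₀ hden (by norm_num)]; linarith
  refine ⟨α, hα0, hα1, ?_⟩
  intro v u hv huv h2v hru g hg hgne
  obtain ⟨C, X1, hC, hX1, hBV⟩ := h1 g hg 3 (by norm_num)
  obtain ⟨cm, Cm, X2, hcm, hCm, hX2, hmass⟩ := h2 g hg hgne
  obtain ⟨cf, hcf1, hcf2⟩ := exists_class_neg hv huv
  have hφ : 0 < v.totient := Nat.totient_pos.2 hv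
  have hφ' : (0:ℝ) < v.totient := by exact_mod_cast hφ
  set c1 : ℝ := c0 * (cm / v.totient) / α with hc1
  have hc1pos : 0 < c1 := by rw [hc1]; positivity
  obtain ⟨X3, hX3, hnp⟩ := nonprime_small hg (ε := c1 / 4) (by linarith)
  -- large `x`
  have hev1 : ∀ᶠ x : ℝ in atTop, (2:ℝ) ≤ x ^ α := (tendsto_rpow_atTop hα0).eventually_ge_atTop _
  have hev2 : ∀ᶠ x : ℝ in atTop, (v:ℝ) ≤ x ^ (1 / 200 : ℝ) :=
    (tendsto_rpow_atTop (by norm_num)).eventually_ge_atTop _
  have hev3 : ∀ᶠ x : ℝ in atTop, 4 * (K * α * C) / c1 + 1 ≤ Real.log x :=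
    Real.tendsto_log_atTop.eventually_ge_atTop _
  obtain ⟨X4, hX4⟩ := ((hev1.and (hev2.and hev3))).exists_forall_of_atTop
  refine ⟨c1 / 2, max (max X1 X2) (max X3 X4), by linarith,
    hX1.trans ((le_max_left _ _).trans (le_max_left _ _)), ?_⟩
  intro x hx E hE
  have hx1 : X1 ≤ x := (le_max_left _ _).trans ((le_max_left _ _).trans hx)
  have hx2 : X2 ≤ x := (le_max_right _ _).trans ((le_max_left _ _).trans hx)
  have hx3 : X3 ≤ x := (le_max_left _ _).trans ((le_max_right _ _).trans hx)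
  obtain ⟨hw2, hvx, hlogx⟩ := hX4 x ((le_max_right _ _).trans ((le_max_right _ _).trans hx))
  have hx3' : (3:ℝ) ≤ x := hX1.trans hx1
  have hxpos : 0 < x := by linarith
  have hx1' : 1 < x := by linarith
  have hlog : 0 < Real.log x := Real.log_pos hx1'
  have hlog1 : 1 ≤ Real.log x := by
    have : 0 ≤ 4 * (K * α * C) / c1 := by positivity
    linarith
  set w : ℝ := x ^ α with hw
  have hwpos : 0 < w := by linarith
  have hwK : w ^ K ≤ x ^ (1 / 50 : ℝ) := by
    rw [hw, ← Real.rpow_mul hxpos.le]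
    exact Real.rpow_le_rpow_of_exponent_le hx1'.le hαK
  have hlogw : Real.log w = α * Real.log x := Real.log_rpow hxpos _
  set S : ℝ := ∑ n ∈ Icc 1 ⌊x⌋₊, Λ n * wt g x n with hS
  have hSpos : 0 ≤ S := Finset.sum_nonneg fun n _ =>
    mul_nonneg ArithmeticFunction.vonMangoldt_nonneg (wt_nonneg hg x n)
  set P : ℕ → Prop := fun q => q.Prime ∧ 3 ≤ q ∧ ¬ q ∣ v with hP
  set Ω : Finset ℕ := (Icc 1 ⌊x⌋₊).filter (fun n => n ≡ u [MOD v]) with hΩ
  set Er : ℕ → ℝ := fun m => |∑ n ∈ (Icc 1 ⌊x⌋₊).filter (fun n => n ≡ cf m [MOD m]),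
    Λ n * wt g x n - (1 / (m.totient : ℝ)) * S| with hEr
  set r : ℕ → ℝ := fun d => if v * d ≤ ⌊x ^ (1 / 40 : ℝ)⌋₊ then Er (v * d) else 0 with hr
  have hErnn : ∀ m, 0 ≤ Er m := fun m => abs_nonneg _
  have hR : ∑ d ∈ Icc 1 ⌊w ^ K⌋₊, r d ≤ C / Real.log x ^ (3:ℝ) := by
    refine le_trans ?_ (hBV x hx1 cf hcf1)
    have h4 : ∑ d ∈ Icc 1 ⌊w ^ K⌋₊, r d =
        ∑ d ∈ (Icc 1 ⌊w ^ K⌋₊).filter (fun d => v * d ≤ ⌊x ^ (1 / 40 : ℝ)⌋₊), Er (v * d) := by
      rw [Finset.sum_filter]
    rw [h4]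
    have h5 : ∑ d ∈ (Icc 1 ⌊w ^ K⌋₊).filter (fun d => v * d ≤ ⌊x ^ (1 / 40 : ℝ)⌋₊), Er (v * d) =
        ∑ m ∈ ((Icc 1 ⌊w ^ K⌋₊).filter (fun d => v * d ≤ ⌊x ^ (1 / 40 : ℝ)⌋₊)).image
          (fun d => v * d), Er m := by
      rw [Finset.sum_image]
      intro a _ b _ hab
      exact Nat.eq_of_mul_eq_mul_left hv hab
    rw [h5]
    apply Finset.sum_le_sum_of_subset_of_nonneg
    · intro m hm
      obtain ⟨d, hd, rfl⟩ := Finset.mem_image.1 hm
      obtain ⟨hd1, hd2⟩ := Finset.mem_filter.1 hd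
      rw [Finset.mem_Icc] at hd1 ⊢
      exact ⟨Nat.mul_pos hv hd1.1, hd2⟩
    · intro m _ _
      exact hErnn m
  have hsv := hsieve ℕ P (fun q hq => ⟨hq.1, hq.2.1⟩) w hw2 Ω (fun n => Λ n * wt g x n)
    (fun q n => q ∣ n + 1) ((1 / (v.totient : ℝ)) * S) (C / Real.log x ^ (3:ℝ)) r
    (fun n _ => mul_nonneg ArithmeticFunction.vonMangoldt_nonneg (wt_nonneg hg x n))
    (by positivity) (fun d => by
      simp only [hr]
      split_ifs
      · exact hErnn _
      · exact le_rfl) ?_ hR (Ω.filter (fun n => ∀ q : ℕ, P q → (q : ℝ) ≤ w → ¬ q ∣ n + 1))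
    (fun n => Finset.mem_filter)
  swap
  · -- the error terms
    intro I hI hIw E2 hE2
    have hIp : ∀ q ∈ I, q.Prime := fun q hq => (hI q hq).1.1
    set d : ℕ := ∏ q ∈ I, q with hd
    have hdpos : 0 < d := Finset.prod_pos fun q hq => (hIp q hq).pos
    have hvd : v.Coprime d := by
      apply Nat.Coprime.prod_right
      intro q hq
      rw [Nat.coprime_comm, Nat.Prime.coprime_iff_not_dvd (hIp q hq)]
      exact (hI q hq).1.2.2
    have hvdle : v * d ≤ ⌊x ^ (1 / 40 : ℝ)⌋₊ := by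
      rw [Nat.le_floor_iff (Real.rpow_nonneg hxpos.le _)]
      push_cast
      calc (v : ℝ) * d ≤ x ^ (1 / 200 : ℝ) * x ^ (1 / 50 : ℝ) :=
            mul_le_mul hvx (hIw.trans hwK) (Nat.cast_nonneg _) (Real.rpow_nonneg hxpos.le _)
        _ = x ^ (1 / 40 : ℝ) := by rw [← Real.rpow_add hxpos]; norm_num
    have hrd : r d = Er (v * d) := by simp only [hr]; rw [if_pos hvdle]
    rw [hrd]
    simp only [hEr]
    have hE2' : E2 = (Icc 1 ⌊x⌋₊).filter (fun n => n ≡ cf (v * d) [MOD v * d]) := by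
      ext n
      rw [hE2, Finset.mem_filter, Finset.mem_filter, hcf2 d hdpos hvd n, hd, prod_dvd_succ I hIp]
      tauto
    rw [hE2']
    apply le_of_eq
    congr 2
    rw [Nat.totient_mul hvd, hd, totient_prod_primes I hIp]
    push_cast
    have h6 : ∏ q ∈ I, (1 / ((q : ℝ) - 1)) = 1 / ∏ q ∈ I, ((q - 1 : ℕ) : ℝ) := by
      rw [Finset.prod_div_distrib, Finset.prod_const_one]
      congr 1
      apply Finset.prod_congr rfl
      intro q hq
      rw [Nat.cast_sub (hIp q hq).one_le, Nat.cast_one]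
    rw [h6]
    field_simp
  -- main term
  set E2 : Finset ℕ := Ω.filter (fun n => ∀ q : ℕ, P q → (q : ℝ) ≤ w → ¬ q ∣ n + 1) with hE2
  have hmain : c1 - K * α * C / Real.log x ≤ ∑ n ∈ E2, Λ n * wt g x n := by
    refine le_trans ?_ hsv
    have h7 : c1 ≤ c0 * (1 / (v.totient : ℝ) * S) / Real.log w := by
      rw [hlogw, le_div_iff₀ (by positivity), hc1]
      have h8 := (hmass x hx2).1
      have h9 : c0 * (cm / v.totient) / α * (α * Real.log x) =
          c0 * (1 / (v.totient : ℝ) * (cm * Real.log x)) := by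
        field_simp
      rw [h9]
      exact mul_le_mul_of_nonneg_left (mul_le_mul_of_nonneg_left h8 (by positivity)) hc0.le
    have h10 : K * Real.log w * (C / Real.log x ^ (3:ℝ)) ≤ K * α * C / Real.log x := by
      rw [hlogw]
      have h11 : Real.log x ^ (3:ℝ) = Real.log x * (Real.log x * Real.log x) := by
        have : (3:ℝ) = ((3:ℕ):ℝ) := by norm_num
        rw [this, Real.rpow_natCast]; ring
      rw [h11]
      have h12 : K * (α * Real.log x) * (C / (Real.log x * (Real.log x * Real.log x))) =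
          K * α * C / (Real.log x * Real.log x) := by
        field_simp
      rw [h12]
      apply div_le_div_of_nonneg_left (by positivity) hlog
      nlinarith
    linarith
  have herr : K * α * C / Real.log x ≤ c1 / 4 := by
    rw [div_le_iff₀ hlog]
    have h13 : 4 * (K * α * C) / c1 ≤ Real.log x := by linarith
    rw [div_le_iff₀ hc1pos] at h13
    linarith
  -- comparison with the primes
  have hcomp : ∑ n ∈ E2, Λ n * wt g x n ≤ ∑ p ∈ E, Real.log p * wt g x p + c1 / 4 := by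
    rw [← Finset.sum_filter_add_sum_filter_not E2 (fun n => n.Prime)]
    apply add_le_add
    · have h14 : ∑ n ∈ E2.filter (fun n => n.Prime), Λ n * wt g x n =
          ∑ n ∈ E2.filter (fun n => n.Prime), Real.log n * wt g x n := by
        apply Finset.sum_congr rfl
        intro n hn
        rw [ArithmeticFunction.vonMangoldt_apply_prime (Finset.mem_filter.1 hn).2]
      rw [h14]
      apply Finset.sum_le_sum_of_subset_of_nonneg
      · intro p hp
        obtain ⟨hpE2, hpp⟩ := Finset.mem_filter.1 hp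
        obtain ⟨hpΩ, hps⟩ := Finset.mem_filter.1 hpE2
        obtain ⟨hpI, hpu⟩ := Finset.mem_filter.1 hpΩ
        rw [hE]
        refine ⟨hpp, ?_, hpu, ?_⟩
        · rw [← Nat.le_floor_iff hxpos.le]
          exact (Finset.mem_Icc.1 hpI).2
        · intro r hrp hrd
          by_cases hr2 : r = 2
          · exact Or.inl hr2
          right
          by_contra hle
          by_cases hrv : r ∣ v
          · apply hru r hrp hr2 hrv
            have h15 : p + 1 ≡ u + 1 [MOD r] := (hpu.of_dvd hrv).add_right 1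
            exact (Nat.modEq_zero_iff_dvd).1
              (h15.symm.trans ((Nat.modEq_zero_iff_dvd).2 hrd))
          · have hr3 : 3 ≤ r := by
              have := hrp.two_le
              omega
            exact hps r ⟨hrp, hr3, hrv⟩ (not_lt.1 hle) hrd
      · intro p hp _
        have hpp := ((hE p).1 hp).1
        exact mul_nonneg (Real.log_nonneg (by exact_mod_cast hpp.one_le)) (wt_nonneg hg x p)
    · exact hnp x hx3 _ (fun n hn => (Finset.mem_filter.1 hn).2)
  linarith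

end Pool.Agent.Helper63.LT
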