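import Pool.Agent.Helper63.LT.Defs
import Pool.Agent.Helper18.BV.St

/-!
# Project LT: statements of the modules

Every module proves one of the propositions below, possibly taking other ones as hypotheses.
-/

set_option autoImplicit false

open Finset Filter Topology
open scoped ArithmeticFunction.vonMangoldt NumberField

namespace Pool.Agent.Helper63.LT

open WeierstrassCurve Pool.Agent.Helper10.SS Pool.Agent.Helper18.BV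

/-! ### Analytic part -/

/-- LT-1: primes `p` in a residue class such that `p + 1` has no small odd prime factor. -/
def SpecialPlus : Prop :=
  ∃ α : ℝ, 0 < α ∧ α < 1 / 2 ∧ ∀ v u : ℕ, 0 < v → u.Coprime v → 2 ∣ v →
    (∀ r : ℕ, r.Prime → r ≠ 2 → r ∣ v → ¬ r ∣ u + 1) →
    ∀ g : ℝ → ℝ, IsWt g → (∃ y, g y ≠ 0) → ∃ c X0 : ℝ, 0 < c ∧ 3 ≤ X0 ∧ ∀ x : ℝ, X0 ≤ x →
      ∀ E : Finset ℕ, (∀ p : ℕ, p ∈ E ↔ (p.Prime ∧ (p : ℝ) ≤ x ∧ p ≡ u [MOD v] ∧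
        ∀ r : ℕ, r.Prime → r ∣ p + 1 → r = 2 ∨ x ^ α < (r : ℝ))) →
      c ≤ ∑ p ∈ E, Real.log p * wt g x p

/-- LT-2: prescribed quadratic characters for a quarter of the indices. -/
def PatternInt : Prop :=
  ∀ (I : Type) [Fintype I] (A B : I → ℤ),
    (∀ i, ¬ IsSquare (A i) ∧ ¬ IsSquare (-3 * A i) ∧ ¬ IsSquare (B i) ∧ ¬ IsSquare (-3 * B i) ∧
      ¬ IsSquare (-(A i * B i)) ∧ ¬ IsSquare (3 * (A i * B i))) →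
    ∃ v u : ℕ, 0 < v ∧ u.Coprime v ∧ 4 ∣ v ∧ u % 4 = 3 ∧
      (∀ r : ℕ, r.Prime → r ≠ 2 → r ∣ v → ¬ r ∣ u + 1) ∧
      ∃ T : Finset I, Fintype.card I ≤ 4 * T.card ∧
        ∀ p : ℕ, p.Prime → p ≡ u [MOD v] → ∀ i ∈ T,
          ¬ IsSquare ((A i : ℤ) : ZMod p) ∧ ¬ IsSquare ((B i : ℤ) : ZMod p)

/-! ### Curves -/

/-- LT-3: maps of points induced by a homomorphism of fields and a change of coordinates. -/
def MapHom : Prop :=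
  ∀ (F K : Type) [Field F] [Field K] [DecidableEq F] [DecidableEq K] (σ : F →+* K) (u : K),
    u ≠ 0 → (2 : K) ≠ 0 → ∀ (a : F) (a' : K), a' = u ^ 4 * σ a →
    ∃ T : (EF a 0).Point →+ (EF a' 0).Point, Function.Injective T ∧
      ∀ P x y, AtF P x y → AtF (T P) (u ^ 2 * σ x) (u ^ 3 * σ y)

/-- LT-4: the group of points modulo `p`, for `p ≡ 3 (mod 4)`. -/
def Grp : Prop :=
  ∀ (p : ℕ) [Fact p.Prime], p % 4 = 3 →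
    (∀ r : ℕ, r.Prime → r ∣ p + 1 → r = 2 ∨ ¬ r ^ 2 ∣ p + 1) →
    ∀ a : ZMod p, ¬ IsSquare (-a) →
    (∀ m : ℕ, 0 < m → Nat.card {R : (EF a 0).Point // m • R = 0} ≤ m) ∧
    ∀ (P : (EF a 0).Point) (x y : ZMod p), AtF P x y → ¬ IsSquare x →
      ¬ (∀ R, R ∈ AddSubgroup.zmultiples P) →
      ∃ q : ℕ, q.Prime ∧ q ≠ 2 ∧ q ∣ p + 1 ∧ ((p + 1) / q) • P = 0

/-! ### Heights and reduction over a number field -/

/-- All conjugates of `w` have absolute value at most `B`. -/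
def Hs {L : Type} [Field L] (w : L) (B : ℝ) : Prop := ∀ σ : L →+* ℂ, ‖σ w‖ ≤ B

/-- The coordinates of the point `P` of `y² = x³ + x` have numerators and denominators
bounded by `B`. -/
def Bd {L : Type} [Field L] (P : (EF (1 : L) 0).Point) (B : ℝ) : Prop :=
  P = 0 ∨ ∃ x y : L, AtF P x y ∧ ∃ s t b : 𝓞 L, b ≠ 0 ∧ (b : L) * x = s ∧ (b : L) * y = t ∧
    Hs (b : L) B ∧ Hs (s : L) B ∧ Hs (t : L) B

/-- The point `P'` of `y² = x³ + x` is the image of the point `P` under `φ`. -/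
def Rd {L κ : Type} [Field L] [Field κ] (φ : 𝓞 L →+* κ) (P : (EF (1 : L) 0).Point)
    (P' : (EF (1 : κ) 0).Point) : Prop :=
  (P = 0 ∧ P' = 0) ∨ ∃ (x y : L) (x' y' : κ), AtF P x y ∧ AtF P' x' y' ∧
    ∃ s t b : 𝓞 L, φ b ≠ 0 ∧ (b : L) * x = s ∧ (b : L) * y = t ∧
      φ b * x' = φ s ∧ φ b * y' = φ t

/-- LT-5: one addition. -/
def AddStep : Prop :=
  ∃ c : ℕ, 1 ≤ c ∧ ∀ (L : Type) [Field L] [NumberField L] [DecidableEq L] (B : ℝ), 2 ≤ B →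
    ∀ P Q : (EF (1 : L) 0).Point, Bd P B → Bd Q B →
    ∃ w : 𝓞 L, w ≠ 0 ∧ Hs (w : L) (B ^ c) ∧ Bd (P + Q) (B ^ c) ∧
      ∀ (κ : Type) [Field κ] [DecidableEq κ] (φ : 𝓞 L →+* κ) (P' Q' : (EF (1 : κ) 0).Point),
        (2 : κ) ≠ 0 → φ w ≠ 0 → Rd φ P P' → Rd φ Q Q' → Rd φ (P + Q) (P' + Q')

/-- LT-6: linear combinations. -/
def Chain : Prop :=
  ∃ c : ℕ, 2 ≤ c ∧ ∀ (L : Type) [Field L] [NumberField L] [DecidableEq L] (I : Type) [Fintype I]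
    (Q : I → (EF (1 : L) 0).Point), ∃ A : ℝ, 0 < A ∧ ∀ (J : ℕ) (n : I → ℤ),
    (∀ i, |n i| ≤ 2 ^ J) → ∃ w : 𝓞 L, w ≠ 0 ∧ Hs (w : L) (Real.exp (A * c ^ J)) ∧
      ∀ (κ : Type) [Field κ] [DecidableEq κ] (φ : 𝓞 L →+* κ) (Q' : I → (EF (1 : κ) 0).Point),
        (2 : κ) ≠ 0 → φ w ≠ 0 → (∀ i, Rd φ (Q i) (Q' i)) →
        Rd φ (∑ i, n i • Q i) (∑ i, n i • Q' i)

/-- LT-7: few primes divide an algebraic integer of bounded height. -/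
def NormCount : Prop :=
  ∀ (L : Type) [Field L] [NumberField L] (w : 𝓞 L) (B : ℝ), w ≠ 0 → 1 ≤ B → Hs (w : L) B →
    ∀ S : Finset ℕ, (∀ p ∈ S, p.Prime ∧ ∃ (κ : Type) (_ : Field κ) (φ : 𝓞 L →+* κ),
      (p : κ) = 0 ∧ φ w = 0) →
    (S.card : ℝ) * Real.log 2 ≤ Module.finrank ℚ L * Real.log B

/-! ### Independence -/

/-- The curves are pairwise no quartic twists by fourth powers in `ℚ(i)`, unless they are equal,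
and the points on each curve are independent. -/
def Indep {I : Type} [Fintype I] (a : I → ℤ) (P : ∀ i, (EF (a i : ℚ) 0).Point) : Prop :=
  (∀ i j, a i ≠ a j → ∀ r : ℚ, (a i : ℚ) ≠ r ^ 4 * a j ∧ (a i : ℚ) ≠ -4 * r ^ 4 * a j) ∧
  ∀ (d : ℤ) (S : I → (EF (d : ℚ) 0).Point),
    (∀ i, a i = d → ∃ x y, AtF (P i) x y ∧ AtF (S i) x y) →
    ∀ n : I → ℤ, (∀ i, n i ≠ 0 → a i = d) → ∑ i, n i • S i = 0 → ∀ i, n i = 0

/-- LT-8: the transported points are independent. -/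
def IndepL : Prop :=
  ∀ (L : Type) [Field L] [NumberField L] [IsGalois ℚ L] [DecidableEq L] (I : Type) [Fintype I]
    (a : I → ℤ) (P : ∀ i, (EF (a i : ℚ) 0).Point), (∀ i, a i ≠ 0) → Indep a P →
    ∀ ι : L, ι ^ 2 = -1 → ∀ θ : I → L, (∀ i, θ i ^ 4 = a i) →
    ∀ Q : I → (EF (1 : L) 0).Point,
      (∀ i, ∃ x y : ℚ, AtF (P i) x y ∧ AtF (Q i) ((x : L) / θ i ^ 2) ((y : L) / θ i ^ 3)) →
    ∀ n : I → ℤ, ∑ i, n i • Q i = 0 → ∀ i, n i = 0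

/-- LT-9a: a suitable number field. -/
def FieldEx : Prop :=
  ∀ (I : Type) [Fintype I] (a : I → ℤ), (∀ i, a i ≠ 0) →
    ∃ (L : Type) (_ : Field L) (_ : NumberField L), IsGalois ℚ L ∧
      ∃ ι : L, ι ^ 2 = -1 ∧ ∃ θ : I → L, ∀ i, θ i ^ 4 = a i

/-- LT-9b: fourth roots modulo a prime number and in the number field. -/
def Match : Prop :=
  ∀ (L : Type) [Field L] [NumberField L] (I : Type) [Fintype I] (a : I → ℤ) (ι : L),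
    ι ^ 2 = -1 → ∀ θ : I → L, (∀ i, θ i ^ 4 = a i) →
    ∀ (p : ℕ) [Fact p.Prime], p ≠ 2 → (∀ i, (a i : ZMod p) ≠ 0) →
    ∀ t : I → ZMod p, (∀ i, t i ^ 4 = a i) →
    ∃ (κ : Type) (_ : Field κ) (φ : 𝓞 L →+* κ) (j : ZMod p →+* κ) (f : I → Fin 4)
      (T : I → 𝓞 L), (∀ i, (T i : L) = ι ^ (f i : ℕ) * θ i) ∧ ∀ i, φ (T i) = j (t i)

/-- The reductions modulo `p` of the points `P i` are killed by some `m ≤ y`. -/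
def Small {I : Type} [Fintype I] (a : I → ℤ) (P : ∀ i, (EF (a i : ℚ) 0).Point) (p : ℕ)
    (y : ℝ) : Prop :=
  ∃ _ : Fact p.Prime, p % 4 = 3 ∧
    (∀ r : ℕ, r.Prime → r ∣ p + 1 → r = 2 ∨ ¬ r ^ 2 ∣ p + 1) ∧
    (∀ i, ¬ IsSquare (-(a i : ZMod p))) ∧
    ∃ m : ℕ, 0 < m ∧ (m : ℝ) ≤ y ∧ ∀ i, ∃ P' : (EF (a i : ZMod p) 0).Point,
      Reduces (a i) p (P i) P' ∧ m • P' = 0

/-- LT-10: few primes are bad for many points. -/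
def RankEC : Prop :=
  ∃ c : ℕ, ∀ (I : Type) [Fintype I] [Nonempty I] (a : I → ℤ) (P : ∀ i, (EF (a i : ℚ) 0).Point),
    (∀ i, a i ≠ 0) → (∀ i, P i ≠ 0) → Indep a P →
    ∃ C : ℝ, 0 < C ∧ ∀ y : ℝ, 1 ≤ y → ∀ S : Finset ℕ, (∀ p ∈ S, Small a P p y) →
      (S.card : ℝ) ≤ C * y ^ (1 + (c : ℝ) / Fintype.card I)

/-! ### The main theorem -/

/-- LT-11: the main theorem for families indexed by a finite type. -/
def MainI : Prop :=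
  ∃ C : ℕ, ∀ (I : Type) [Fintype I] (a : I → ℤ) (P : ∀ i, (EF (a i : ℚ) 0).Point),
    (∀ i, P i ≠ 0) → Indep a P →
    (∀ i, ∀ r : ℚ, (-a i : ℚ) ≠ r ^ 2 ∧ (-a i : ℚ) ≠ -3 * r ^ 2) →
    (∀ i x y, AtF (P i) x y → ∀ r : ℚ, x ≠ r ^ 2 ∧ x ≠ -3 * r ^ 2 ∧
      a i * x ≠ r ^ 2 ∧ a i * x ≠ -3 * r ^ 2) →
    ∃ c : ℝ, 0 < c ∧ ∀ z0 : ℝ, ∃ z : ℝ, z0 ≤ z ∧
      c * z / Real.log z ^ 2 ≤ ({p : ℕ | p.Prime ∧ (p : ℝ) ≤ z ∧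
        Fintype.card I ≤ 4 * {i : I | Primitive (a i) (P i) p}.ncard + C}.ncard : ℝ)

/-- LT-12: the main theorem. -/
def MainSt : Prop :=
  ∃ C : ℕ, ∀ (m : ℕ) (a : Fin m → ℤ) (k : Fin m → ℕ)
    (P : ∀ i, Fin (k i) → (EF (a i : ℚ) 0).Point),
    (∀ i j, i ≠ j → ∀ r : ℚ, (a i : ℚ) ≠ r ^ 4 * a j ∧ (a i : ℚ) ≠ -4 * r ^ 4 * a j) →
    (∀ i, LinearIndependent ℤ (P i)) →
    (∀ i, ∀ r : ℚ, (-a i : ℚ) ≠ r ^ 2 ∧ (-a i : ℚ) ≠ -3 * r ^ 2) →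
    (∀ i j x y, AtF (P i j) x y → ∀ r : ℚ, x ≠ r ^ 2 ∧ x ≠ -3 * r ^ 2 ∧
      a i * x ≠ r ^ 2 ∧ a i * x ≠ -3 * r ^ 2) →
    ∃ c : ℝ, 0 < c ∧ ∀ z0 : ℝ, ∃ z : ℝ, z0 ≤ z ∧
      c * z / Real.log z ^ 2 ≤ ({p : ℕ | p.Prime ∧ (p : ℝ) ≤ z ∧ ∑ i, k i ≤
        4 * {ij : Σ i, Fin (k i) | Primitive (a ij.1) (P ij.1 ij.2) p}.ncard + C}.ncard : ℝ)

/-- The point `(-1, n)` of `y² = x³ - (n² + 1) x`. -/
noncomputable def pt (n : ℤ) (hn : n ≠ 0) : (EF ((-(n ^ 2 + 1) : ℤ) : ℚ) 0).Point :=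
  .some (-1) (n : ℚ) (nonsing_of _ _ (by push_cast; ring) (Or.inl (by
    have : (n : ℚ) ≠ 0 := by exact_mod_cast hn
    simpa using this)))

/-- LT-13: the family `(-1, n)` on `y² = x³ - (n² + 1) x`. -/
def Family : Prop :=
  ∃ C : ℕ, {n : ℕ | ∃ hn : (n : ℤ) ≠ 0, (∀ q : ℕ, q.Prime → ¬ q ^ 4 ∣ n ^ 2 + 1) ∧
    ¬ ∃ c : ℝ, 0 < c ∧ ∀ z0 : ℝ, ∃ z : ℝ, z0 ≤ z ∧ c * z / Real.log z ^ 2 ≤
      ({p : ℕ | (p : ℝ) ≤ z ∧ Primitive (-((n : ℤ) ^ 2 + 1)) (pt n hn) p}.ncard : ℝ)}.encard ≤ C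

end Pool.Agent.Helper63.LT
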